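import Pool.Agent.K3h40.EC.N

/-! Second moments of null quadratic forms: combinations `∑ b i ‖U (2 i)‖²` with `∑ b i = 0`
(helper40). -/
set_option autoImplicit false
open MeasureTheory Filter Topology Complex
open scoped ContDiff

namespace Pool.Agent.K3h40.EC

open Pool.Agent.W745.RW
open Pool.Agent.Y265.RW

noncomputable section

variable {B : Set ℂ} {h : ℕ → ℝ} {U : ℕ → ℤ → ℂ → ℂ} {c : ℤ → ℂ} {E : ℤ → ℝ}

/-- `‖U (2 i)‖²` -/
def vv (U : ℕ → ℤ → ℂ → ℂ) (n i : ℕ) (z : ℂ) : ℝ := ‖U n (2 * (i : ℤ)) z‖ ^ 2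

/-- the constants -/
def gg (E : ℤ → ℝ) (i l : ℕ) : ℝ := E (2 * (i : ℤ) + 2 * (l : ℤ)) + E (2 * (i : ℤ) - 2 * (l : ℤ))

lemma vvC (hU : Fam B h U) (n i : ℕ) {z : ℂ} (hz : z ∈ B) :
    U n (2 * (i : ℤ)) z * U n (-(2 * (i : ℤ))) z = (vv U n i z : ℂ) := by
  have h1 := Fam.nsq hU n (2 * (i : ℤ)) hz
  rw [sgn_even (even_two_mul _), one_mul] at h1
  unfold vv
  rw [h1]

theorem tele (X : ℕ → ℕ → ℕ → ℝ) (h : ∀ i l, Tendsto (fun n => X n i l - X n (i+1) l -
    X n i (l+1) + X n (i+1) (l+1)) atTop (𝓝 0)) (i l : ℕ) :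
    Tendsto (fun n => X n i l - X n 0 l - X n i 0 + X n 0 0) atTop (𝓝 0) := by
  have h1 : Tendsto (fun n => ∑ l' ∈ Finset.range l, ∑ i' ∈ Finset.range i, (X n i' l' -
      X n (i'+1) l' - X n i' (l'+1) + X n (i'+1) (l'+1))) atTop (𝓝 0) := by
    have h2 := tendsto_finset_sum (Finset.range l) (fun l' _ =>
      tendsto_finset_sum (Finset.range i) (fun i' _ => h i' l'))
    simpa using h2
  refine h1.congr fun n => ?_
  have e1 : ∀ l', ∑ i' ∈ Finset.range i, (X n i' l' -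
      X n (i'+1) l' - X n i' (l'+1) + X n (i'+1) (l'+1)) =
      (X n i (l'+1) - X n i l') - (X n 0 (l'+1) - X n 0 l') := by
    intro l'
    have := Finset.sum_range_sub (fun i' => X n i' (l'+1) - X n i' l') i
    rw [← this]
    refine Finset.sum_congr rfl fun i' _ => ?_
    ring
  simp only [e1]
  rw [Finset.sum_sub_distrib, Finset.sum_range_sub (fun l' => X n i l'),
    Finset.sum_range_sub (fun l' => X n 0 l')]
  ring

theorem quad (X : ℕ → ℕ → ℕ → ℝ) (h : ∀ i l, Tendsto (fun n => X n i l - X n (i+1) l -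
    X n i (l+1) + X n (i+1) (l+1)) atTop (𝓝 0)) (b : ℕ → ℝ) (M : ℕ)
    (hb : ∑ i ∈ Finset.range M, b i = 0) :
    Tendsto (fun n => ∑ i ∈ Finset.range M, ∑ l ∈ Finset.range M, b i * b l * X n i l) atTop
      (𝓝 0) := by
  have h1 : Tendsto (fun n => ∑ i ∈ Finset.range M, ∑ l ∈ Finset.range M, b i * b l *
      (X n i l - X n 0 l - X n i 0 + X n 0 0)) atTop (𝓝 0) := by
    have h2 := tendsto_finset_sum (Finset.range M) (fun i _ =>
      tendsto_finset_sum (Finset.range M) (fun l _ => (tele X h i l).const_mul (b i * b l)))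
    simpa using h2
  refine h1.congr fun n => ?_
  have e1 : ∀ i l, b i * b l * (X n i l - X n 0 l - X n i 0 + X n 0 0) =
      b i * b l * X n i l - b i * (b l * X n 0 l) - (b i * X n i 0) * b l +
        (b i * X n 0 0) * b l := by
    intro i l; ring
  simp only [e1, Finset.sum_add_distrib, Finset.sum_sub_distrib, ← Finset.mul_sum, hb, mul_zero,
    ← Finset.sum_mul, zero_mul, sub_zero, add_zero, Finset.sum_const_zero]

theorem diffX (hB : IsOpen B) (hh : ∀ n, h n ≠ 0) (hU : Fam B h U) (uU : Unit2 B U)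
    (hp : Pair B U U (kap c)) (hE : ∀ s, Even s → c s * c (-s) = (E s : ℂ)) {φ : ℂ → ℝ}
    (hφ : TF B φ) (i l : ℕ) :
    Tendsto (fun n => ∫ z, φ z * ((vv U n i z - vv U n (i+1) z) * (vv U n l z - vv U n (l+1) z)))
      atTop (𝓝 ((gg E i l - gg E (i+1) l - gg E i (l+1) + gg E (i+1) (l+1)) * ∫ z, φ z)) := by
  have key := diff_lim hB hh hU uU hp hE hφ (j := 2 * (i : ℤ)) (k := 2 * (l : ℤ))
    (even_two_mul _) (even_two_mul _)
  have k1 := (Complex.continuous_re.tendsto _).comp key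
  have e0 : ((LL2 E (2 * (i : ℤ)) (2 * (l : ℤ)) : ℂ) * ((∫ z, φ z : ℝ) : ℂ)).re =
      (gg E i l - gg E (i+1) l - gg E i (l+1) + gg E (i+1) (l+1)) * ∫ z, φ z := by
    rw [← Complex.ofReal_mul, Complex.ofReal_re]
    congr 1
    unfold LL2 gg
    push_cast
    rw [show 2 * ((i : ℤ) + 1) + 2 * l = 2 * i + 2 * l + 2 by ring,
      show 2 * ((i : ℤ) + 1) - 2 * l = 2 * i - 2 * l + 2 by ring,
      show 2 * (i : ℤ) + 2 * (l + 1) = 2 * i + 2 * l + 2 by ring,
      show 2 * (i : ℤ) - 2 * (l + 1) = 2 * i - 2 * l - 2 by ring,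
      show 2 * ((i : ℤ) + 1) + 2 * (l + 1) = 2 * i + 2 * l + 4 by ring,
      show 2 * ((i : ℤ) + 1) - 2 * (l + 1) = 2 * i - 2 * l by ring]
    ring
  rw [e0] at k1
  refine k1.congr fun n => ?_
  simp only [Function.comp_apply]
  have e1 : ∫ z, (φ z : ℂ) * ((U n (2 * (i : ℤ)) z * U n (-(2 * (i : ℤ))) z -
      U n (2 * (i : ℤ) + 2) z * U n (-(2 * (i : ℤ)) - 2) z) *
      (U n (2 * (l : ℤ)) z * U n (-(2 * (l : ℤ))) z -
      U n (2 * (l : ℤ) + 2) z * U n (-(2 * (l : ℤ)) - 2) z)) =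
      ((∫ z, φ z * ((vv U n i z - vv U n (i+1) z) * (vv U n l z - vv U n (l+1) z)) : ℝ) : ℂ) := by
    rw [← integral_complex_ofReal]
    refine integral_congr_ae (Eventually.of_forall fun z => ?_)
    simp only
    by_cases hz : z ∈ B
    · have a1 := vvC hU n i hz
      have a2 := vvC hU n (i+1) hz
      have a3 := vvC hU n l hz
      have a4 := vvC hU n (l+1) hz
      rw [show 2 * ((i + 1 : ℕ) : ℤ) = 2 * (i : ℤ) + 2 by push_cast; ring,
        show -(2 * (i : ℤ) + 2) = -(2 * (i : ℤ)) - 2 by ring] at a2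
      rw [show 2 * ((l + 1 : ℕ) : ℤ) = 2 * (l : ℤ) + 2 by push_cast; ring,
        show -(2 * (l : ℤ) + 2) = -(2 * (l : ℤ)) - 2 by ring] at a4
      rw [a1, a2, a3, a4]
      push_cast
      ring
    · rw [Pool.Agent.Y265.RW.TF.zero hφ hz]; simp
  rw [e1, Complex.ofReal_re]

/-- **Second moments of null quadratic forms.** -/
theorem nullQ (hB : IsOpen B) (hh : ∀ n, h n ≠ 0) (hU : Fam B h U) (uU : Unit2 B U)
    (hp : Pair B U U (kap c)) (hE : ∀ s, Even s → c s * c (-s) = (E s : ℂ)) {φ : ℂ → ℝ}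
    (hφ : TF B φ) (b : ℕ → ℝ) (M : ℕ) (hb : ∑ i ∈ Finset.range M, b i = 0) :
    Tendsto (fun n => ∫ z, φ z * (∑ i ∈ Finset.range M, b i * vv U n i z) ^ 2) atTop
      (𝓝 ((∑ i ∈ Finset.range M, ∑ l ∈ Finset.range M, b i * b l * gg E i l) * ∫ z, φ z)) := by
  have cv : ∀ n i, ContinuousOn (vv U n i) B := fun n i => (hU.smooth n _).continuousOn.norm.pow 2
  have ib : ∀ n i l, Integrable (fun z => φ z * (vv U n i z * vv U n l z)) := fun n i l =>
    int_mulr hB hφ ((cv n i).mul (cv n l))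
  set X : ℕ → ℕ → ℕ → ℝ := fun n i l => (∫ z, φ z * (vv U n i z * vv U n l z)) -
    gg E i l * ∫ z, φ z with hX
  have h1 : ∀ i l, Tendsto (fun n => X n i l - X n (i+1) l -
      X n i (l+1) + X n (i+1) (l+1)) atTop (𝓝 0) := by
    intro i l
    have h2 := (diffX hB hh hU uU hp hE hφ i l).sub_const
      ((gg E i l - gg E (i+1) l - gg E i (l+1) + gg E (i+1) (l+1)) * ∫ z, φ z)
    rw [sub_self] at h2
    refine h2.congr fun n => ?_
    have e : ∫ z, φ z * ((vv U n i z - vv U n (i+1) z) * (vv U n l z - vv U n (l+1) z)) =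
        (∫ z, φ z * (vv U n i z * vv U n l z)) - (∫ z, φ z * (vv U n (i+1) z * vv U n l z)) -
        (∫ z, φ z * (vv U n i z * vv U n (l+1) z)) +
        ∫ z, φ z * (vv U n (i+1) z * vv U n (l+1) z) := by
      rw [← integral_sub (ib n i l) (ib n (i+1) l), ← integral_sub _ (ib n i (l+1)),
        ← integral_add _ (ib n (i+1) (l+1))]
      · refine integral_congr_ae (Eventually.of_forall fun z => ?_)
        simp only
        ring
      · exact ((ib n i l).sub (ib n (i+1) l)).sub (ib n i (l+1))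
      · exact (ib n i l).sub (ib n (i+1) l)
    rw [e]
    simp only [hX]
    ring
  have h3 := quad X h1 b M hb
  have h4 := h3.add_const ((∑ i ∈ Finset.range M, ∑ l ∈ Finset.range M, b i * b l * gg E i l) *
    ∫ z, φ z)
  rw [zero_add] at h4
  refine h4.congr fun n => ?_
  have e : ∫ z, φ z * (∑ i ∈ Finset.range M, b i * vv U n i z) ^ 2 =
      ∑ i ∈ Finset.range M, ∑ l ∈ Finset.range M, b i * b l *
        ∫ z, φ z * (vv U n i z * vv U n l z) := by
    have e1 : ∀ z, φ z * (∑ i ∈ Finset.range M, b i * vv U n i z) ^ 2 =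
        ∑ i ∈ Finset.range M, ∑ l ∈ Finset.range M, b i * b l *
          (φ z * (vv U n i z * vv U n l z)) := by
      intro z
      rw [sq, Finset.sum_mul_sum, Finset.mul_sum]
      refine Finset.sum_congr rfl fun i _ => ?_
      rw [Finset.mul_sum]
      refine Finset.sum_congr rfl fun l _ => ?_
      ring
    simp only [e1]
    rw [integral_finset_sum _ fun i _ => integrable_finset_sum _ fun l _ =>
      (ib n i l).const_mul _]
    refine Finset.sum_congr rfl fun i _ => ?_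
    rw [integral_finset_sum _ fun l _ => (ib n i l).const_mul _]
    refine Finset.sum_congr rfl fun l _ => ?_
    rw [integral_const_mul]
  rw [e, Finset.sum_mul]
  rw [← Finset.sum_add_distrib]
  refine Finset.sum_congr rfl fun i _ => ?_
  rw [Finset.sum_mul, ← Finset.sum_add_distrib]
  refine Finset.sum_congr rfl fun l _ => ?_
  simp only [hX]
  ring

end

end Pool.Agent.K3h40.EC
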