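import Pool.Agent.TH294.RG.L2a
import Pool.Agent.R989.Det2
import Pool.Agent.K3h40.EC.N2

/-! Limits of pairings of a sequence of solutions with its derivatives, with `L²` bounds only:
adapted from `Pool.Agent.R989.Der2` (helper40). -/

set_option autoImplicit false

open MeasureTheory Filter Topology Complex
open scoped ContDiff

namespace Pool.Agent.K3h40.EC

open Pool.Agent.W745.RW Pool.Agent.TH294.RS Pool.Agent.TH294.RG
open Pool.Agent.R989.Der (PR PR_deriv PR_bd lim_deriv Rt Rt_zero Rt_add Rt_smul Rt_one Rt_I rr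
  rr_cont rr_add rr_bd pw pw_cont pw_norm gd PR_sub sy sy_cont sy_norm sy_eq SD)

noncomputable section

/-- semiclassical derivatives of all orders are locally bounded in `L²` -/
def MC2 (B : Set ℂ) (h : ℕ → ℝ) (f : ℕ → ℂ → ℂ) : Prop := ∀ k, MK2 B h k f

variable (h : ℕ → ℝ) (u : ℕ → ℂ → ℂ) (m : ℝ) (ν : Measure ℝ)

/-- the sequence `G` of derivatives has the symbol `c` -/
structure PQ (G : ℕ → ℂ → ℂ) (c : ℝ → ℂ) : Prop where
  mc : MC2 Set.univ h G
  cc : Continuous c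
  cb : ∃ C, ∀ α, ‖c α‖ ≤ C
  lim : ∀ φ, TF Set.univ φ → ∀ w ∈ Rt, Tendsto (fun n => PR φ h u G n w) atTop
    (𝓝 (((∫ z, φ z : ℝ) : ℂ) * ((m : ℂ) * ∫ α, c α * pw w α ∂ν)))

variable {h u m ν} [IsProbabilityMeasure ν]

theorem MC2.lb2 {G : ℕ → ℂ → ℂ} (H : MC2 Set.univ h G) : LB Set.univ 2 G := H 0

theorem MC2.hd1 {G : ℕ → ℂ → ℂ} (H : MC2 Set.univ h G) : MC2 Set.univ h (hd h 1 G) :=
  fun k => (H (k + 1)).2.1
theorem MC2.hdI {G : ℕ → ℂ → ℂ} (H : MC2 Set.univ h G) : MC2 Set.univ h (hd h I G) :=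
  fun k => (H (k + 1)).2.2

theorem step (hh : Tendsto h atTop (𝓝 0)) (hu : LB Set.univ 2 u) {G : ℕ → ℂ → ℂ} {c : ℝ → ℂ}
    (H : PQ h u m ν G c) {v : ℂ} (hv : v ∈ Rt) (h1 : MC2 Set.univ h (hd h v G))
    (h2 : MC2 Set.univ h (hd h v (hd h v G))) :
    PQ h u m ν (hd h v G) (fun α => c α * (rr v α * I)) := by
  obtain ⟨C, hC⟩ := H.cb
  have hC0 : 0 ≤ C := (norm_nonneg _).trans (hC 0)
  have smu : ∀ n, ContDiff ℝ ∞ (u n) := fun n => contDiffOn_univ.1 (hu.sm n)
  refine ⟨h1, H.cc.mul ((Complex.continuous_ofReal.comp (rr_cont v)).mul continuous_const),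
    ⟨C * (|v.re| + |v.im|), fun α => ?_⟩, fun φ hφ w hw => ?_⟩
  · rw [norm_mul, norm_mul, Complex.norm_real, Real.norm_eq_abs, Complex.norm_I, mul_one]
    exact mul_le_mul (hC α) (rr_bd v α) (abs_nonneg _) hC0
  · obtain ⟨D, hD⟩ := PR_bd hφ hh hu (MC2.lb2 h2) (‖w‖ + ‖v‖)
    have hg := (((gd (ν := ν) H.cc H.cb w v).const_mul (m : ℂ)).const_mul
      (((∫ z, φ z : ℝ) : ℂ)))
    have sG : ∀ n, ContDiff ℝ ∞ (G n) := fun n => contDiffOn_univ.1 ((H.mc 0).sm n)
    have sG1 : ∀ n, ContDiff ℝ ∞ (hd h v G n) := fun n => contDiffOn_univ.1 ((h1 0).sm n)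
    have key := lim_deriv (f := fun n (τ : ℝ) => PR φ h u G n (w + τ * v))
      (f' := fun n (τ : ℝ) => PR φ h u (hd h v G) n (w + τ * v))
      (f'' := fun n (τ : ℝ) => PR φ h u (hd h v (hd h v G)) n (w + τ * v))
      (fun n τ => PR_deriv hφ n (smu n) (sG n) w v τ)
      (fun n τ => PR_deriv hφ n (smu n) (sG1 n) w v τ) (C := D) ?_
      (fun k => ?_) ?_ hg
    · simpa using key
    · filter_upwards [hD] with n hn τ hτ
      refine hn _ ((norm_add_le _ _).trans (add_le_add le_rfl ?_))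
      rw [norm_mul, Complex.norm_real, Real.norm_eq_abs, abs_of_nonneg hτ.1]
      exact mul_le_of_le_one_left (norm_nonneg _) hτ.2
    · refine H.lim φ hφ _ (Rt_add hw ?_)
      have := Rt_smul hv (1 / ((k : ℚ) + 1))
      push_cast at this ⊢
      exact this
    · refine H.lim φ hφ _ ?_
      simpa using hw

theorem stepD (hh : Tendsto h atTop (𝓝 0)) (hu : LB Set.univ 2 u) {G : ℕ → ℂ → ℂ} {c : ℝ → ℂ}
    (H : PQ h u m ν G c) : PQ h u m ν (SD h G) (fun α => c α * sy α) := by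
  have a1 := MC2.hd1 H.mc
  have aI := MC2.hdI H.mc
  have p1 := step hh hu H Rt_one a1 (MC2.hd1 a1)
  have pI := step hh hu H Rt_I aI (MC2.hdI aI)
  obtain ⟨C, hC⟩ := H.cb
  refine ⟨?_, H.cc.mul sy_cont, ⟨C, fun α => ?_⟩, fun φ hφ w hw => ?_⟩
  · exact fun k => MK2.sub isOpen_univ hh (a1 k) (MK2.cmul isOpen_univ hh (aI k) I)
  · rw [norm_mul, sy_norm, mul_one]
    exact hC α
  · have cu : ∀ n, Continuous (u n) := fun n => continuousOn_univ.1 (hu.co n)
    have c1 : ∀ n, Continuous (hd h 1 G n) := fun n => continuousOn_univ.1 ((a1 0).co n)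
    have cI : ∀ n, Continuous (hd h I G n) := fun n => continuousOn_univ.1 ((aI 0).co n)
    have e1 : ∀ n, PR φ h u (SD h G) n w =
        PR φ h u (hd h 1 G) n w - I * PR φ h u (hd h I G) n w := fun n =>
      PR_sub hφ n (cu n) (c1 n) (cI n) w
    have l1 := (p1.lim φ hφ w hw).sub ((pI.lim φ hφ w hw).const_mul I)
    have i : ∀ {g : ℝ → ℂ}, Continuous g → (∃ D, ∀ α, ‖g α‖ ≤ D) →
        Integrable (fun α => g α * pw w α) ν := by
      intro g hg ⟨D, hD⟩
      refine Integrable.mono' (integrable_const D) (hg.mul (pw_cont w)).aestronglyMeasurable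
        (Eventually.of_forall fun α => ?_)
      rw [norm_mul, pw_norm, mul_one]
      exact hD α
    have e2 : (((∫ z, φ z : ℝ) : ℂ) * ((m : ℂ) * ∫ α, c α * (rr 1 α * I) * pw w α ∂ν)) -
        I * (((∫ z, φ z : ℝ) : ℂ) * ((m : ℂ) * ∫ α, c α * (rr I α * I) * pw w α ∂ν)) =
        ((∫ z, φ z : ℝ) : ℂ) * ((m : ℂ) * ∫ α, c α * sy α * pw w α ∂ν) := by
      have e3 : ∫ α, c α * sy α * pw w α ∂ν = (∫ α, c α * (rr 1 α * I) * pw w α ∂ν) -
          I * ∫ α, c α * (rr I α * I) * pw w α ∂ν := by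
        rw [← integral_const_mul, ← integral_sub (i p1.cc p1.cb) ((i pI.cc pI.cb).const_mul I)]
        refine integral_congr_ae (Eventually.of_forall fun α => ?_)
        simp only
        rw [← sy_eq]
        ring
      rw [e3]
      ring
    rw [e2] at l1
    exact l1.congr fun n => (e1 n).symm

theorem iterD (hh : Tendsto h atTop (𝓝 0)) (hu : LB Set.univ 2 u)
    (H : PQ h u m ν u (fun _ => 1)) (k : ℕ) : PQ h u m ν ((SD h)^[k] u) (fun α => sy α ^ k) := by
  induction k with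
  | zero => simpa using H
  | succ k ih =>
    rw [Function.iterate_succ_apply']
    have := stepD hh hu ih
    simpa only [pow_succ] using this

end

end Pool.Agent.K3h40.EC
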