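import Pool.Agent.K3h40.EC.M3
import Pool.Agent.K3h40.EC.N2

/-! Weak limits of local measures of quantum ergodic sequences: solutions, second moments, null
quadratic forms (helper40). -/

set_option autoImplicit false
open MeasureTheory Filter Topology Complex
open scoped ContDiff ENNReal

namespace Pool.Agent.K3h40.EC

open Pool.Agent.W745.RW

noncomputable section

variable {Ω : Set ℂ} {χ : ℝ → ℝ} {lam : ℕ → ℝ} {u : ℕ → ℂ → ℝ}

/-- a quantum ergodic sequence -/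
structure Qe (Ω : Set ℂ) (χ : ℝ → ℝ) (lam : ℕ → ℝ) (u : ℕ → ℂ → ℝ) : Prop
    extends Loc Ω χ lam u where
  sys : Sys Ω (hs lam) u

lemma kk_loc (H : Loc Ω χ lam u) {φ : ℂ → ℝ} (hφ : TF Ω φ) (x : ℂ) :
    ∀ᶠ n in atTop, ∀ z₀ ∈ tsupport φ, (loc Ω χ (lam n) (u n) z₀ x =
        u n (z₀ + (hs lam n : ℂ) * x)) ∧
      ∀ g : ℂ → ℂ, Sp g → KK g (loc Ω χ (lam n) (u n) z₀) x =
        ∫ w, (u n (af (z₀ + (hs lam n : ℂ) * x) (hs lam n) w) : ℂ) * g w := by
  filter_upwards [H.agree hφ.2.1 hφ.2.2 (‖x‖ + 1)] with n hn z₀ hz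
  refine ⟨hn z₀ hz x (by linarith), fun g hg => ?_⟩
  unfold KK
  refine integral_congr_ae (Eventually.of_forall fun w => ?_)
  simp only
  by_cases hw : ‖w‖ ≤ 1
  · rw [hn z₀ hz (x + w) ((norm_add_le _ _).trans (by linarith))]
    simp only [af]
    rw [show z₀ + (hs lam n : ℂ) * (x + w) = z₀ + (hs lam n : ℂ) * x + (hs lam n : ℂ) * w by ring]
  · push Not at hw
    rw [hg w hw, mul_zero, mul_zero]

lemma UB_zero (H : Loc Ω χ lam u) {G : C(ℂ, ℝ) → ℝ}
    (h : ∀ φ, TF Ω φ → ∀ᶠ n in atTop, ∀ z₀ ∈ tsupport φ, G (loc Ω χ (lam n) (u n) z₀) = 0) :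
    UB Ω χ lam u G 0 := by
  intro φ hφ _ _ ε hε
  filter_upwards [h φ hφ] with n hn
  have e : ∫ z₀, φ z₀ * G (loc Ω χ (lam n) (u n) z₀) = 0 := by
    rw [← integral_zero ℂ ℝ (μ := volume)]
    refine integral_congr_ae (Eventually.of_forall fun z => ?_)
    simp only
    by_cases hz : z ∈ tsupport φ
    · rw [hn z hz, mul_zero]
    · rw [image_eq_zero_of_notMem_tsupport hz, zero_mul]
  rw [e, zero_mul, zero_add]
  exact hε.le

/-- the complex version of the mollifier and of its Laplacian -/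
def lps (w : ℂ) : ℂ := ((lap psi w : ℝ) : ℂ)

lemma lps_cont : Continuous lps := Complex.continuous_ofReal.comp lapsi_smooth.continuous
lemma lps_Sp : Sp lps := fun w hw => by simp [lps, lapsi_Sp w hw]

lemma KK_ps0 {f : ℂ → ℝ} (x : ℂ) : KK (ps 0) f x = ((∫ w, f (x + w) * psi w : ℝ) : ℂ) := by
  unfold KK
  rw [← integral_complex_ofReal]
  refine integral_congr_ae (Eventually.of_forall fun w => ?_)
  simp [ps]

lemma KK_lps {f : ℂ → ℝ} (x : ℂ) : KK lps f x = ((∫ w, f (x + w) * lap psi w : ℝ) : ℂ) := by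
  unfold KK
  rw [← integral_complex_ofReal]
  refine integral_congr_ae (Eventually.of_forall fun w => ?_)
  simp [lps]

lemma ub_rep (H : Qe Ω χ lam u) (x : ℂ) :
    UB Ω χ lam u (fun f => ‖KK (ps 0) f x - (f x : ℂ)‖) 0 := by
  refine UB_zero H.toLoc fun φ hφ => ?_
  obtain ⟨φ₂, -, -, -, h2⟩ := TF_shift H.toLoc hφ x
  filter_upwards [kk_loc H.toLoc hφ x, h2] with n hn h3 z₀ hz
  obtain ⟨k1, k2⟩ := hn z₀ hz
  have hS := H.sys.sol n
  have k3 := repR H.op hS.smooth hS.hpos hS.eq (h3.2.2 z₀ hz)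
  have e1 : ∫ w, (u n (af (z₀ + (hs lam n : ℂ) * x) (hs lam n) w) : ℂ) * ps 0 w =
      ((∫ w, u n (af (z₀ + (hs lam n : ℂ) * x) (hs lam n) w) * psi w : ℝ) : ℂ) := by
    rw [← integral_complex_ofReal]
    refine integral_congr_ae (Eventually.of_forall fun w => ?_)
    simp [ps]
  rw [k2 _ (ps_Sp 0), e1, k3, k1, sub_self, norm_zero]

lemma ub_lap (H : Qe Ω χ lam u) (x : ℂ) :
    UB Ω χ lam u (fun f => ‖KK lps f x + (f x : ℂ)‖) 0 := by
  refine UB_zero H.toLoc fun φ hφ => ?_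
  obtain ⟨φ₂, -, -, -, h2⟩ := TF_shift H.toLoc hφ x
  filter_upwards [kk_loc H.toLoc hφ x, h2] with n hn h3 z₀ hz
  obtain ⟨k1, k2⟩ := hn z₀ hz
  have hS := H.sys.sol n
  have k3 := repL H.op hS.smooth hS.hpos hS.eq (h3.2.2 z₀ hz)
  have e1 : ∫ w, (u n (af (z₀ + (hs lam n : ℂ) * x) (hs lam n) w) : ℂ) * lps w =
      ((∫ w, u n (af (z₀ + (hs lam n : ℂ) * x) (hs lam n) w) * lap psi w : ℝ) : ℂ) := by
    rw [← integral_complex_ofReal]
    refine integral_congr_ae (Eventually.of_forall fun w => ?_)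
    simp [lps]
  rw [k2 _ lps_Sp, e1, k3, k1]
  push_cast
  rw [neg_add_cancel, norm_zero]

lemma qe_sq (H : Qe Ω χ lam u) {φ : ℂ → ℝ} (hφ : TF Ω φ) :
    Tendsto (fun n => ∫ z, φ z * u n z ^ 2) atTop (𝓝 (∫ z, φ z)) := by
  have q := H.sys.qe φ hφ 0
  rw [if_pos rfl] at q
  have q2 := (Complex.continuous_re.tendsto _).comp q
  rw [Complex.ofReal_re] at q2
  refine q2.congr fun n => ?_
  have e : ∫ z, (φ z : ℂ) * ((u n z : ℂ) * W (hs lam n) (u n) (0 : ℕ) z) =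
      ((∫ z, φ z * u n z ^ 2 : ℝ) : ℂ) := by
    rw [← integral_complex_ofReal]
    refine integral_congr_ae (Eventually.of_forall fun z => ?_)
    have : W (hs lam n) (u n) (0 : ℕ) z = (u n z : ℂ) := rfl
    simp only [this]
    push_cast
    ring
  simp only [Function.comp_apply]
  rw [e, Complex.ofReal_re]

lemma tf_le (H : Loc Ω χ lam u) {φ : ℂ → ℝ} (hφ : TF Ω φ) (h1 : ∀ z, φ z ≤ 1) :
    ∫ z, φ z ≤ (volume Ω).toReal := by
  have e1 : ∫ z, φ z = ∫ z in Ω, φ z := (setIntegral_eq_integral_of_forall_compl_eq_zero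
    fun z hz => image_eq_zero_of_notMem_tsupport fun hc => hz (hφ.2.2 hc)).symm
  rw [e1]
  have hf : IsFiniteMeasure (volume.restrict Ω) := ⟨by
    rw [Measure.restrict_apply_univ]
    exact lt_of_le_of_ne le_top H.fin⟩
  have h2 : ∫ z in Ω, φ z ≤ ∫ z in Ω, (1 : ℝ) :=
    integral_mono (hφ.1.continuous.integrable_of_hasCompactSupport hφ.2.1).integrableOn
      (integrable_const _) h1
  simpa [measureReal_def] using h2

lemma ub_sq (H : Qe Ω χ lam u) : UB Ω χ lam u (fun f => f 0 ^ 2) 1 := by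
  intro φ hφ h0 h1 ε hε
  have hl := (qe_sq H hφ).eventually (gt_mem_nhds (lt_add_of_pos_right _ hε))
  filter_upwards [kk_loc H.toLoc hφ 0, hl] with n hn h2
  have e : ∫ z₀, φ z₀ * (loc Ω χ (lam n) (u n) z₀ 0) ^ 2 = ∫ z, φ z * u n z ^ 2 := by
    refine integral_congr_ae (Eventually.of_forall fun z => ?_)
    simp only
    by_cases hz : z ∈ tsupport φ
    · rw [(hn z hz).1]; simp
    · rw [image_eq_zero_of_notMem_tsupport hz, zero_mul, zero_mul]
  rw [e, one_mul]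
  have := tf_le H.toLoc hφ h1
  linarith

/-- the quartic functional -/
def QQ (b : ℕ → ℝ) (M : ℕ) (f : ℂ → ℝ) (x : ℂ) : ℝ :=
  (∑ i ∈ Finset.range M, b i * ‖KK (ps (2 * i)) f x‖ ^ 2) ^ 2

lemma QQ_contf (b : ℕ → ℝ) (M : ℕ) (x : ℂ) : Continuous fun f : C(ℂ, ℝ) => QQ b M f x := by
  unfold QQ
  refine Continuous.pow (continuous_finset_sum _ fun i _ => continuous_const.mul ?_) 2
  exact ((KK_contf (ps_smooth _).continuous (ps_Sp _) x).norm).pow 2

lemma QQ_contx (b : ℕ → ℝ) (M : ℕ) {f : ℂ → ℝ} (hf : Continuous f) : Continuous (QQ b M f) := by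
  unfold QQ
  refine Continuous.pow (continuous_finset_sum _ fun i _ => continuous_const.mul ?_) 2
  exact ((KK_contx (ps_smooth _).continuous (ps_Sp _) hf).norm).pow 2

lemma QQ_nn (b : ℕ → ℝ) (M : ℕ) (f : ℂ → ℝ) (x : ℂ) : 0 ≤ QQ b M f x := sq_nonneg _

/-- the constants of the random wave -/
def E0 (s : ℤ) : ℝ := if s = 0 then 1 else 0

/-- the value for the random wave -/
def Gm (b : ℕ → ℝ) (M : ℕ) : ℝ :=
  ∑ i ∈ Finset.range M, ∑ l ∈ Finset.range M, b i * b l * gg E0 i l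

lemma qe_null (H : Qe Ω χ lam u) (b : ℕ → ℝ) (M : ℕ) (hb : ∑ i ∈ Finset.range M, b i = 0)
    {φ : ℂ → ℝ} (hφ : TF Ω φ) :
    Tendsto (fun n => ∫ z, φ z * (∑ i ∈ Finset.range M, b i *
      ‖W (hs lam n) (u n) (2 * (i : ℤ)) z‖ ^ 2) ^ 2) atTop (𝓝 (Gm b M * ∫ z, φ z)) := by
  have hF := Pool.Agent.Y265.RW.famW H.op H.sys
  have hp := Pool.Agent.Y265.RW.pairW H.op H.sys
  have hu := Pool.Agent.Y265.RW.Unit2.of_pair hF hp
  have hk : kap (fun s => if s = 0 then 1 else 0) = CC := by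
    funext a b
    unfold kap CC
    by_cases h : a + b = 0
    · simp [h]
    · simp [h]
  have key := nullQ (c := fun s => if s = 0 then 1 else 0) (E := E0) H.op
    (fun n => (H.hpos n).ne') hF hu (by rw [hk]; exact hp) (fun s _ => by
      unfold E0
      by_cases hs : s = 0
      · simp [hs]
      · simp [hs]) hφ b M hb
  exact key

lemma ub_QQ (H : Qe Ω χ lam u) (b : ℕ → ℝ) (M : ℕ) (hb : ∑ i ∈ Finset.range M, b i = 0)
    (hG : 0 ≤ Gm b M) (x : ℂ) : UB Ω χ lam u (fun f => QQ b M f x) (Gm b M) := by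
  intro φ hφ h0 h1 ε hε
  obtain ⟨φ₂, h2, h20, h21, h2e⟩ := TF_shift H.toLoc hφ x
  have hl := (qe_null H b M hb h2).eventually (gt_mem_nhds (lt_add_of_pos_right _ hε))
  filter_upwards [kk_loc H.toLoc hφ x, h2e, hl] with n hn h3 h4
  obtain ⟨t1, t2, t3⟩ := h3
  set Qn : ℂ → ℝ := fun z => (∑ i ∈ Finset.range M, b i *
      ‖W (hs lam n) (u n) (2 * (i : ℤ)) z‖ ^ 2) ^ 2 with hQn
  have hF := Pool.Agent.Y265.RW.famW H.op H.sys
  have cQ : ContinuousOn Qn Ω := by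
    refine ContinuousOn.pow (continuousOn_finset_sum _ fun i _ => continuousOn_const.mul ?_) 2
    exact ((hF.smooth n _).continuousOn.norm).pow 2
  have e1 : ∫ z₀, φ z₀ * QQ b M (loc Ω χ (lam n) (u n) z₀) x =
      ∫ z₀, φ z₀ * Qn (z₀ + (hs lam n : ℂ) * x) := by
    refine integral_congr_ae (Eventually.of_forall fun z => ?_)
    simp only
    by_cases hz : z ∈ tsupport φ
    · congr 1
      unfold QQ
      simp only [hQn]
      congr 1
      refine Finset.sum_congr rfl fun i _ => ?_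
      rw [(hn z hz).2 _ (ps_Sp _)]
      have h5 := W_rep H.op (H.sys.sol n) (t3 z hz) (2 * i)
      rw [Even.neg_one_pow (even_two_mul i), one_mul] at h5
      push_cast at h5
      rw [h5]
    · rw [image_eq_zero_of_notMem_tsupport hz, zero_mul, zero_mul]
  have e2 : ∫ z₀, φ z₀ * Qn (z₀ + (hs lam n : ℂ) * x) =
      ∫ z, φ (z - (hs lam n : ℂ) * x) * Qn z := by
    rw [← integral_add_right_eq_self (μ := (volume : Measure ℂ))
      (fun z => φ (z - (hs lam n : ℂ) * x) * Qn z) ((hs lam n : ℂ) * x)]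
    refine integral_congr_ae (Eventually.of_forall fun z => ?_)
    simp only [add_sub_cancel_right]
  have e3 : ∫ z, φ (z - (hs lam n : ℂ) * x) * Qn z ≤ ∫ z, φ₂ z * Qn z := by
    refine integral_mono (Pool.Agent.Y265.RW.int_mulr H.op t1 cQ)
      (Pool.Agent.Y265.RW.int_mulr H.op h2 cQ) fun z => ?_
    refine mul_le_mul_of_nonneg_right ?_ (sq_nonneg _)
    by_cases hz : φ (z - (hs lam n : ℂ) * x) = 0
    · rw [hz]; exact h20 z
    · rw [t2 z hz]; exact h1 _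
  rw [e1, e2]
  have h6 := mul_le_mul_of_nonneg_left (tf_le H.toLoc h2 h21) hG
  linarith

end

end Pool.Agent.K3h40.EC
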