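import Pool.Agent.K3h40.EC.D
import Pool.Agent.K3h40.EC.M4

/-! One solution on the whole plane along dilations, with `L²` bounds only: the limits of null
quadratic forms (helper40). -/

set_option autoImplicit false

open MeasureTheory Filter Topology Complex ProbabilityTheory
open scoped ContDiff ENNReal

namespace Pool.Agent.K3h40.EC

open Pool.Agent.W745.RW Pool.Agent.TH294.RS Pool.Agent.TH294.RG
open Pool.Agent.R989.Der (PR PR_deriv PR_bd lim_deriv Rt Rt_zero Rt_add Rt_smul Rt_one Rt_I rr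
  rr_cont rr_add rr_bd pw pw_cont pw_norm gd PR_sub sy sy_cont sy_norm sy_eq SD)
open Pool.Agent.R989.Det (sm sm_int sm_pw sm_cov sm_par lap_dil du dc)
open Pool.Agent.Results.MP_6b977f_mp.FourPointFunctions (cov gauss parallel)

noncomputable section

/-- a solution `f` on the plane, dilations `t n`, and its two point functions -/
structure Dat2 (f : ℂ → ℝ) (t : ℕ → ℝ) (m : ℝ) (ν : Measure ℝ) : Prop where
  sf : ContDiff ℝ ∞ f
  eq : ∀ z, lap f z + f z = 0
  tp : ∀ n, 0 < t n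
  tl : Tendsto t atTop atTop
  two : ∀ φ, TF Set.univ φ → ∀ w ∈ Rt, Tendsto
    (fun n => ∫ z, φ z * (f ((t n : ℂ) * z) * f ((t n : ℂ) * z + w))) atTop
    (𝓝 ((∫ z, φ z) * (m * cov ν w)))

variable {f : ℂ → ℝ} {t : ℕ → ℝ} {m : ℝ} {ν : Measure ℝ}

lemma Dat2.usm (H : Dat2 f t m ν) (n : ℕ) : ContDiff ℝ ∞ (du f t n) :=
  H.sf.comp (contDiff_const.mul contDiff_id)

lemma Dat2.csm (H : Dat2 f t m ν) (n : ℕ) : ContDiff ℝ ∞ (dc f t n) :=
  ofRealCLM.contDiff.comp (H.usm n)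

lemma Dat2.ueq (H : Dat2 f t m ν) (n : ℕ) (z : ℂ) :
    lap (du f t n) z + (t n) ^ 2 * du f t n z = 0 := by
  have h1 := lap_dil H.sf (t n) z
  have h2 := H.eq ((t n : ℂ) * z)
  have h3 : lap (du f t n) z = (t n) ^ 2 * lap f ((t n : ℂ) * z) := h1
  rw [h3]
  unfold du
  linear_combination (t n) ^ 2 * h2

lemma Dat2.hh (H : Dat2 f t m ν) : Tendsto (fun n => 1 / t n) atTop (𝓝 0) := by
  simp only [one_div]
  exact H.tl.inv_tendsto_atTop

lemma Dat2.hp (H : Dat2 f t m ν) (n : ℕ) : 0 < 1 / t n := div_pos one_pos (H.tp n)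

lemma Dat2.sol (H : Dat2 f t m ν) (n : ℕ) : Sol Set.univ (1 / t n) (du f t n) := by
  refine ⟨H.hp n, (H.usm n).contDiffOn, fun z _ => ?_⟩
  have h1 := H.ueq n z
  have h2 := (H.tp n).ne'
  have h3 : lap (du f t n) z = -((t n) ^ 2 * du f t n z) := by linarith
  rw [h3]
  field_simp
  ring

lemma cov0 (ν : Measure ℝ) [IsProbabilityMeasure ν] : cov ν 0 = 1 := by
  unfold cov
  simp

variable [IsProbabilityMeasure ν]

lemma Dat2.sq (H : Dat2 f t m ν) {φ : ℂ → ℝ} (hφ : TF Set.univ φ) :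
    Tendsto (fun n => ∫ z, φ z * f ((t n : ℂ) * z) ^ 2) atTop (𝓝 ((∫ z, φ z) * m)) := by
  have h := H.two φ hφ 0 Rt_zero
  rw [cov0, mul_one] at h
  refine h.congr fun n => ?_
  refine integral_congr_ae (Eventually.of_forall fun z => ?_)
  simp only [add_zero]
  ring

lemma Dat2.lb (H : Dat2 f t m ν) : LB Set.univ 2 (dc f t) := by
  refine ⟨fun n => (H.csm n).contDiffOn, fun K hK _ => ?_⟩
  obtain ⟨ζ, hζ, hζ0, -, hζ1⟩ := Pool.Agent.Y265.RW.cutoff isOpen_univ hK (Set.subset_univ K)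
  refine ⟨(∫ z, ζ z) * m + 1, ?_⟩
  filter_upwards [(H.sq hζ).eventually (gt_mem_nhds (lt_add_one _))] with n hn
  refine le_trans ?_ hn.le
  have i1 : Integrable fun z => ζ z * f ((t n : ℂ) * z) ^ 2 :=
    Pool.Agent.Y265.RW.int_mulr isOpen_univ hζ ((H.usm n).continuous.pow 2).continuousOn
  calc ∫ z in K, ‖dc f t n z‖ ^ 2 = ∫ z in K, ζ z * f ((t n : ℂ) * z) ^ 2 := by
        refine setIntegral_congr_fun hK.measurableSet fun z hz => ?_
        simp only [hζ1 z hz, one_mul, dc, du, Complex.norm_real, Real.norm_eq_abs, sq_abs]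
    _ ≤ _ := by
        refine setIntegral_le_integral i1 (Eventually.of_forall fun z => ?_)
        have := hζ0 z
        simp only [Pi.zero_apply]
        positivity

lemma Dat2.mc (H : Dat2 f t m ν) : MC2 Set.univ (fun n => 1 / t n) (dc f t) := by
  intro k
  refine MK2.sol isOpen_univ H.hp H.hh H.lb (ρ := fun _ => 1) contDiffOn_const
    (fun n z _ => ?_) k
  have h1 : lap (dc f t n) z = ((lap (du f t n) z : ℝ) : ℂ) :=
    Pool.Agent.TH294.RS.lap_re isOpen_univ (H.usm n).contDiffOn (Set.mem_univ z)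
  have h2 := H.ueq n z
  have h3 : lap (du f t n) z = -((t n) ^ 2 * du f t n z) := by linarith
  have h4 := (H.tp n).ne'
  simp only [hL]
  rw [h1, h3, ← Complex.ofReal_pow, ← Complex.ofReal_mul]
  simp only [dc, one_mul]
  rw [← Complex.ofReal_neg]
  congr 1
  field_simp

lemma Dat2.pq (H : Dat2 f t m ν) :
    PQ (fun n => 1 / t n) (dc f t) m (sm ν) (dc f t) (fun _ => 1) := by
  refine ⟨H.mc, continuous_const, ⟨1, fun α => by simp⟩, fun φ hφ w hw => ?_⟩
  have e1 : ∀ n, PR φ (fun n => 1 / t n) (dc f t) (dc f t) n w =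
      ((∫ z, φ z * (f ((t n : ℂ) * z) * f ((t n : ℂ) * z + w)) : ℝ) : ℂ) := by
    intro n
    unfold PR
    rw [← integral_complex_ofReal]
    refine integral_congr_ae (Eventually.of_forall fun z => ?_)
    simp only [dc, du]
    have h4 : ((t n : ℝ) : ℂ) ≠ 0 := by exact_mod_cast (H.tp n).ne'
    have h5 : ((t n : ℝ) : ℂ) * (z + ((1 / t n : ℝ) : ℂ) * w) = (t n : ℂ) * z + w := by
      push_cast
      field_simp
    rw [h5]
    push_cast
    ring
  have e2 : ((∫ z, φ z : ℝ) : ℂ) * ((m : ℂ) * ∫ α, (1 : ℂ) * pw w α ∂(sm ν)) =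
      (((∫ z, φ z) * (m * cov ν w) : ℝ) : ℂ) := by
    simp only [one_mul]
    rw [sm_pw]
    push_cast
    ring
  rw [e2]
  refine ((Complex.continuous_ofReal.tendsto _).comp (H.two φ hφ w hw)).congr fun n => ?_
  exact (e1 n).symm

lemma SD_W (f : ℂ → ℝ) (t : ℕ → ℝ) (k n : ℕ) :
    (SD (fun n => 1 / t n))^[k] (dc f t) n = W (1 / t n) (du f t n) (k : ℤ) := by
  rw [Pool.Agent.W924.RW.WP.W_nat]
  induction k with
  | zero => rfl
  | succ k ih =>
    rw [Function.iterate_succ_apply', Function.iterate_succ_apply', ← ih]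
    funext z
    simp only [SD, hd, Dp, dx, dy]
    ring

/-- the Fourier coefficients of the symmetrised law of the direction -/
def cc (ν : Measure ℝ) (k : ℤ) : ℂ := ∫ α, sy α ^ k ∂(sm ν)

lemma sy_ne (α : ℝ) : sy α ≠ 0 := fun h => by
  have := sy_norm α
  rw [h, norm_zero] at this
  exact zero_ne_one this

lemma syz_cont (k : ℤ) : Continuous fun α => sy α ^ k :=
  sy_cont.zpow₀ k fun α => Or.inl (sy_ne α)

lemma syz_norm (k : ℤ) (α : ℝ) : ‖sy α ^ k‖ = 1 := by rw [norm_zpow, sy_norm, one_zpow]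

lemma sy_pi (α : ℝ) : sy (α + Real.pi) = - sy α := by
  unfold sy
  have : (-((α + Real.pi : ℝ) : ℂ)) * I = -(α : ℂ) * I + -(Real.pi * I) := by push_cast; ring
  rw [this, Complex.exp_add, Complex.exp_neg, Complex.exp_pi_mul_I]
  norm_num

lemma cc_odd (ν : Measure ℝ) [IsProbabilityMeasure ν] {k : ℤ} (hk : Odd k) : cc ν k = 0 := by
  unfold cc
  rw [sm_int ν (syz_cont k) ⟨1, fun α => (syz_norm k α).le⟩]
  have : ∀ α : ℝ, (sy α ^ k + sy (α + Real.pi) ^ k) / 2 = 0 := by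
    intro α
    rw [sy_pi, hk.neg_zpow, add_neg_cancel, zero_div]
  simp [this]

lemma cc_conj (ν : Measure ℝ) (k : ℤ) : (starRingEnd ℂ) (cc ν k) = cc ν (-k) := by
  unfold cc
  rw [← integral_conj]
  refine integral_congr_ae (Eventually.of_forall fun α => ?_)
  simp only
  rw [map_zpow₀, zpow_neg, ← inv_zpow]
  congr 1
  have h1 : sy α * (starRingEnd ℂ) (sy α) = 1 := by
    rw [Complex.mul_conj, Complex.normSq_eq_norm_sq, sy_norm]; simp
  exact eq_inv_of_mul_eq_one_right h1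

lemma cc_zero (ν : Measure ℝ) [IsProbabilityMeasure ν] : cc ν 0 = 1 := by
  unfold cc; simp

/-- the squared moduli -/
def Ec (ν : Measure ℝ) (s : ℤ) : ℝ := ‖cc ν s‖ ^ 2

lemma Ec_eq (ν : Measure ℝ) (s : ℤ) : cc ν s * cc ν (-s) = (Ec ν s : ℂ) := by
  rw [← cc_conj, Complex.mul_conj, Complex.normSq_eq_norm_sq]
  rfl

/-- the family of derivatives -/
def UU (f : ℂ → ℝ) (t : ℕ → ℝ) : ℕ → ℤ → ℂ → ℂ := fun n a z => W (1 / t n) (du f t n) a z

lemma Dat2.fam (H : Dat2 f t m ν) :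
    Pool.Agent.Y265.RW.Fam Set.univ (fun n => 1 / t n) (UU f t) := by
  have h := fun n => Pool.Agent.W924.RW.WP.main Set.univ isOpen_univ _ _ (H.sol n)
  exact ⟨fun n a => (h n).1 a, fun n a z hz => (h n).2.1 a z hz, fun n a z hz =>
    (h n).2.2.1 a z hz, fun n a z hz => (h n).2.2.2 a z hz⟩

lemma Dat2.z0 (H : Dat2 f t 1 ν) {φ : ℂ → ℝ} (hφ : TF Set.univ φ) (k : ℕ) :
    Tendsto (fun n => ∫ z, (φ z : ℂ) * (UU f t n 0 z * UU f t n (k : ℤ) z)) atTop
      (𝓝 (cc ν k * (∫ z, φ z : ℝ))) := by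
  have h1 := (iterD H.hh H.lb H.pq k).lim φ hφ 0 Rt_zero
  have e1 : ((∫ z, φ z : ℝ) : ℂ) * (((1 : ℝ) : ℂ) * ∫ α, sy α ^ k * pw 0 α ∂(sm ν)) =
      cc ν k * (∫ z, φ z : ℝ) := by
    unfold cc
    rw [Complex.ofReal_one, one_mul, mul_comm]
    congr 1
    refine integral_congr_ae (Eventually.of_forall fun α => ?_)
    simp only [pw, rr, zero_re, zero_im, zero_mul, add_zero, Complex.ofReal_zero,
      Complex.exp_zero, mul_one, zpow_natCast]
  rw [e1] at h1
  refine h1.congr fun n => ?_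
  unfold PR
  refine integral_congr_ae (Eventually.of_forall fun z => ?_)
  simp only [mul_zero, add_zero]
  rw [SD_W]
  rfl

lemma Dat2.pair (H : Dat2 f t 1 ν) :
    Pool.Agent.Y265.RW.Pair Set.univ (UU f t) (UU f t) (kap (cc ν)) := by
  have hF := H.fam
  have b0 : Pool.Agent.Y265.RW.L2b Set.univ (UU f t) 0 := by
    intro K hK hKB
    obtain ⟨C, hC⟩ := H.lb.bd K hK hKB
    exact ⟨C, hC⟩
  have hb := Pool.Agent.Y265.RW.L2b.all isOpen_univ H.hp H.hh hF b0
  refine Pool.Agent.Y265.RW.Pair.of_zero isOpen_univ H.hp H.hh hF hF hb hb (kap_step _) ?_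
  intro φ hφ b
  have e0 : kap (cc ν) 0 b = cc ν b := by unfold kap; simp
  rw [e0]
  rcases Int.eq_nat_or_neg b with ⟨k, rfl | rfl⟩
  · exact H.z0 hφ k
  · have h1 := (Complex.continuous_conj.tendsto _).comp (H.z0 hφ k)
    have h2 := h1.const_mul ((-1 : ℂ) ^ k)
    have e1 : (-1 : ℂ) ^ k * (starRingEnd ℂ) (cc ν k * (∫ z, φ z : ℝ)) =
        cc ν (-(k : ℤ)) * (∫ z, φ z : ℝ) := by
      rw [map_mul, Complex.conj_ofReal, cc_conj]
      rcases Nat.even_or_odd k with hk | hk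
      · rw [hk.neg_one_pow, one_mul]
      · have hk' : Odd (-(k : ℤ)) := by
          have h3 : Odd (k : ℤ) := by exact_mod_cast hk
          exact h3.neg
        rw [cc_odd ν hk']; ring
    rw [e1] at h2
    refine h2.congr fun n => ?_
    simp only [Function.comp_apply]
    rw [← integral_conj, ← integral_const_mul]
    refine integral_congr_ae (Eventually.of_forall fun z => ?_)
    simp only [map_mul, Complex.conj_ofReal]
    have c0 := hF.cj n 0 z (Set.mem_univ z)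
    have c1 := hF.cj n (k : ℤ) z (Set.mem_univ z)
    rw [Int.natAbs_natCast] at c1
    rw [neg_zero, Int.natAbs_zero, pow_zero, one_mul] at c0
    rw [c0, c1]
    have e3 : (-1 : ℂ) ^ k * (-1 : ℂ) ^ k = 1 := by rw [← mul_pow]; simp
    linear_combination (φ z : ℂ) * UU f t n 0 z * UU f t n (-(k : ℤ)) z * e3

lemma unit_of {B : Set ℂ} {h : ℕ → ℝ} {U : ℕ → ℤ → ℂ → ℂ} {c : ℤ → ℂ}
    (hU : Pool.Agent.Y265.RW.Fam B h U) (hp : Pool.Agent.Y265.RW.Pair B U U (kap c))
    (hc : c 0 = 1) : Pool.Agent.Y265.RW.Unit2 B U := by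
  intro φ hφ a
  have h1 := (hp φ hφ a (-a)).const_mul ((-1) ^ a.natAbs)
  have e0 : (-1 : ℂ) ^ a.natAbs * (kap c a (-a) * (∫ z, φ z : ℝ)) = ((∫ z, φ z : ℝ) : ℂ) := by
    unfold kap
    rw [add_neg_cancel, hc, mul_one, ← mul_assoc, ← mul_pow]
    simp
  rw [e0] at h1
  have h2 := (Complex.continuous_re.tendsto _).comp h1
  rw [Complex.ofReal_re] at h2
  refine h2.congr (fun n => ?_)
  have e : (-1) ^ a.natAbs * ∫ z, (φ z : ℂ) * (U n a z * U n (-a) z) =
      ((∫ z, φ z * ‖U n a z‖ ^ 2 : ℝ) : ℂ) := by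
    rw [← integral_const_mul, ← integral_complex_ofReal]
    refine integral_congr_ae (Eventually.of_forall fun z => ?_)
    simp only
    by_cases hz : z ∈ B
    · have := Pool.Agent.Y265.RW.Fam.nsq hU n a hz
      push_cast at this ⊢
      rw [this]; ring
    · rw [Pool.Agent.Y265.RW.TF.zero hφ hz]; simp
  simp only [Function.comp_apply]
  rw [e, Complex.ofReal_re]

/-- the value of the null form -/
def Gn (ν : Measure ℝ) (b : ℕ → ℝ) (M : ℕ) : ℝ :=
  ∑ i ∈ Finset.range M, ∑ l ∈ Finset.range M, b i * b l * gg (Ec ν) i l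

lemma KK_W (H : Dat2 f t m ν) (n k : ℕ) (z : ℂ) :
    UU f t n (k : ℤ) z = (-1) ^ k * KK (ps k) f ((t n : ℂ) * z) := by
  have h1 := W_rep isOpen_univ (H.sol n) (z₀ := z) (fun y _ => Set.mem_univ y) k
  unfold UU
  rw [h1]
  congr 1
  unfold KK
  refine integral_congr_ae (Eventually.of_forall fun w => ?_)
  simp only [du, af]
  have h4 : ((t n : ℝ) : ℂ) ≠ 0 := by exact_mod_cast (H.tp n).ne'
  have h5 : ((t n : ℝ) : ℂ) * (z + ((1 / t n : ℝ) : ℂ) * w) = (t n : ℂ) * z + w := by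
    push_cast
    field_simp
  rw [h5]

lemma Dat2.lim1 (H : Dat2 f t 1 ν) (b : ℕ → ℝ) (M : ℕ) (hb : ∑ i ∈ Finset.range M, b i = 0)
    {φ : ℂ → ℝ} (hφ : TF Set.univ φ) :
    Tendsto (fun n => ∫ z, φ z * QQ b M f ((t n : ℂ) * z)) atTop
      (𝓝 (Gn ν b M * ∫ z, φ z)) := by
  have key := nullQ (E := Ec ν) isOpen_univ (fun n => (H.hp n).ne') H.fam
    (unit_of H.fam H.pair (cc_zero ν)) H.pair (fun s _ => Ec_eq ν s) hφ b M hb
  refine key.congr fun n => ?_
  refine integral_congr_ae (Eventually.of_forall fun z => ?_)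
  simp only
  unfold QQ vv
  congr 2
  refine Finset.sum_congr rfl fun i _ => ?_
  have h := KK_W H n (2 * i) z
  push_cast at h
  rw [h, norm_mul, norm_pow, norm_neg, norm_one, one_pow, one_mul]

lemma KK_smul (g : ℂ → ℂ) (c : ℝ) (f : ℂ → ℝ) (x : ℂ) :
    KK g (fun z => c * f z) x = (c : ℂ) * KK g f x := by
  unfold KK
  rw [← integral_const_mul]
  refine integral_congr_ae (Eventually.of_forall fun w => ?_)
  simp only
  push_cast
  ring

lemma QQ_smul (b : ℕ → ℝ) (M : ℕ) (c : ℝ) (f : ℂ → ℝ) (x : ℂ) :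
    QQ b M (fun z => c * f z) x = c ^ 4 * QQ b M f x := by
  unfold QQ
  simp only [KK_smul, norm_mul, Complex.norm_real, Real.norm_eq_abs]
  have : ∀ i, b i * (|c| * ‖KK (ps (2 * i)) f x‖) ^ 2 =
      c ^ 2 * (b i * ‖KK (ps (2 * i)) f x‖ ^ 2) := fun i => by
    rw [mul_pow, sq_abs]; ring
  simp only [this]
  rw [← Finset.mul_sum]
  ring

lemma Dat2.norm (H : Dat2 f t m ν) (hm : 0 < m) : Dat2 (fun z => (1 / √m) * f z) t 1 ν := by
  have hs : 0 < √m := Real.sqrt_pos.2 hm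
  have hl : ∀ (g : ℂ → ℝ) (c : ℝ), ContDiff ℝ ∞ g → ∀ z, lap (fun z => c * g z) z =
      c * lap g z := by
    intro g c hg z
    have hd : ∀ (g : ℂ → ℝ), ContDiff ℝ ∞ g → ∀ v z, fderiv ℝ (fun z => c * g z) z v =
        c * fderiv ℝ g z v := by
      intro g hg v z
      rw [fderiv_const_mul ((hg.differentiable (by simp)) z)]
      rfl
    have hs : ∀ v, ContDiff ℝ ∞ fun z => fderiv ℝ g z v := fun v =>
      (hg.fderiv_right (by simp)).clm_apply contDiff_const
    have h2 : ∀ v, fderiv ℝ (fun z => fderiv ℝ (fun z => c * g z) z v) z v =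
        c * fderiv ℝ (fun z => fderiv ℝ g z v) z v := by
      intro v
      have : (fun z => fderiv ℝ (fun z => c * g z) z v) = fun z => c * fderiv ℝ g z v :=
        funext fun z => hd g hg v z
      rw [this, hd _ (hs v)]
    show fderiv ℝ (fun z => fderiv ℝ (fun z => c * g z) z 1) z 1 +
      fderiv ℝ (fun z => fderiv ℝ (fun z => c * g z) z I) z I = _
    rw [h2, h2]
    unfold lap dx dy
    ring
  refine ⟨contDiff_const.mul H.sf, fun z => ?_, H.tp, H.tl, fun φ hφ w hw => ?_⟩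
  · rw [hl f _ H.sf, ← mul_add, H.eq z, mul_zero]
  · have h1 := (H.two φ hφ w hw).const_mul (1 / m)
    have e1 : 1 / m * ((∫ z, φ z) * (m * cov ν w)) = (∫ z, φ z) * (1 * cov ν w) := by
      field_simp
    rw [e1] at h1
    refine h1.congr fun n => ?_
    rw [← integral_const_mul]
    refine integral_congr_ae (Eventually.of_forall fun z => ?_)
    simp only
    have e2 : (1 / √m) * (1 / √m) = 1 / m := by
      rw [div_mul_div_comm, Real.mul_self_sqrt hm.le, one_mul]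
    linear_combination (-(φ z * (f ((t n : ℂ) * z) * f ((t n : ℂ) * z + w)))) * e2

lemma Dat2.mnn (H : Dat2 f t m ν) : 0 ≤ m := by
  obtain ⟨ζ, hζ, hζ0, -, hζ1⟩ := Pool.Agent.Y265.RW.cutoff isOpen_univ
    (isCompact_closedBall (0 : ℂ) 1) (Set.subset_univ _)
  have hi : Integrable ζ := hζ.1.continuous.integrable_of_hasCompactSupport hζ.2.1
  have hpos : 0 < ∫ z, ζ z := by
    rw [integral_pos_iff_support_of_nonneg hζ0 hi]
    refine lt_of_lt_of_le (Metric.measure_ball_pos volume (0 : ℂ) one_pos) (measure_mono ?_)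
    intro z hz
    rw [Function.mem_support, hζ1 z (Metric.ball_subset_closedBall hz)]
    exact one_ne_zero
  have h1 := ge_of_tendsto' (H.sq hζ) (b := 0) fun n => integral_nonneg fun z =>
    mul_nonneg (hζ0 z) (sq_nonneg _)
  exact nonneg_of_mul_nonneg_right h1 hpos

/-- **Null forms of one solution along dilations.** -/
theorem Dat2.lim (H : Dat2 f t m ν) (hm : 0 < m) (b : ℕ → ℝ) (M : ℕ)
    (hb : ∑ i ∈ Finset.range M, b i = 0) {φ : ℂ → ℝ} (hφ : TF Set.univ φ) :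
    Tendsto (fun n => ∫ z, φ z * QQ b M f ((t n : ℂ) * z)) atTop
      (𝓝 (m ^ 2 * Gn ν b M * ∫ z, φ z)) := by
  have h1 := ((H.norm hm).lim1 b M hb hφ).const_mul (m ^ 2)
  rw [← mul_assoc] at h1
  refine h1.congr fun n => ?_
  rw [← integral_const_mul]
  refine integral_congr_ae (Eventually.of_forall fun z => ?_)
  simp only
  rw [QQ_smul]
  have e2 : (1 / √m) ^ 4 = 1 / m ^ 2 := by
    have : (√m) ^ 4 = m ^ 2 := by
      rw [show (√m) ^ 4 = ((√m) ^ 2) ^ 2 by ring, Real.sq_sqrt hm.le]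
    rw [div_pow, one_pow, this]
  rw [e2]
  field_simp

end

end Pool.Agent.K3h40.EC
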