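import Pool.Agent.K3h40.EC.Z2
import Pool.Agent.Y265.RW.Fn1

/-! Local limits of quantum ergodic eigenfunctions in the plane: definitions (helper40). -/

set_option autoImplicit false
open MeasureTheory Filter Topology Complex ProbabilityTheory
open scoped ContDiff ENNReal

namespace Pool.Agent.K3h40.EC.Loc

open Pool.Agent.W745.RW (lap dx dy TF Dp)

noncomputable section

/-! ### local measures -/

/-- the function `u` around `z₀` at the scale of the wavelength, cut off near the boundary of `Ω`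
(for `z₀` in the open set `Ω`, `infDist z₀ Ωᶜ` is the distance to the boundary):
`u(z₀ + z/√lam) χ(|z| / (√lam dist(z₀, ∂Ω)))` -/
def cutWave (Ω : Set ℂ) (χ : ℝ → ℝ) (lam : ℝ) (u : ℂ → ℝ) (z₀ z : ℂ) : ℝ :=
  u (z₀ + ((1 / √lam : ℝ) : ℂ) * z) * χ (‖z‖ / (√lam * Metric.infDist z₀ Ωᶜ))

open Classical in
/-- the same function as an element of the space of continuous functions (it is continuous for all
`z₀ ∈ Ω` in the situation of the theorems) -/
def localWave (Ω : Set ℂ) (χ : ℝ → ℝ) (lam : ℝ) (u : ℂ → ℝ) (z₀ : ℂ) : C(ℂ, ℝ) :=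
  if h : Continuous (cutWave Ω χ lam u z₀) then ⟨cutWave Ω χ lam u z₀, h⟩ else 0

/-- `μ` is the weak limit, along some subsequence, of the local measures
`|Ω|⁻¹ ∫_Ω δ_(localWave z₀) dz₀` of the functions `u n` -/
def IsLocalLimit [MeasurableSpace C(ℂ, ℝ)] (Ω : Set ℂ) (χ : ℝ → ℝ) (lam : ℕ → ℝ)
    (u : ℕ → ℂ → ℝ) (μ : Measure C(ℂ, ℝ)) : Prop :=
  ∃ σ : ℕ → ℕ, StrictMono σ ∧ ∀ G : C(ℂ, ℝ) → ℝ, Continuous G → (∃ C, ∀ f, |G f| ≤ C) →
    Tendsto (fun j => (∫ z₀ in Ω, G (localWave Ω χ (lam (σ j)) (u (σ j)) z₀)) /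
      (volume Ω).toReal) atTop (𝓝 (∫ f, G f ∂μ))

/-- the cut off: continuous, `1` near `0`, and `0` on `[1, ∞)` -/
structure IsCutoff (χ : ℝ → ℝ) : Prop where
  cont : Continuous χ
  one : ∃ δ : ℝ, 0 < δ ∧ ∀ r, 0 ≤ r → r ≤ δ → χ r = 1
  zero : ∀ r, 1 ≤ r → χ r = 0

/-- `u n` are real solutions of `Δu + λ_n u = 0` on the open set `Ω` of finite area, each of them
bounded, `λ_n → ∞`, and quantum ergodic on `Ω`: the products of `u n` with its derivatives
`(λ_n^{-1/2} (∂x - i ∂y))^k u_n` converge weakly to `1` for `k = 0` and to `0` for `k ≥ 1`, against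
smooth functions with compact support in `Ω` -/
structure IsQuantumErgodic (Ω : Set ℂ) (lam : ℕ → ℝ) (u : ℕ → ℂ → ℝ) : Prop where
  isOpen : IsOpen Ω
  nonempty : Ω.Nonempty
  area : volume Ω ≠ ⊤
  pos : ∀ n, 0 < lam n
  lim : Tendsto lam atTop atTop
  smooth : ∀ n, ContDiffOn ℝ ∞ (u n) Ω
  bounded : ∀ n, ∃ C : ℝ, ∀ z ∈ Ω, |u n z| ≤ C
  eigen : ∀ n, ∀ z ∈ Ω, lap (u n) z + lam n * u n z = 0
  ergodic : ∀ φ, TF Ω φ → ∀ k : ℕ, Tendsto (fun n => ∫ z, (φ z : ℂ) *
    ((u n z : ℂ) * (Dp (1 / √(lam n)))^[k] (fun w => (u n w : ℂ)) z)) atTop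
    (𝓝 (if k = 0 then ((∫ z, φ z : ℝ) : ℂ) else 0))

/-! ### invariant events and spectral measures -/

/-- for a law `L` of random functions on the plane: the measurable sets `A` of functions which,
for every translation, agree with their translate up to an `L`-null set -/
@[reducible] def invariantSets (L : Measure (ℂ → ℝ)) : MeasurableSpace (ℂ → ℝ) where
  MeasurableSet' A := MeasurableSet A ∧ ∀ x : ℂ, (fun f y => f (y + x)) ⁻¹' A =ᵐ[L] A
  measurableSet_empty := (Pool.Agent.R989.Erg.inv L).measurableSet_empty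
  measurableSet_compl := (Pool.Agent.R989.Erg.inv L).measurableSet_compl
  measurableSet_iUnion := (Pool.Agent.R989.Erg.inv L).measurableSet_iUnion

/-- the σ-algebra of the translation invariant events, for a law `μ` of random continuous
functions: conditional expectations given this σ-algebra are expectations over the ergodic
component -/
@[reducible] def invariant [MeasurableSpace C(ℂ, ℝ)] (μ : Measure C(ℂ, ℝ)) :
    MeasurableSpace C(ℂ, ℝ) :=
  (invariantSets (μ.map fun (f : C(ℂ, ℝ)) (y : ℂ) => f y)).comap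
    fun (f : C(ℂ, ℝ)) (y : ℂ) => f y

/-- the covariance function of the wave with directions of law `ν`:
`cov ν w = ∫ cos (w · (cos α, sin α)) dν(α)` -/
def cov (ν : Measure ℝ) (w : ℂ) : ℝ :=
  ∫ α, Real.cos (w.re * Real.cos α + w.im * Real.sin α) ∂ν

/-- `m ν` is the random spectral measure of `μ`:
`E[f(0) f(w) | invariant events] = m(f) · cov (ν f) w` for all `w` -/
def IsSpectral [MeasurableSpace C(ℂ, ℝ)] (μ : Measure C(ℂ, ℝ)) (m : C(ℂ, ℝ) → ℝ)
    (ν : Kernel C(ℂ, ℝ) ℝ) : Prop :=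
  ∀ w : ℂ, μ[fun f => f 0 * f w | invariant μ] =ᵐ[μ] fun f => m f * cov (ν f) w

/-- the probability that two independent directions of law `ν` are parallel (equal or opposite) -/
def parallel (ν : Measure ℝ) : ℝ := (ν.prod ν).real {p | Real.sin (p.1 - p.2) = 0}

/-- the uniform law of the angle of the direction, on `(0, 2π]` -/
def uniform : Measure ℝ :=
  ENNReal.ofReal (1 / (2 * Real.pi)) • volume.restrict (Set.Ioc 0 (2 * Real.pi))

/-- the Bessel function `J₀(r) = (2π)⁻¹ ∫₀^{2π} cos(r cos α) dα` -/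
def J₀ (r : ℝ) : ℝ :=
  (1 / (2 * Real.pi)) * ∫ α in (0 : ℝ)..(2 * Real.pi), Real.cos (r * Real.cos α)

/-! ### first consequences -/

variable {Ω : Set ℂ} {χ : ℝ → ℝ} {lam : ℕ → ℝ} {u : ℕ → ℂ → ℝ}

theorem qe (hχ : IsCutoff χ) (h : IsQuantumErgodic Ω lam u) {σ : ℕ → ℕ} (hσ : StrictMono σ) :
    Qe Ω χ (fun n => lam (σ n)) (fun n => u (σ n)) := by
  have hpos' : ∀ n, 0 < lam (σ n) := fun n => h.pos _
  have hlam' : Tendsto (fun n => lam (σ n)) atTop atTop := h.lim.comp hσ.tendsto_atTop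
  have hS : Pool.Agent.W745.RW.Sys Ω (hs fun n => lam (σ n)) (fun n => u (σ n)) :=
    Pool.Agent.Y265.RW.raw_sys Ω (fun n => lam (σ n)) (fun n => u (σ n)) hpos' hlam'
      (fun n => h.smooth _) (fun n => h.eigen _)
      fun φ hφ k => (h.ergodic φ hφ k).comp hσ.tendsto_atTop
  exact { op := h.isOpen, ne := h.nonempty, fin := h.area, cu := ⟨hχ.cont, hχ.one, hχ.zero⟩,
          pos := hpos', lim := hlam', sm := fun n => h.smooth _, bd := fun n => h.bounded _,
          sys := hS }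

variable [MeasurableSpace C(ℂ, ℝ)] [BorelSpace C(ℂ, ℝ)]

theorem inv_le' (μ : Measure C(ℂ, ℝ)) [IsProbabilityMeasure μ] :
    invariant μ ≤ ‹MeasurableSpace C(ℂ, ℝ)› :=
  comap_le

end

end Pool.Agent.K3h40.EC.Loc
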