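import Pool.Agent.K3h40.EC.D2
import Pool.Agent.R989.Wvm

/-! Stationary solutions with finite second moment: averages of null forms over the ergodic
components (helper40). -/

set_option autoImplicit false

open MeasureTheory Filter Topology Complex ProbabilityTheory
open scoped ENNReal

namespace Pool.Agent.K3h40.EC

open Pool.Agent.W745.RW Pool.Agent.R989.Erg
open Pool.Agent.R989.Asm (pt XW AXW XW_meas AXW_meas ind ind_meas ind_int V_ind lim_of_tendsto
  two_ext)
open Pool.Agent.Results.MP_6b977f_mp.FourPointFunctions (cov gauss parallel)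

section
variable {S : Type*} [MeasurableSpace S] {P : Measure S} [IsProbabilityMeasure P]
  {F : S → ℂ → ℝ}

/-- stationary waves with finite second moment -/
structure Wv2 (P : Measure S) (F : S → ℂ → ℝ) : Prop where
  meas : ∀ y, Measurable fun s => F s y
  smooth : ∀ s, ContDiff ℝ ((⊤ : ℕ∞) : WithTop ℕ∞) (F s)
  eigen : ∀ s y, lap (F s) y + F s y = 0
  stat : ∀ x : ℂ, P.map (fun s y => F s (y + x)) = P.map F
  mom : Integrable (fun s => F s 0 ^ 2) P

omit [IsProbabilityMeasure P] in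
theorem Wv2.joint (H : Wv2 P F) : Measurable fun p : S × ℂ => F p.1 p.2 := by
  have h1 := measurable_uncurry_of_continuous_of_measurable (u := fun (y : ℂ) (s : S) => F s y)
    (fun s => (H.smooth s).continuous) H.meas
  exact h1.comp measurable_swap

omit [IsProbabilityMeasure P] in
theorem Wv2.fld (H : Wv2 P F) : Fld P (P.map F) F := ⟨H.joint, rfl⟩

theorem Wv2.mps (H : Wv2 P F) (a : ℂ) : MeasurePreserving (sh a) (P.map F) (P.map F) :=
  Pool.Agent.R989.Erg.mps H.joint (fun b => H.stat b) a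

theorem Wv2.pow2 (H : Wv2 P F) (a : ℂ) : Integrable (fun p : ℂ → ℝ => p a ^ 2) (P.map F) := by
  have hFm : Measurable F := F_meas H.joint
  have hm : Measurable fun p : ℂ → ℝ => p 0 ^ 2 := (measurable_pi_apply 0).pow_const 2
  have h0 : Integrable (fun p : ℂ → ℝ => p 0 ^ 2) (P.map F) :=
    (integrable_map_measure hm.aestronglyMeasurable hFm.aemeasurable).2 H.mom
  have h1 := (H.mps a).integrable_comp_of_integrable h0
  refine h1.congr (Eventually.of_forall fun p => ?_)
  simp only [Function.comp_apply, sh, zero_add]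

theorem Wv2.xw (H : Wv2 P F) (w : ℂ) : Integrable (XW w) (P.map F) := by
  refine Integrable.mono' ((H.pow2 0).add (H.pow2 w)) (XW_meas w).aestronglyMeasurable
    (Eventually.of_forall fun p => ?_)
  simp only [Pi.add_apply, XW]
  rw [Real.norm_eq_abs, abs_mul]
  rw [← sq_abs (p 0), ← sq_abs (p w)]
  nlinarith [sq_nonneg (|p 0| - |p w|), sq_nonneg (|p 0|), sq_nonneg (|p w|)]

/-- the index type of all the averages -/
abbrev Ix2 := ((ℕ × ℕ) × (ℚ × ℚ)) ⊕ (ℕ × (ℚ × ℚ))

/-- weights -/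
noncomputable def wt2 (T : ℕ × ℕ → ℂ → ℝ) : Ix2 → ℂ → ℝ
  | Sum.inl p => T p.1
  | Sum.inr p => ind p.1

/-- functionals -/
noncomputable def fn2 : Ix2 → (ℂ → ℝ) → ℝ
  | Sum.inl p => XW (pt p.2)
  | Sum.inr p => AXW (pt p.2)

/-- almost every sample, along a common sequence of dilations -/
theorem dat (H : Wv2 P F) (m : S → ℝ) (ν : Kernel S ℝ)
    (hcov : ∀ w : ℂ, P[fun s => F s 0 * F s w | (inv (P.map F)).comap F] =ᵐ[P]
      fun s => m s * cov (ν s) w) :
    ∃ t : ℕ → ℝ, (∀ n, 0 < t n) ∧ ∀ᵐ s ∂P, Dat2 (F s) t (m s) (ν s) := by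
  have hlp : IsProbabilityMeasure (P.map F) := law_prob H.joint
  have hFm : Measurable F := F_meas H.joint
  obtain ⟨T, hT, hdense⟩ := dense_TF
  have hTm : ∀ i, Measurable (T i) := fun i => (hT i).1.continuous.measurable
  have hTi : ∀ i, Integrable (T i) := fun i =>
    (hT i).1.continuous.integrable_of_hasCompactSupport (hT i).2.1
  have wm : ∀ i, Measurable (wt2 T i) := by
    rintro (p | p)
    · exact hTm p.1
    · exact ind_meas p.1
  have wi : ∀ i, Integrable (wt2 T i) := by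
    rintro (p | p)
    · exact hTi p.1
    · exact ind_int p.1
  have fm : ∀ i, Measurable (fn2 i) := by
    rintro (p | p)
    · exact XW_meas _
    · exact AXW_meas _
  have fi : ∀ i, Integrable (fn2 i) (P.map F) := by
    rintro (p | p)
    · exact H.xw _
    · exact (H.xw _).abs
  obtain ⟨t, ht1, ht2, hsub⟩ := subseq (P := P) H.mps (wt2 T) wm wi fn2 fm fi H.fld
  refine ⟨t, fun n => lt_of_lt_of_le one_pos (ht1 n), ?_⟩
  have hc1 : ∀ a : ℚ × ℚ, ∀ᵐ s ∂P, ((P.map F)[XW (pt a) | inv (P.map F)]) (F s) =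
      m s * cov (ν s) (pt a) := by
    intro a
    have h1 := ce_transfer (P := P) hFm (XW (pt a)) (H.xw _) (XW_meas _)
    exact h1.symm.trans (hcov (pt a))
  filter_upwards [hsub, ae_all_iff.2 hc1] with s h1 h3
  have hfc : Continuous (F s) := (H.smooth s).continuous
  have c2 : ∀ a : ℚ × ℚ, ∀ N : ℕ, ∃ C : ℝ, ∀ᶠ n in atTop,
      ∫ z in Metric.closedBall (0 : ℂ) N,
        |F s ((t n : ℂ) * z) * F s ((t n : ℂ) * z + pt a)| ≤ C := by
    intro a N
    have h6 := lim_of_tendsto (h1 (Sum.inr (N, a)))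
    refine ⟨_, h6.mono fun n hn => le_trans (le_of_eq ?_) hn⟩
    show _ = V F (ind N) (t n) (AXW (pt a)) s
    rw [V_ind]
    refine setIntegral_congr_fun measurableSet_closedBall fun z _ => ?_
    simp only [AXW, sh, add_comm, add_zero]
  refine ⟨H.smooth s, H.eigen s, fun n => lt_of_lt_of_le one_pos (ht1 n), ht2, ?_⟩
  intro φ hφ w' hw'
  obtain ⟨p, q, rfl⟩ := hw'
  refine two_ext hfc hT hdense _ _ (fun i => ?_) (c2 (p, q)) φ hφ
  have h6 := h1 (Sum.inl (i, (p, q)))
  have h7 : wt2 T (Sum.inl (i, (p, q))) = T i := rfl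
  have h8 : fn2 (Sum.inl (i, (p, q))) = XW (pt (p, q)) := rfl
  rw [h7, h8, h3 (p, q)] at h6
  refine h6.congr fun n => ?_
  unfold V
  refine integral_congr_ae (Eventually.of_forall fun z => ?_)
  simp only [XW, sh, pt, add_comm, add_zero]

omit [IsProbabilityMeasure P] in
theorem KK_jm (H : Wv2 P F) {g : ℂ → ℂ} (hg : Continuous g) :
    Measurable fun p : S × ℂ => KK g (F p.1) p.2 := by
  unfold KK
  have h1 : Measurable fun q : (S × ℂ) × ℂ => (F q.1.1 (q.1.2 + q.2) : ℂ) * g q.2 := by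
    refine Measurable.mul ?_ (hg.measurable.comp measurable_snd)
    refine Complex.measurable_ofReal.comp ?_
    have h2 : Measurable fun q : (S × ℂ) × ℂ => (q.1.1, q.1.2 + q.2) := by fun_prop
    exact H.joint.comp h2
  exact (h1.stronglyMeasurable.integral_prod_right').measurable

omit [IsProbabilityMeasure P] in
theorem QQ_jm (H : Wv2 P F) (b : ℕ → ℝ) (M : ℕ) :
    Measurable fun p : S × ℂ => QQ b M (F p.1) p.2 := by
  unfold QQ
  refine Measurable.pow_const (Finset.measurable_sum _ fun i _ => ?_) 2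
  exact (((KK_jm H (ps_smooth (2 * i)).continuous).norm).pow_const 2).const_mul _

attribute [local irreducible] QQ

omit [IsProbabilityMeasure P] in
theorem QQ_cm (H : Wv2 P F) (b : ℕ → ℝ) (M : ℕ) {y : S × ℂ → ℂ}
    (hy : Measurable fun p : S × ℂ => (p.1, y p)) :
    Measurable fun p : S × ℂ => QQ b M (F p.1) (y p) := by
  have h := (QQ_jm H b M).comp hy
  exact h

/-- **Averages of null forms over the ergodic components.** -/
theorem key (H : Wv2 P F) (m : S → ℝ) (ν : Kernel S ℝ) [IsMarkovKernel ν]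
    (hcov : ∀ w : ℂ, P[fun s => F s 0 * F s w | (inv (P.map F)).comap F] =ᵐ[P]
      fun s => m s * cov (ν s) w) (b : ℕ → ℝ) (M : ℕ) (hb : ∑ i ∈ Finset.range M, b i = 0)
    (c : ℝ) (hQ : ∀ x : ℂ, ∫⁻ s, ENNReal.ofReal (QQ b M (F s) x) ∂P ≤ ENNReal.ofReal c) :
    ∫⁻ s, ENNReal.ofReal (m s ^ 2 * Gn (ν s) b M) ∂P ≤ ENNReal.ofReal c := by
  obtain ⟨t, htp, hdat⟩ := dat H m ν hcov
  obtain ⟨φ, hφ, hφ0, -, hφ1⟩ := Pool.Agent.Y265.RW.cutoff isOpen_univ
    (isCompact_closedBall (0 : ℂ) 1) (Set.subset_univ _)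
  have hi : Integrable φ := hφ.1.continuous.integrable_of_hasCompactSupport hφ.2.1
  have hpos : 0 < ∫ z, φ z := by
    rw [integral_pos_iff_support_of_nonneg hφ0 hi]
    refine lt_of_lt_of_le (Metric.measure_ball_pos volume (0 : ℂ) one_pos) (measure_mono ?_)
    intro z hz
    rw [Function.mem_support, hφ1 z (Metric.ball_subset_closedBall hz)]
    exact one_ne_zero
  have hφm : Measurable φ := hφ.1.continuous.measurable
  -- the averages
  set A : ℕ → S → ℝ≥0∞ := fun n s => ENNReal.ofReal (∫ z, φ z * QQ b M (F s) ((t n : ℂ) * z))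
    with hA
  have hjm : ∀ n, Measurable fun p : S × ℂ => φ p.2 * QQ b M (F p.1) ((t n : ℂ) * p.2) := by
    intro n
    have h2 : Measurable fun p : S × ℂ => (p.1, (t n : ℂ) * p.2) := by fun_prop
    have h3 : Measurable fun p : S × ℂ => φ p.2 := hφm.comp measurable_snd
    exact h3.mul (QQ_cm H b M h2)
  have hAm : ∀ n, Measurable (A n) := fun n =>
    ENNReal.measurable_ofReal.comp ((hjm n).stronglyMeasurable.integral_prod_right').measurable
  have hAe : ∀ n s, A n s = ∫⁻ z, ENNReal.ofReal (φ z * QQ b M (F s) ((t n : ℂ) * z)) := by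
    intro n s
    refine ofReal_integral_eq_lintegral_ofReal ?_ (Eventually.of_forall fun z =>
      mul_nonneg (hφ0 z) (QQ_nn b M _ _))
    refine Continuous.integrable_of_hasCompactSupport ?_ hφ.2.1.mul_right
    exact hφ.1.continuous.mul ((QQ_contx b M (H.smooth s).continuous).comp (by fun_prop))
  have hAb : ∀ n, ∫⁻ s, A n s ∂P ≤ ENNReal.ofReal c * ENNReal.ofReal (∫ z, φ z) := by
    intro n
    simp only [hAe]
    rw [lintegral_lintegral_swap]
    · have h3 : ∀ z, ∫⁻ s, ENNReal.ofReal (φ z * QQ b M (F s) ((t n : ℂ) * z)) ∂P ≤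
          ENNReal.ofReal c * ENNReal.ofReal (φ z) := by
        intro z
        simp only [ENNReal.ofReal_mul (hφ0 z)]
        rw [lintegral_const_mul' _ _ ENNReal.ofReal_ne_top, mul_comm]
        exact mul_le_mul_left (hQ _) _
      refine (lintegral_mono h3).trans ?_
      rw [lintegral_const_mul' _ _ ENNReal.ofReal_ne_top,
        ofReal_integral_eq_lintegral_ofReal hi (Eventually.of_forall hφ0)]
    · exact (ENNReal.measurable_ofReal.comp (hjm n)).aemeasurable
  have hle : ∀ᵐ s ∂P, ENNReal.ofReal (m s ^ 2 * Gn (ν s) b M) * ENNReal.ofReal (∫ z, φ z) ≤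
      liminf (fun n => A n s) atTop := by
    filter_upwards [hdat] with s hs
    rcases hs.mnn.eq_or_lt with h0 | h0
    · rw [← h0]
      simp
    · have h1 := hs.lim h0 b M hb hφ
      have h2 := (ENNReal.continuous_ofReal.tendsto _).comp h1
      have h3 : liminf (fun n => A n s) atTop =
          ENNReal.ofReal (m s ^ 2 * Gn (ν s) b M * ∫ z, φ z) := h2.liminf_eq
      rw [h3, ENNReal.ofReal_mul' hpos.le]
  have h5 : (∫⁻ s, ENNReal.ofReal (m s ^ 2 * Gn (ν s) b M) ∂P) * ENNReal.ofReal (∫ z, φ z) ≤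
      ENNReal.ofReal c * ENNReal.ofReal (∫ z, φ z) := by
    rw [← lintegral_mul_const' _ _ ENNReal.ofReal_ne_top]
    refine (lintegral_mono_ae hle).trans ?_
    refine (lintegral_liminf_le hAm).trans ?_
    exact liminf_le_of_le (f := atTop) (by isBoundedDefault) fun B hB => by
      obtain ⟨n, hn⟩ := hB.exists
      exact hn.trans (hAb n)
  exact (ENNReal.mul_le_mul_iff_left (ENNReal.ofReal_pos.2 hpos).ne' ENNReal.ofReal_ne_top).1 h5

theorem m_nn (H : Wv2 P F) (m : S → ℝ) (ν : Kernel S ℝ) [IsMarkovKernel ν]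
    (hcov : ∀ w : ℂ, P[fun s => F s 0 * F s w | (inv (P.map F)).comap F] =ᵐ[P]
      fun s => m s * cov (ν s) w) : ∀ᵐ s ∂P, 0 ≤ m s := by
  obtain ⟨t, htp, hdat⟩ := dat H m ν hcov
  filter_upwards [hdat] with s hs
  exact hs.mnn

end

end Pool.Agent.K3h40.EC
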