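import Pool.Agent.K3h40.EC.E

/-! Stationary solutions with finite second moment: the pairs of directions of the ergodic
components (helper40). -/

set_option autoImplicit false

open MeasureTheory Filter Topology Complex ProbabilityTheory
open scoped ENNReal

namespace Pool.Agent.K3h40.EC

open Pool.Agent.W745.RW Pool.Agent.R989.Erg
open Pool.Agent.R989.Der (sy)
open Pool.Agent.R989.Det (sm sm_int)
open Pool.Agent.TH294.RG (ea ea_meas ea_norm ea_par qq qq_bd qq_meas cm cm_sq cm_pair cm_meas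
  par PS PS_meas cesre zn)
open Pool.Agent.Results.MP_6b977f_mp.FourPointFunctions (cov gauss parallel)

noncomputable section

lemma cc_even (ν : Measure ℝ) [IsProbabilityMeasure ν] {k : ℕ} (hk : Even k) :
    cc ν (k : ℤ) = cm ea ν k := by
  unfold cc cm
  rw [sm_int ν (syz_cont k) ⟨1, fun α => (syz_norm k α).le⟩]
  refine integral_congr_ae (Eventually.of_forall fun α => ?_)
  simp only
  rw [sy_pi, zpow_natCast, zpow_natCast, hk.neg_pow, add_self_div_two]
  rfl

lemma Ec_abs (ν : Measure ℝ) [IsProbabilityMeasure ν] {s : ℤ} (hs : Even s) :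
    Ec ν s = ‖cm ea ν s.natAbs‖ ^ 2 := by
  unfold Ec
  have h1 : Even s.natAbs := Int.natAbs_even.2 hs
  rcases Int.natAbs_eq s with h | h
  · rw [← cc_even ν h1, ← h]
  · rw [← cc_even ν h1]
    have h2 : (s.natAbs : ℤ) = -s := by omega
    rw [h2, ← cc_conj, RCLike.norm_conj]

lemma gg_int (ν : Measure ℝ) [IsProbabilityMeasure ν] (i l : ℕ) :
    gg (Ec ν) i l = ∫ p, 2 * (qq ea (2 * i) p * qq ea (2 * l) p) ∂(ν.prod ν) := by
  unfold gg
  have h := cm_pair ea_meas ea_norm ν (2 * i) (2 * l)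
  have e1 : Even (2 * (i : ℤ) + 2 * (l : ℤ)) := (even_two_mul _).add (even_two_mul _)
  have e2 : Even (2 * (i : ℤ) - 2 * (l : ℤ)) := (even_two_mul _).sub (even_two_mul _)
  rw [Ec_abs ν e1, Ec_abs ν e2, ← h]
  congr 4

/-- the trigonometric polynomial -/
def TP (b : ℕ → ℝ) (M : ℕ) (p : ℝ × ℝ) : ℝ := ∑ i ∈ Finset.range M, b i * qq ea (2 * i) p

lemma TP_meas (b : ℕ → ℝ) (M : ℕ) : Measurable (TP b M) :=
  Finset.measurable_fun_sum _ fun i _ => (qq_meas ea_meas (2 * i)).const_mul _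

lemma TP_bd (b : ℕ → ℝ) (M : ℕ) (p : ℝ × ℝ) : |TP b M p| ≤ ∑ i ∈ Finset.range M, |b i| := by
  unfold TP
  refine (Finset.abs_sum_le_sum_abs _ _).trans (Finset.sum_le_sum fun i _ => ?_)
  rw [abs_mul]
  exact mul_le_of_le_one_right (abs_nonneg _) (qq_bd ea_norm _ p)

lemma Gn_int (ν : Measure ℝ) [IsProbabilityMeasure ν] (b : ℕ → ℝ) (M : ℕ) :
    Gn ν b M = ∫ p, 2 * TP b M p ^ 2 ∂(ν.prod ν) := by
  have i1 : ∀ i l : ℕ, Integrable (fun p => b i * b l * (2 * (qq ea (2 * i) p *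
      qq ea (2 * l) p))) (ν.prod ν) := by
    intro i l
    refine Integrable.of_bound (C := |b i * b l| * 2) ?_ (ae_of_all _ fun p => ?_)
    · exact ((((qq_meas ea_meas _).mul (qq_meas ea_meas _)).const_mul 2).const_mul
        _).aestronglyMeasurable
    · rw [norm_mul, Real.norm_eq_abs, Real.norm_eq_abs, abs_mul 2, abs_mul (qq _ _ _), abs_two]
      refine mul_le_mul_of_nonneg_left ?_ (abs_nonneg _)
      have a1 := qq_bd ea_norm (2 * i) p
      have a2 := qq_bd ea_norm (2 * l) p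
      have a3 : |qq ea (2 * i) p| * |qq ea (2 * l) p| ≤ 1 * 1 :=
        mul_le_mul a1 a2 (abs_nonneg _) zero_le_one
      linarith
  have e1 : ∀ p, 2 * TP b M p ^ 2 = ∑ i ∈ Finset.range M, ∑ l ∈ Finset.range M,
      b i * b l * (2 * (qq ea (2 * i) p * qq ea (2 * l) p)) := by
    intro p
    unfold TP
    rw [sq, Finset.sum_mul_sum, Finset.mul_sum]
    refine Finset.sum_congr rfl fun i _ => ?_
    rw [Finset.mul_sum]
    refine Finset.sum_congr rfl fun l _ => ?_
    ring
  simp only [e1]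
  rw [integral_finsetSum _ fun i _ => integrable_finsetSum _ fun l _ => i1 i l]
  unfold Gn
  refine Finset.sum_congr rfl fun i _ => ?_
  rw [integral_finsetSum _ fun l _ => i1 i l]
  refine Finset.sum_congr rfl fun l _ => ?_
  rw [integral_const_mul, gg_int]

/-! ### the coefficients -/

lemma sumr (g : ℕ → ℝ) (L : ℕ) : ∑ i ∈ Finset.range (L + 1), g i =
    g 0 + ∑ j ∈ Finset.Icc 1 L, g j := by
  induction L with
  | zero => simp
  | succ L ih => rw [Finset.sum_range_succ, ih, Finset.sum_Icc_succ_top (by omega), add_assoc]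

/-- the coefficients of the null forms -/
def bG (a : ℕ → ℝ) (K L : ℕ) (i : ℕ) : ℝ :=
  (if i < K then a i else 0) - (if i = 0 then 0 else (L : ℝ)⁻¹ * ∑ k ∈ Finset.range K, a k)

lemma bG_sum (a : ℕ → ℝ) {K L : ℕ} (hKL : K ≤ L) (g : ℕ → ℝ) :
    ∑ i ∈ Finset.range (L + 1), bG a K L i * g i = (∑ k ∈ Finset.range K, a k * g k) -
      (∑ k ∈ Finset.range K, a k) * ((L : ℝ)⁻¹ * ∑ j ∈ Finset.Icc 1 L, g j) := by
  unfold bG
  simp only [sub_mul]
  rw [Finset.sum_sub_distrib]
  refine congrArg₂ (· - ·) ?_ ?_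
  · have h1 : ∑ i ∈ Finset.range K, (if i < K then a i else 0) * g i =
        ∑ i ∈ Finset.range (L + 1), (if i < K then a i else 0) * g i := by
      refine Finset.sum_subset (Finset.range_mono (by omega)) fun i _ hi => ?_
      rw [if_neg (by simpa using hi), zero_mul]
    rw [← h1]
    refine Finset.sum_congr rfl fun i hi => ?_
    rw [if_pos (Finset.mem_range.1 hi)]
  · rw [sumr, if_pos rfl, zero_mul, zero_add]
    have h2 : ∀ j ∈ Finset.Icc 1 L, (if j = 0 then 0 else (L : ℝ)⁻¹ *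
        ∑ k ∈ Finset.range K, a k) * g j = ((L : ℝ)⁻¹ * ∑ k ∈ Finset.range K, a k) * g j := by
      intro j hj
      have : j ≠ 0 := by have := (Finset.mem_Icc.1 hj).1; omega
      rw [if_neg this]
    rw [Finset.sum_congr rfl h2, ← Finset.mul_sum]
    ring

lemma bG_zero (a : ℕ → ℝ) {K L : ℕ} (hKL : K ≤ L) (hL : 0 < L) :
    ∑ i ∈ Finset.range (L + 1), bG a K L i = 0 := by
  have h := bG_sum a hKL (fun _ => 1)
  simp only [mul_one] at h
  have hL' : (L : ℝ) ≠ 0 := by exact_mod_cast hL.ne'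
  rw [h, Finset.sum_const, Nat.card_Icc]
  simp only [add_tsub_cancel_right, nsmul_eq_mul, mul_one]
  rw [inv_mul_cancel₀ hL', mul_one, sub_self]

lemma Gm_eq (b : ℕ → ℝ) (L : ℕ) : Gm b (L + 1) = b 0 ^ 2 + ∑ i ∈ Finset.range (L + 1), b i ^ 2 := by
  unfold Gm
  have h1 : ∀ i ∈ Finset.range (L + 1), ∑ l ∈ Finset.range (L + 1), b i * b l * gg E0 i l =
      (if i = 0 then b 0 ^ 2 else 0) + b i ^ 2 := by
    intro i hi
    have h2 : ∀ l, b i * b l * gg E0 i l =
        (if l = 0 then (if i = 0 then b 0 ^ 2 else 0) else 0) +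
        (if l = i then b i ^ 2 else 0) := by
      intro l
      unfold gg E0
      by_cases hl : l = 0
      · by_cases hi0 : i = 0
        · subst hl; subst hi0; simp; ring
        · subst hl
          have : (2 * (i : ℤ)) ≠ 0 := by omega
          have h3 : ¬ (0 = i) := fun h => hi0 h.symm
          simp [this, hi0, h3]
      · by_cases hil : l = i
        · subst hil
          have : ¬ (2 * (l : ℤ) + 2 * (l : ℤ) = 0) := by omega
          simp [this, hl]; ring
        · have e1 : ¬ (2 * (i : ℤ) + 2 * (l : ℤ) = 0) := by omega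
          have e2 : ¬ (2 * (i : ℤ) - 2 * (l : ℤ) = 0) := by omega
          simp [e1, e2, hl, hil]
    rw [Finset.sum_congr rfl fun l _ => h2 l, Finset.sum_add_distrib,
      Finset.sum_ite_eq' , Finset.sum_ite_eq', if_pos hi, if_pos (by simp)]
  rw [Finset.sum_congr rfl h1, Finset.sum_add_distrib, Finset.sum_ite_eq', if_pos (by simp)]

lemma bG_Gm (a : ℕ → ℝ) {K L : ℕ} (hK : 0 < K) (hKL : K ≤ L) :
    Gm (bG a K L) (L + 1) = a 0 ^ 2 + ∑ k ∈ Finset.range K, a k ^ 2 -
      (L : ℝ)⁻¹ * ((∑ k ∈ Finset.range K, a k) * ((∑ k ∈ Finset.range K, a k) - 2 * a 0)) := by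
  have hL : 0 < L := lt_of_lt_of_le hK hKL
  have b0 : bG a K L 0 = a 0 := by unfold bG; simp [hK]
  have h1 := bG_sum a hKL (bG a K L)
  have h2 := bG_zero a hKL hL
  rw [sumr, b0] at h2
  have h3 : ∑ k ∈ Finset.range K, a k * bG a K L k = ∑ k ∈ Finset.range K, a k ^ 2 -
      (L : ℝ)⁻¹ * ((∑ k ∈ Finset.range K, a k) * ((∑ k ∈ Finset.range K, a k) - a 0)) := by
    have h4 : ∀ k ∈ Finset.range K, a k * bG a K L k = a k ^ 2 -
        (if k = 0 then 0 else a k) * ((L : ℝ)⁻¹ * ∑ k ∈ Finset.range K, a k) := by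
      intro k hk
      unfold bG
      rw [if_pos (Finset.mem_range.1 hk)]
      split_ifs <;> ring
    rw [Finset.sum_congr rfl h4, Finset.sum_sub_distrib, ← Finset.sum_mul]
    have h5 : ∑ k ∈ Finset.range K, (if k = 0 then 0 else a k) =
        (∑ k ∈ Finset.range K, a k) - a 0 := by
      obtain ⟨K', rfl⟩ := Nat.exists_eq_succ_of_ne_zero hK.ne'
      rw [Nat.succ_eq_add_one, sumr, sumr]
      simp only [if_pos, zero_add, add_sub_cancel_left]
      refine Finset.sum_congr rfl fun j hj => ?_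
      have : j ≠ 0 := by have := (Finset.mem_Icc.1 hj).1; omega
      rw [if_neg this]
    rw [h5]
    ring
  have h6 : ∑ i ∈ Finset.range (L + 1), bG a K L i ^ 2 =
      ∑ i ∈ Finset.range (L + 1), bG a K L i * bG a K L i :=
    Finset.sum_congr rfl fun i _ => sq _
  rw [Gm_eq, b0, h6, h1, h3]
  have h7 : ∑ j ∈ Finset.Icc 1 L, bG a K L j = - a 0 := by linarith
  rw [h7]
  ring

/-- the limits of the trigonometric polynomials -/
lemma TP_lim (a : ℕ → ℝ) (K : ℕ) (p : ℝ × ℝ) :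
    Tendsto (fun L => TP (bG a K L) (L + 1) p) atTop
      (𝓝 ((PS ea)ᶜ.indicator (TP a K) p)) := by
  set ζ : ℂ := ea p.1 * (starRingEnd ℂ) (ea p.2) with hζ
  have hζ1 : ‖ζ‖ = 1 := zn ea_norm p
  have hz : ζ * (starRingEnd ℂ) ζ = 1 := by
    rw [Complex.mul_conj, Complex.normSq_eq_norm_sq, hζ1]; simp
  have hq : ∀ k, qq ea (2 * k) p = ((ζ ^ 2) ^ k).re := by
    intro k
    unfold qq
    rw [← hζ, pow_mul]
  have t1 := cesre (ζ := ζ ^ 2) (by rw [norm_pow, hζ1, one_pow])
  have t2 : Tendsto (fun L : ℕ => TP a K p - (∑ k ∈ Finset.range K, a k) *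
      ((L : ℝ)⁻¹ * ∑ j ∈ Finset.Icc 1 L, ((ζ ^ 2) ^ j).re)) atTop
      (𝓝 (TP a K p - (∑ k ∈ Finset.range K, a k) * (if ζ ^ 2 = 1 then 1 else 0))) :=
    tendsto_const_nhds.sub (t1.const_mul _)
  have hiff : p ∈ PS ea ↔ ζ ^ 2 = 1 := by
    have h2 : ea p.2 * (starRingEnd ℂ) (ea p.2) = 1 := by
      rw [Complex.mul_conj, Complex.normSq_eq_norm_sq, ea_norm]; simp
    show ea p.1 ^ 2 = ea p.2 ^ 2 ↔ _
    constructor
    · intro h
      rw [hζ, mul_pow, h, ← mul_pow, h2, one_pow]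
    · intro h
      have h3 : ea p.1 = ζ * ea p.2 := by
        rw [hζ]
        linear_combination (-ea p.1) * h2
      rw [h3, mul_pow, h, one_mul]
  have e : (PS ea)ᶜ.indicator (TP a K) p =
      TP a K p - (∑ k ∈ Finset.range K, a k) * (if ζ ^ 2 = 1 then 1 else 0) := by
    by_cases hp : p ∈ PS ea
    · rw [Set.indicator_of_notMem (by simpa using hp), if_pos (hiff.1 hp), mul_one]
      have : TP a K p = ∑ k ∈ Finset.range K, a k := by
        unfold TP
        refine Finset.sum_congr rfl fun k _ => ?_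
        rw [hq, hiff.1 hp, one_pow, Complex.one_re, mul_one]
      rw [this, sub_self]
    · rw [Set.indicator_of_mem (by simpa using hp), if_neg (fun h => hp (hiff.2 h)), mul_zero,
        sub_zero]
  rw [e]
  refine t2.congr' ?_
  filter_upwards [eventually_ge_atTop K] with L hL
  unfold TP
  rw [bG_sum a hL]
  simp only [hq]

lemma bG_bd (a : ℕ → ℝ) (K L : ℕ) (p : ℝ × ℝ) (hKL : K ≤ L) : |TP (bG a K L) (L + 1) p| ≤
    2 * ∑ k ∈ Finset.range K, |a k| := by
  unfold TP
  rw [bG_sum a hKL]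
  have h1 : |∑ k ∈ Finset.range K, a k * qq ea (2 * k) p| ≤ ∑ k ∈ Finset.range K, |a k| :=
    TP_bd a K p
  have h2 : |∑ k ∈ Finset.range K, a k| ≤ ∑ k ∈ Finset.range K, |a k| :=
    Finset.abs_sum_le_sum_abs _ _
  have h3 : |(L : ℝ)⁻¹ * ∑ j ∈ Finset.Icc 1 L, qq ea (2 * j) p| ≤ 1 := by
    rcases Nat.eq_zero_or_pos L with h0 | h0
    · subst h0; simp
    · rw [abs_mul, abs_of_nonneg (by positivity), inv_mul_le_iff₀ (by exact_mod_cast h0), mul_one]
      refine (Finset.abs_sum_le_sum_abs _ _).trans ?_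
      refine (Finset.sum_le_sum fun j _ => qq_bd ea_norm (2 * j) p).trans ?_
      simp
  have h4 : |(∑ k ∈ Finset.range K, a k) * ((L : ℝ)⁻¹ * ∑ j ∈ Finset.Icc 1 L, qq ea (2 * j) p)| ≤
      (∑ k ∈ Finset.range K, |a k|) * 1 := by
    rw [abs_mul]
    exact mul_le_mul h2 h3 (abs_nonneg _) ((abs_nonneg _).trans h2)
  refine (abs_sub _ _).trans ?_
  linarith

/-- the value for one component -/
def GT (ν : Measure ℝ) (a : ℕ → ℝ) (K : ℕ) : ℝ :=
  ∫ p in (PS ea)ᶜ, 2 * TP a K p ^ 2 ∂(ν.prod ν)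

lemma Gn_lim (ν : Measure ℝ) [IsProbabilityMeasure ν] (a : ℕ → ℝ) (K : ℕ) :
    Tendsto (fun L => Gn ν (bG a K L) (L + 1)) atTop (𝓝 (GT ν a K)) := by
  unfold GT
  rw [← integral_indicator (PS_meas ea_meas).compl]
  simp only [Gn_int]
  refine tendsto_integral_filter_of_dominated_convergence
    (fun _ => 2 * (2 * ∑ k ∈ Finset.range K, |a k|) ^ 2) ?_ ?_ (integrable_const _) ?_
  · exact Eventually.of_forall fun L =>
      (((TP_meas _ _).pow_const 2).const_mul 2).aestronglyMeasurable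
  · filter_upwards [eventually_ge_atTop K] with L hL
    refine ae_of_all _ fun p => ?_
    rw [Real.norm_eq_abs, abs_mul, abs_two, abs_pow]
    have h := bG_bd a K L p hL
    gcongr
  · refine ae_of_all _ fun p => ?_
    have h := ((TP_lim a K p).pow 2).const_mul 2
    have e : (PS ea)ᶜ.indicator (fun p => 2 * TP a K p ^ 2) p =
        2 * ((PS ea)ᶜ.indicator (TP a K) p) ^ 2 := by
      by_cases hp : p ∈ (PS ea)ᶜ
      · rw [Set.indicator_of_mem hp, Set.indicator_of_mem hp]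
      · rw [Set.indicator_of_notMem hp, Set.indicator_of_notMem hp]; ring
    rw [e]
    exact h

lemma Gn_meas {S : Type*} [MeasurableSpace S] (ν : Kernel S ℝ) [IsMarkovKernel ν] (b : ℕ → ℝ)
    (M : ℕ) : Measurable fun s => Gn (ν s) b M := by
  unfold Gn
  refine Finset.measurable_fun_sum _ fun i _ => Finset.measurable_fun_sum _ fun l _ => ?_
  refine Measurable.const_mul ?_ _
  unfold gg
  have h : ∀ s : ℤ, Even s → Measurable fun x => Ec (ν x) s := by
    intro s hs
    have e : (fun x => Ec (ν x) s) = fun x => ‖cm ea (ν x) s.natAbs‖ ^ 2 :=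
      funext fun x => Ec_abs (ν x) hs
    rw [e]
    have h1 : StronglyMeasurable fun x => cm ea (ν x) s.natAbs :=
      StronglyMeasurable.integral_kernel (ea_meas.pow_const _).stronglyMeasurable
    exact h1.measurable.norm.pow_const 2
  exact (h _ ((even_two_mul _).add (even_two_mul _))).add
    (h _ ((even_two_mul _).sub (even_two_mul _)))

end

end Pool.Agent.K3h40.EC
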