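import Mathlib

/-! Measures on the directions without nonzero even frequencies: the covariance is the Bessel
function of order zero (helper40). -/

set_option autoImplicit false

open MeasureTheory Filter Topology Complex
open scoped Nat

namespace Pool.Agent.K3h40.EC

noncomputable section

/-- the Bessel function of order zero -/
def bes (r : ℝ) : ℝ := (1 / (2 * Real.pi)) * ∫ α in (0 : ℝ)..(2 * Real.pi), Real.cos (r * Real.cos α)

/-- all nonzero even frequencies vanish -/
def Ev (ν : Measure ℝ) : Prop := ∀ k : ℤ, k ≠ 0 → ∫ α, Complex.exp (2 * k * α * I) ∂ν = 0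

lemma cos_pow (θ : ℝ) (n : ℕ) : ((Real.cos θ ^ (2 * n) : ℝ) : ℂ) =
    ∑ j ∈ Finset.range (2 * n + 1), ((2 * n).choose j / 4 ^ n : ℂ) *
      Complex.exp (2 * (((j : ℤ) - n : ℤ) : ℂ) * θ * I) := by
  push_cast
  rw [Complex.cos, div_pow, add_pow, Finset.sum_div]
  refine Finset.sum_congr rfl fun j hj => ?_
  have hj' : j ≤ 2 * n := by have := Finset.mem_range.1 hj; omega
  rw [← Complex.exp_nat_mul, ← Complex.exp_nat_mul, ← Complex.exp_add]
  have e1 : (j : ℂ) * (θ * I) + ((2 * n - j : ℕ) : ℂ) * (-θ * I) = 2 * (j - n) * θ * I := by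
    rw [Nat.cast_sub hj']
    push_cast
    ring
  rw [e1, pow_mul]
  norm_num
  ring

lemma int_cos_pow {ν : Measure ℝ} [IsProbabilityMeasure ν] (hν : Ev ν) (β : ℝ) (n : ℕ) :
    ∫ α, Real.cos (α - β) ^ (2 * n) ∂ν = (2 * n).choose n / 4 ^ n := by
  have h1 : ((∫ α, Real.cos (α - β) ^ (2 * n) ∂ν : ℝ) : ℂ) = (2 * n).choose n / 4 ^ n := by
    rw [← integral_complex_ofReal]
    simp only [cos_pow]
    rw [integral_finsetSum]
    · have h2 : ∀ j ∈ Finset.range (2 * n + 1), ∫ α : ℝ, ((2 * n).choose j / 4 ^ n : ℂ) *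
          Complex.exp (2 * (((j : ℤ) - n : ℤ) : ℂ) * ((α - β : ℝ) : ℂ) * I) ∂ν =
          if j = n then ((2 * n).choose n / 4 ^ n : ℂ) else 0 := by
        intro j _
        by_cases hj : j = n
        · subst hj
          simp
        · rw [if_neg hj]
          have hk : ((j : ℤ) - n) ≠ 0 := by omega
          have h3 := hν _ hk
          have e : ∀ α : ℝ, ((2 * n).choose j / 4 ^ n : ℂ) *
              Complex.exp (2 * (((j : ℤ) - n : ℤ) : ℂ) * ((α - β : ℝ) : ℂ) * I) =
              (((2 * n).choose j / 4 ^ n : ℂ) *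
                Complex.exp (-(2 * (((j : ℤ) - n : ℤ) : ℂ) * (β : ℂ) * I))) *
              Complex.exp (2 * (((j : ℤ) - n : ℤ) : ℂ) * (α : ℂ) * I) := by
            intro α
            rw [mul_assoc ((2 * n).choose j / 4 ^ n : ℂ), ← Complex.exp_add]
            congr 2
            push_cast
            ring
          simp only [e]
          rw [integral_const_mul, h3, mul_zero]
      rw [Finset.sum_congr rfl h2, Finset.sum_ite_eq', if_pos (Finset.mem_range.2 (by omega))]
    · intro j _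
      refine Integrable.of_bound (C := ‖((2 * n).choose j / 4 ^ n : ℂ)‖) ?_ (ae_of_all _ fun α => ?_)
      · have : Continuous fun α : ℝ => ((2 * n).choose j / 4 ^ n : ℂ) *
          Complex.exp (2 * (((j : ℤ) - n : ℤ) : ℂ) * ((α - β : ℝ) : ℂ) * I) := by fun_prop
        exact this.aestronglyMeasurable
      · rw [norm_mul]
        have e : 2 * (((j : ℤ) - n : ℤ) : ℂ) * ((α - β : ℝ) : ℂ) * I =
            ((2 * (((j : ℤ) - n : ℤ) : ℝ) * (α - β) : ℝ) : ℂ) * I := by push_cast; ring
        rw [e, Complex.norm_exp_ofReal_mul_I, mul_one]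
  have h2 : ((2 * n).choose n / 4 ^ n : ℂ) = (((2 * n).choose n / 4 ^ n : ℝ) : ℂ) := by
    push_cast; ring
  rw [h2] at h1
  exact_mod_cast h1

lemma hasSum_cos {ν : Measure ℝ} [IsProbabilityMeasure ν] (hν : Ev ν) (r β : ℝ) :
    HasSum (fun n : ℕ => (-1) ^ n * r ^ (2 * n) / (2 * n)! * ((2 * n).choose n / 4 ^ n))
      (∫ α, Real.cos (r * Real.cos (α - β)) ∂ν) := by
  have hc : ∀ n : ℕ, Continuous fun α : ℝ =>
      (-1) ^ n * (r * Real.cos (α - β)) ^ (2 * n) / ((2 * n)! : ℝ) := fun n => by fun_prop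
  have hb : ∀ (n : ℕ) (α : ℝ), ‖(-1) ^ n * (r * Real.cos (α - β)) ^ (2 * n) / ((2 * n)! : ℝ)‖ ≤
      |r| ^ (2 * n) / (2 * n)! := by
    intro n α
    rw [norm_div, norm_mul, norm_pow, norm_neg, norm_one, one_pow, one_mul, norm_pow,
      Real.norm_eq_abs, Real.norm_eq_abs, abs_mul]
    have h1 : |((2 * n)! : ℝ)| = (2 * n)! := abs_of_nonneg (Nat.cast_nonneg _)
    rw [h1]
    have h2 : |r| * |Real.cos (α - β)| ≤ |r| := mul_le_of_le_one_right (abs_nonneg _)
      (Real.abs_cos_le_one _)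
    gcongr
  have hi : ∀ n : ℕ, Integrable (fun α : ℝ =>
      (-1) ^ n * (r * Real.cos (α - β)) ^ (2 * n) / ((2 * n)! : ℝ)) ν := fun n =>
    Integrable.of_bound (hc n).aestronglyMeasurable _ (ae_of_all _ (hb n))
  have hs0 : Summable fun n : ℕ => |r| ^ (2 * n) / (2 * n)! :=
    (Real.summable_pow_div_factorial |r|).comp_injective (i := fun n : ℕ => 2 * n)
      (fun a b h => by simpa using h)
  have hs : Summable fun n : ℕ => ∫ α : ℝ,
      ‖(-1) ^ n * (r * Real.cos (α - β)) ^ (2 * n) / ((2 * n)! : ℝ)‖ ∂ν := by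
    refine Summable.of_nonneg_of_le (fun n => integral_nonneg fun α => norm_nonneg _)
      (fun n => ?_) hs0
    have := integral_mono (μ := ν) (hi n).norm (integrable_const _) (hb n)
    simpa using this
  have key := hasSum_integral_of_summable_integral_norm hi hs
  have e1 : ∀ α : ℝ, ∑' n : ℕ, (-1) ^ n * (r * Real.cos (α - β)) ^ (2 * n) / ((2 * n)! : ℝ) =
      Real.cos (r * Real.cos (α - β)) := fun α => (Real.hasSum_cos _).tsum_eq
  simp only [e1] at key
  have e2 : ∀ n : ℕ, ∫ α : ℝ, (-1) ^ n * (r * Real.cos (α - β)) ^ (2 * n) / ((2 * n)! : ℝ) ∂ν =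
      (-1) ^ n * r ^ (2 * n) / (2 * n)! * ((2 * n).choose n / 4 ^ n) := by
    intro n
    rw [← int_cos_pow hν β n, ← integral_const_mul]
    refine integral_congr_ae (Eventually.of_forall fun α => ?_)
    simp only
    rw [mul_pow]
    ring
  simpa only [e2] using key

/-- the uniform law on the directions -/
def un : Measure ℝ := ENNReal.ofReal (1 / (2 * Real.pi)) • volume.restrict (Set.Ioc 0 (2 * Real.pi))

lemma two_pi_pos' : (0 : ℝ) < 2 * Real.pi := Real.two_pi_pos

instance : IsProbabilityMeasure un := by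
  refine ⟨?_⟩
  unfold un
  rw [Measure.smul_apply, Measure.restrict_apply_univ, Real.volume_Ioc, sub_zero, smul_eq_mul,
    ← ENNReal.ofReal_mul (by positivity), one_div, inv_mul_cancel₀ two_pi_pos'.ne',
    ENNReal.ofReal_one]

lemma un_int {E : Type*} [NormedAddCommGroup E] [NormedSpace ℝ E] (f : ℝ → E) :
    ∫ α, f α ∂un = (1 / (2 * Real.pi)) • ∫ α in (0 : ℝ)..(2 * Real.pi), f α := by
  unfold un
  rw [integral_smul_measure, ENNReal.toReal_ofReal (by positivity),
    intervalIntegral.integral_of_le two_pi_pos'.le]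

lemma un_Ev : Ev un := by
  intro k hk
  rw [un_int]
  have hc : (2 * (k : ℂ) * I) ≠ 0 := by
    have : (k : ℂ) ≠ 0 := by exact_mod_cast hk
    simp [this]
  have h1 : ∫ α in (0 : ℝ)..(2 * Real.pi), Complex.exp (2 * k * α * I) = 0 := by
    have e : ∀ α : ℝ, Complex.exp (2 * k * α * I) = Complex.exp (2 * k * I * α) := fun α => by
      congr 1; ring
    simp only [e]
    rw [integral_exp_mul_complex hc]
    have e2 : Complex.exp (2 * k * I * ((2 * Real.pi : ℝ) : ℂ)) = 1 := by
      have : 2 * (k : ℂ) * I * ((2 * Real.pi : ℝ) : ℂ) = ((2 * k : ℤ) : ℂ) * (2 * Real.pi * I) := by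
        push_cast; ring
      rw [this, Complex.exp_int_mul_two_pi_mul_I]
    rw [e2]
    simp
  rw [h1, smul_zero]

lemma Ev_bes {ν : Measure ℝ} [IsProbabilityMeasure ν] (hν : Ev ν) (r β : ℝ) :
    ∫ α, Real.cos (r * Real.cos (α - β)) ∂ν = bes r := by
  have h1 := hasSum_cos hν r β
  have h2 := hasSum_cos un_Ev r 0
  simp only [sub_zero] at h2
  rw [h1.unique h2, un_int, smul_eq_mul]
  rfl

/-- the covariance -/
lemma Ev_cov {ν : Measure ℝ} [IsProbabilityMeasure ν] (hν : Ev ν) (w : ℂ) :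
    ∫ α, Real.cos (w.re * Real.cos α + w.im * Real.sin α) ∂ν = bes ‖w‖ := by
  rw [← Ev_bes hν ‖w‖ w.arg]
  refine integral_congr_ae (Eventually.of_forall fun α => ?_)
  simp only
  congr 1
  rw [Real.cos_sub]
  have h1 := Complex.norm_mul_cos_arg w
  have h2 := Complex.norm_mul_sin_arg w
  rw [← h1, ← h2]
  simp only [Complex.norm_mul_cos_arg, Complex.norm_mul_sin_arg]
  linear_combination (-Real.cos α) * h1 - Real.sin α * h2

end

end Pool.Agent.K3h40.EC
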