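import Pool.Agent.K3h40.EC.F
import Pool.Agent.K3h40.EC.J

/-! Stationary solutions with finite second moment: main inequalities for the ergodic components
(helper40). -/

set_option autoImplicit false

open MeasureTheory Filter Topology Complex ProbabilityTheory
open scoped ENNReal

namespace Pool.Agent.K3h40.EC

open Pool.Agent.W745.RW Pool.Agent.R989.Erg
open Pool.Agent.R989.Der (sy)
open Pool.Agent.R989.Det (sm sm_int)
open Pool.Agent.TH294.RG (ea ea_meas ea_norm ea_par qq qq_bd qq_meas cm cm_sq cm_pair cm_meas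
  par PS PS_meas cesre zn)
open Pool.Agent.Results.MP_6b977f_mp.FourPointFunctions (cov gauss parallel)

noncomputable section

variable {S : Type*} [MeasurableSpace S] {P : Measure S} [IsProbabilityMeasure P]
  {F : S → ℂ → ℝ}

lemma m_aem (H : Wv2 P F) (m : S → ℝ) (ν : Kernel S ℝ) [IsMarkovKernel ν]
    (hcov : ∀ w : ℂ, P[fun s => F s 0 * F s w | (inv (P.map F)).comap F] =ᵐ[P]
      fun s => m s * cov (ν s) w) : AEMeasurable m P := by
  have h := hcov 0
  simp only [cov0, mul_one] at h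
  have hle : (inv (P.map F)).comap F ≤ ‹MeasurableSpace S› := by
    intro A hA
    obtain ⟨B, hB, rfl⟩ := hA
    exact F_meas H.joint (inv_le _ _ hB)
  exact ⟨_, (stronglyMeasurable_condExp.mono hle).measurable, h.symm⟩

/-- **The general inequality.** -/
theorem gen (H : Wv2 P F) (m : S → ℝ) (ν : Kernel S ℝ) [IsMarkovKernel ν]
    (hcov : ∀ w : ℂ, P[fun s => F s 0 * F s w | (inv (P.map F)).comap F] =ᵐ[P]
      fun s => m s * cov (ν s) w)
    (hQ : ∀ (b : ℕ → ℝ) (M : ℕ), ∑ i ∈ Finset.range M, b i = 0 → 0 ≤ Gm b M → ∀ x : ℂ,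
      ∫⁻ s, ENNReal.ofReal (QQ b M (F s) x) ∂P ≤ ENNReal.ofReal (Gm b M))
    (a : ℕ → ℝ) {K : ℕ} (hK : 0 < K) :
    ∫⁻ s, ENNReal.ofReal (m s ^ 2 * GT (ν s) a K) ∂P ≤
      ENNReal.ofReal (a 0 ^ 2 + ∑ k ∈ Finset.range K, a k ^ 2) := by
  have hm := m_aem H m ν hcov
  have h1 : ∀ L, K ≤ L → ∫⁻ s, ENNReal.ofReal (m s ^ 2 * Gn (ν s) (bG a K L) (L + 1)) ∂P ≤
      ENNReal.ofReal (a 0 ^ 2 + ∑ k ∈ Finset.range K, a k ^ 2 - (L : ℝ)⁻¹ *
        ((∑ k ∈ Finset.range K, a k) * ((∑ k ∈ Finset.range K, a k) - 2 * a 0))) := by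
    intro L hL
    have hL0 : 0 < L := lt_of_lt_of_le hK hL
    have hz := bG_zero a hL hL0
    have hnn : 0 ≤ Gm (bG a K L) (L + 1) := by
      rw [Gm_eq]
      have : 0 ≤ ∑ i ∈ Finset.range (L + 1), bG a K L i ^ 2 :=
        Finset.sum_nonneg fun i _ => sq_nonneg _
      positivity
    have h2 := key H m ν hcov (bG a K L) (L + 1) hz _ (hQ _ _ hz hnn)
    rwa [bG_Gm a hK hL] at h2
  have h2 : Tendsto (fun L : ℕ => ENNReal.ofReal (a 0 ^ 2 + ∑ k ∈ Finset.range K, a k ^ 2 -
      (L : ℝ)⁻¹ * ((∑ k ∈ Finset.range K, a k) * ((∑ k ∈ Finset.range K, a k) - 2 * a 0))))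
      atTop (𝓝 (ENNReal.ofReal (a 0 ^ 2 + ∑ k ∈ Finset.range K, a k ^ 2))) := by
    refine (ENNReal.continuous_ofReal.tendsto _).comp ?_
    have h3 := (tendsto_inv_atTop_nhds_zero_nat (𝕜 := ℝ)).mul_const
      ((∑ k ∈ Finset.range K, a k) * ((∑ k ∈ Finset.range K, a k) - 2 * a 0))
    rw [zero_mul] at h3
    have h4 := h3.const_sub (a 0 ^ 2 + ∑ k ∈ Finset.range K, a k ^ 2)
    rw [sub_zero] at h4
    exact h4
  have h3 : ∀ s, ENNReal.ofReal (m s ^ 2 * GT (ν s) a K) =
      liminf (fun L => ENNReal.ofReal (m s ^ 2 * Gn (ν s) (bG a K L) (L + 1))) atTop := by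
    intro s
    exact ((ENNReal.continuous_ofReal.tendsto _).comp
      ((Gn_lim (ν s) a K).const_mul (m s ^ 2))).liminf_eq.symm
  simp only [h3]
  refine (lintegral_liminf_le' fun L => ?_).trans ?_
  · exact ENNReal.measurable_ofReal.comp_aemeasurable
      ((hm.pow_const 2).mul (Gn_meas ν _ _).aemeasurable)
  · rw [← h2.liminf_eq]
    refine liminf_le_liminf ?_
    filter_upwards [eventually_ge_atTop K] with L hL using h1 L hL

lemma qq0 (p : ℝ × ℝ) : qq ea (2 * 0) p = 1 := by simp [qq]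

lemma PS_par (ν : Measure ℝ) : (ν.prod ν).real (PS ea) = parallel ν := by
  unfold parallel
  rw [ea_par]

lemma GT_one (ν : Measure ℝ) [IsProbabilityMeasure ν] :
    GT ν (fun i => if i = 0 then 1 else 0) 1 = 2 * (1 - parallel ν) := by
  unfold GT TP
  simp only [Finset.range_one, Finset.sum_singleton, if_true, qq0, mul_one, one_pow]
  rw [setIntegral_const, smul_eq_mul, measureReal_compl (PS_meas ea_meas), PS_par]
  rw [probReal_univ]
  ring

/-- the inequality for the masses of the components -/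
theorem mass_le (H : Wv2 P F) (m : S → ℝ) (ν : Kernel S ℝ) [IsMarkovKernel ν]
    (hcov : ∀ w : ℂ, P[fun s => F s 0 * F s w | (inv (P.map F)).comap F] =ᵐ[P]
      fun s => m s * cov (ν s) w)
    (hQ : ∀ (b : ℕ → ℝ) (M : ℕ), ∑ i ∈ Finset.range M, b i = 0 → 0 ≤ Gm b M → ∀ x : ℂ,
      ∫⁻ s, ENNReal.ofReal (QQ b M (F s) x) ∂P ≤ ENNReal.ofReal (Gm b M)) :
    ∫⁻ s, ENNReal.ofReal (m s ^ 2 * (1 - parallel (ν s))) ∂P ≤ 1 := by
  have h := gen H m ν hcov hQ (fun i => if i = 0 then 1 else 0) one_pos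
  simp only [GT_one, Finset.range_one, Finset.sum_singleton, if_true, one_pow] at h
  have h2 : ∀ s, ENNReal.ofReal (m s ^ 2 * (2 * (1 - parallel (ν s)))) =
      2 * ENNReal.ofReal (m s ^ 2 * (1 - parallel (ν s))) := by
    intro s
    rw [show m s ^ 2 * (2 * (1 - parallel (ν s))) = 2 * (m s ^ 2 * (1 - parallel (ν s))) by ring,
      ENNReal.ofReal_mul (by norm_num)]
    norm_num
  simp only [h2] at h
  rw [lintegral_const_mul' _ _ (by norm_num)] at h
  have h3 : ENNReal.ofReal (1 + 1) = 2 * 1 := by norm_num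
  rw [h3] at h
  exact (ENNReal.mul_le_mul_iff_right (by norm_num) (by norm_num)).1 h

/-- the value for two frequencies -/
lemma GT_two (ν : Measure ℝ) [IsProbabilityMeasure ν] (hp : parallel ν = 0) {k : ℕ} (hk : 0 < k) :
    3 + 4 * ‖cm ea ν (2 * k)‖ ^ 2 ≤
      GT ν (fun i => (if i = 0 then 1 else 0) + if i = k then 1 else 0) (k + 1) := by
  have hz : (ν.prod ν) (PS ea) = 0 := by
    have h := PS_par ν
    rw [hp, measureReal_def, ENNReal.toReal_eq_zero_iff] at h
    exact h.resolve_right (measure_ne_top _ _)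
  have hT : ∀ p, TP (fun i => (if i = 0 then 1 else 0) + if i = k then 1 else 0) (k + 1) p =
      1 + qq ea (2 * k) p := by
    intro p
    unfold TP
    simp only [add_mul, ite_mul, one_mul, zero_mul]
    rw [Finset.sum_add_distrib, Finset.sum_ite_eq', Finset.sum_ite_eq', if_pos (by simp),
      if_pos (by simp), qq0]
  have iq : ∀ k, Integrable (qq ea k) (ν.prod ν) := fun k =>
    Integrable.of_bound (qq_meas ea_meas k).aestronglyMeasurable 1
      (ae_of_all _ fun p => qq_bd ea_norm k p)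
  have iqq : Integrable (fun p => 2 * (qq ea (2 * k) p * qq ea (2 * k) p)) (ν.prod ν) := by
    refine Integrable.of_bound (C := 2)
      (((qq_meas ea_meas _).mul (qq_meas ea_meas _)).const_mul 2).aestronglyMeasurable
      (ae_of_all _ fun p => ?_)
    rw [Real.norm_eq_abs, abs_mul, abs_mul, abs_two]
    have a1 := qq_bd ea_norm (2 * k) p
    have a3 : |qq ea (2 * k) p| * |qq ea (2 * k) p| ≤ 1 * 1 :=
      mul_le_mul a1 a1 (abs_nonneg _) zero_le_one
    linarith
  unfold GT
  have hr : (ν.prod ν).restrict (PS ea)ᶜ = ν.prod ν := by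
    rw [Measure.restrict_eq_self_of_ae_mem]
    exact compl_mem_ae_iff.2 (by simpa using hz)
  rw [hr]
  simp only [hT]
  have e1 : ∀ p, 2 * (1 + qq ea (2 * k) p) ^ 2 =
      2 + 4 * qq ea (2 * k) p + 2 * (qq ea (2 * k) p * qq ea (2 * k) p) := fun p => by ring
  simp only [e1]
  have i3 : Integrable (fun p => 2 + 4 * qq ea (2 * k) p) (ν.prod ν) :=
    (integrable_const _).add ((iq _).const_mul _)
  rw [integral_add i3 iqq, integral_add (integrable_const _) ((iq _).const_mul _),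
    integral_const_mul, ← cm_sq ea_meas ea_norm ν,
    ← cm_pair ea_meas ea_norm ν (2 * k) (2 * k)]
  have h1 : ‖cm ea ν ((((2 * k : ℕ) : ℤ) - ((2 * k : ℕ) : ℤ)).natAbs)‖ ^ 2 = 1 := by
    simp [cm]
  rw [h1]
  have h2 : ∫ _p : ℝ × ℝ, (2 : ℝ) ∂(ν.prod ν) = 2 := by simp
  rw [h2]
  have := sq_nonneg ‖cm ea ν (2 * k + 2 * k)‖
  linarith

lemma cm_Ev {ν : Measure ℝ} (h : ∀ k : ℕ, 0 < k → cm ea ν (2 * k) = 0) : Ev ν := by
  have e1 : ∀ (k : ℕ), 0 < k → ∫ α, Complex.exp (-(2 * k * α * I)) ∂ν = 0 := by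
    intro k hk
    have h1 := h k hk
    unfold cm ea at h1
    have e : ∀ α : ℝ, (I * Complex.exp (-(α : ℂ) * I)) ^ (2 * k) =
        I ^ (2 * k) * Complex.exp (-(2 * k * α * I)) := by
      intro α
      rw [mul_pow, ← Complex.exp_nat_mul]
      congr 2
      push_cast
      ring
    simp only [e] at h1
    rw [integral_const_mul] at h1
    exact (mul_eq_zero.1 h1).resolve_left (pow_ne_zero _ I_ne_zero)
  intro k hk
  rcases lt_or_gt_of_ne hk with h0 | h0
  · have h2 := e1 k.natAbs (Int.natAbs_pos.2 hk)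
    have h3 : ((k.natAbs : ℕ) : ℂ) = -(k : ℂ) := by
      have : ((k.natAbs : ℕ) : ℤ) = -k := by omega
      rw [← Int.cast_natCast, this, Int.cast_neg]
    rw [h3] at h2
    rw [← h2]
    refine integral_congr_ae (Eventually.of_forall fun α => ?_)
    simp only
    congr 1
    ring
  · have h2 := e1 k.natAbs (Int.natAbs_pos.2 hk)
    have h3 : ((k.natAbs : ℕ) : ℂ) = (k : ℂ) := by
      have : ((k.natAbs : ℕ) : ℤ) = k := by omega
      rw [← Int.cast_natCast, this]
    rw [h3] at h2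
    have h4 := congrArg (starRingEnd ℂ) h2
    rw [map_zero, ← integral_conj] at h4
    rw [← h4]
    refine integral_congr_ae (Eventually.of_forall fun α => ?_)
    simp only
    rw [← Complex.exp_conj]
    congr 1
    rw [map_neg, map_mul, map_mul, map_mul, Complex.conj_I, Complex.conj_ofReal, map_intCast,
      map_ofNat]
    ring

/-- **No mass is lost and no parallel directions: every component has the covariance of the
isotropic random wave.** -/
theorem bessel (H : Wv2 P F) (m : S → ℝ) (ν : Kernel S ℝ) [IsMarkovKernel ν]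
    (hcov : ∀ w : ℂ, P[fun s => F s 0 * F s w | (inv (P.map F)).comap F] =ᵐ[P]
      fun s => m s * cov (ν s) w)
    (hQ : ∀ (b : ℕ → ℝ) (M : ℕ), ∑ i ∈ Finset.range M, b i = 0 → 0 ≤ Gm b M → ∀ x : ℂ,
      ∫⁻ s, ENNReal.ofReal (QQ b M (F s) x) ∂P ≤ ENNReal.ofReal (Gm b M))
    (h1 : ∫ s, F s 0 ^ 2 ∂P = 1) (hp : ∀ᵐ s ∂P, parallel (ν s) = 0) :
    ∀ᵐ s ∂P, m s = 1 ∧ ∀ w : ℂ, cov (ν s) w = bes ‖w‖ := by
  have hm := m_aem H m ν hcov
  have hnn := m_nn H m ν hcov
  have hle : (inv (P.map F)).comap F ≤ ‹MeasurableSpace S› := by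
    intro A hA
    obtain ⟨B, hB, rfl⟩ := hA
    exact F_meas H.joint (inv_le _ _ hB)
  -- first moment
  have hc0 := hcov 0
  simp only [cov0, mul_one] at hc0
  have m1 : ∫ s, m s ∂P = 1 := by
    rw [← integral_congr_ae hc0, integral_condExp hle, ← h1]
    refine integral_congr_ae (Eventually.of_forall fun s => ?_)
    simp only
    ring
  have mi : Integrable m P := integrable_condExp.congr hc0
  -- second moment
  have hM := mass_le H m ν hcov hQ
  have hM2 : ∫⁻ s, ENNReal.ofReal (m s ^ 2) ∂P ≤ 1 := by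
    refine le_trans (le_of_eq (lintegral_congr_ae ?_)) hM
    filter_upwards [hp] with s hs
    simp only [hs, sub_zero, mul_one]
  have m2i : Integrable (fun s => m s ^ 2) P := by
    refine ⟨(hm.pow_const 2).aestronglyMeasurable, ?_⟩
    rw [hasFiniteIntegral_iff_ofReal (ae_of_all _ fun s => sq_nonneg _)]
    exact lt_of_le_of_lt hM2 ENNReal.one_lt_top
  have m2 : ∫ s, m s ^ 2 ∂P ≤ 1 := by
    rw [integral_eq_lintegral_of_nonneg_ae (ae_of_all _ fun s => sq_nonneg _)
      m2i.aestronglyMeasurable]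
    exact ENNReal.toReal_le_of_le_ofReal zero_le_one (by simpa using hM2)
  have hv : ∫ s, (m s - 1) ^ 2 ∂P ≤ 0 := by
    have e : ∀ s, (m s - 1) ^ 2 = m s ^ 2 - 2 * m s + 1 := fun s => by ring
    simp only [e]
    have i3 : Integrable (fun s => m s ^ 2 - 2 * m s) P := m2i.sub (mi.const_mul 2)
    rw [integral_add i3 (integrable_const _),
      integral_sub m2i (mi.const_mul 2), integral_const_mul, m1]
    simp
    linarith
  have hm1 : ∀ᵐ s ∂P, m s = 1 := by
    have h0 : 0 ≤ᵐ[P] fun s => (m s - 1) ^ 2 := ae_of_all _ fun s => sq_nonneg _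
    have hi : Integrable (fun s => (m s - 1) ^ 2) P := by
      have e : (fun s => (m s - 1) ^ 2) = fun s => m s ^ 2 - 2 * m s + 1 := by
        funext s; ring
      rw [e]
      exact (m2i.sub (mi.const_mul 2)).add (integrable_const _)
    have h3 := (integral_eq_zero_iff_of_nonneg_ae h0 hi).1
      (le_antisymm hv (integral_nonneg fun s => sq_nonneg _))
    filter_upwards [h3] with s hs
    have : (m s - 1) ^ 2 = 0 := hs
    nlinarith [pow_eq_zero_iff (two_ne_zero) |>.1 this]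
  -- the frequencies
  have hf : ∀ k : ℕ, 0 < k → ∀ᵐ s ∂P, cm ea (ν s) (2 * k) = 0 := by
    intro k hk
    have h2 := gen H m ν hcov hQ (fun i => (if i = 0 then 1 else 0) + if i = k then 1 else 0)
      (Nat.succ_pos k)
    have e1 : ((if (0 : ℕ) = 0 then (1 : ℝ) else 0) + if 0 = k then 1 else 0) ^ 2 +
        ∑ i ∈ Finset.range (k + 1), ((if i = 0 then (1 : ℝ) else 0) + if i = k then 1 else 0) ^ 2 =
        3 := by
      have hk' : ¬ (0 = k) := by omega
      have h3 : ∀ i ∈ Finset.range (k + 1), ((if i = 0 then (1 : ℝ) else 0) +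
          if i = k then 1 else 0) ^ 2 = (if i = 0 then 1 else 0) + if i = k then 1 else 0 := by
        intro i _
        by_cases hi : i = 0
        · subst hi
          simp [hk']
        · by_cases hi2 : i = k
          · simp [hi2, hk.ne']
          · simp [hi, hi2]
      rw [Finset.sum_congr rfl h3, Finset.sum_add_distrib, Finset.sum_ite_eq',
        Finset.sum_ite_eq', if_neg hk', if_pos (Finset.mem_range.2 (Nat.succ_pos k)),
        if_pos (Finset.mem_range.2 (Nat.lt_succ_self k))]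
      norm_num
    rw [Nat.succ_eq_add_one, e1] at h2
    have cmm : StronglyMeasurable fun s => cm ea (ν s) (2 * k) :=
      StronglyMeasurable.integral_kernel (ea_meas.pow_const _).stronglyMeasurable
    have h4 : ∫⁻ s, ENNReal.ofReal (3 + 4 * ‖cm ea (ν s) (2 * k)‖ ^ 2) ∂P ≤ ENNReal.ofReal 3 := by
      refine (lintegral_mono_ae ?_).trans h2
      filter_upwards [hm1, hp] with s hs hs2
      rw [hs, one_pow, one_mul]
      exact ENNReal.ofReal_le_ofReal (GT_two (ν s) hs2 hk)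
    have h5 : ∫⁻ s, ENNReal.ofReal (4 * ‖cm ea (ν s) (2 * k)‖ ^ 2) ∂P = 0 := by
      have e2 : ∀ s, ENNReal.ofReal (3 + 4 * ‖cm ea (ν s) (2 * k)‖ ^ 2) =
          ENNReal.ofReal 3 + ENNReal.ofReal (4 * ‖cm ea (ν s) (2 * k)‖ ^ 2) := fun s =>
        ENNReal.ofReal_add (by norm_num) (by positivity)
      simp only [e2] at h4
      rw [lintegral_add_left measurable_const, lintegral_const, measure_univ, mul_one] at h4
      have h6 : ENNReal.ofReal 3 + ∫⁻ s, ENNReal.ofReal (4 * ‖cm ea (ν s) (2 * k)‖ ^ 2) ∂P ≤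
          ENNReal.ofReal 3 + 0 := by rw [add_zero]; exact h4
      exact nonpos_iff_eq_zero.1 ((ENNReal.add_le_add_iff_left ENNReal.ofReal_ne_top).1 h6)
    rw [lintegral_eq_zero_iff] at h5
    · filter_upwards [h5] with s hs
      have h7 : 4 * ‖cm ea (ν s) (2 * k)‖ ^ 2 ≤ 0 := ENNReal.ofReal_eq_zero.1 hs
      have h8 : ‖cm ea (ν s) (2 * k)‖ ^ 2 = 0 := by
        have := sq_nonneg ‖cm ea (ν s) (2 * k)‖
        linarith
      exact norm_eq_zero.1 (pow_eq_zero_iff (two_ne_zero) |>.1 h8)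
    · exact ENNReal.measurable_ofReal.comp ((cmm.measurable.norm.pow_const 2).const_mul 4)
  have hf' : ∀ᵐ s ∂P, ∀ k : ℕ, 0 < k → cm ea (ν s) (2 * k) = 0 := by
    rw [ae_all_iff]
    intro k
    by_cases hk : 0 < k
    · filter_upwards [hf k hk] with s hs _ using hs
    · exact ae_of_all _ fun s h => absurd h hk
  filter_upwards [hm1, hf'] with s hs hs2
  exact ⟨hs, fun w => Ev_cov (cm_Ev hs2) w⟩

end

end Pool.Agent.K3h40.EC
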