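import Pool.Agent.K3h40.EC.F2

/-! Stationary solutions with finite second moment: the law of the angle between two independent
directions of the same component (helper40). -/

set_option autoImplicit false

open MeasureTheory Filter Topology Complex ProbabilityTheory
open scoped ENNReal

namespace Pool.Agent.K3h40.EC

open Pool.Agent.W745.RW Pool.Agent.R989.Erg
open Pool.Agent.R989.Det (sm sm_int)
open Pool.Agent.TH294.RG (ea ea_meas ea_norm ea_par qq qq_bd qq_meas cm cm_sq cm_pair cm_meas
  par PS PS_meas cesre zn)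
open Pool.Agent.Results.MP_6b977f_mp.FourPointFunctions (cov gauss parallel)

noncomputable section

/-- twice the angle -/
def ang (p : ℝ × ℝ) : ℝ := 2 * (p.1 - p.2)

lemma ang_cont : Continuous ang := by unfold ang; fun_prop

lemma qq_cos (k : ℕ) (p : ℝ × ℝ) : qq ea (2 * k) p = Real.cos (k * ang p) := by
  unfold qq ea
  have e1 : (I * Complex.exp (-(p.1 : ℂ) * I) * (starRingEnd ℂ) (I * Complex.exp (-(p.2 : ℂ) * I)))
      = Complex.exp (((-(p.1 - p.2) : ℝ) : ℂ) * I) := by
    rw [map_mul, ← Complex.exp_conj, Complex.conj_I]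
    rw [map_mul, map_neg, Complex.conj_I, Complex.conj_ofReal]
    have : Complex.exp (((-(p.1 - p.2) : ℝ) : ℂ) * I) =
        Complex.exp (-(p.1 : ℂ) * I) * Complex.exp (-(p.2 : ℂ) * -I) := by
      rw [← Complex.exp_add]
      congr 1
      push_cast
      ring
    rw [this]
    linear_combination (-Complex.exp (-(p.1 : ℂ) * I) * Complex.exp (-(p.2 : ℂ) * -I)) *
      Complex.I_mul_I
  rw [e1, ← Complex.exp_nat_mul]
  have e2 : ((2 * k : ℕ) : ℂ) * (((-(p.1 - p.2) : ℝ) : ℂ) * I) =
      ((-(k * ang p) : ℝ) : ℂ) * I := by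
    unfold ang
    push_cast
    ring
  rw [e2, Complex.exp_ofReal_mul_I_re, Real.cos_neg]

lemma PS_iff (p : ℝ × ℝ) : p ∈ PS ea ↔ Real.cos (ang p) = 1 := by
  rw [ea_par]
  show Real.sin (p.1 - p.2) = 0 ↔ _
  unfold ang
  rw [Real.cos_two_mul]
  constructor
  · intro h
    have := Real.sin_sq_add_cos_sq (p.1 - p.2)
    rw [h] at this
    nlinarith
  · intro h
    have := Real.sin_sq_add_cos_sq (p.1 - p.2)
    have h2 : Real.sin (p.1 - p.2) ^ 2 = 0 := by nlinarith
    exact pow_eq_zero_iff (two_ne_zero) |>.1 h2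

/-! ### cosine polynomials -/

/-- cosine polynomials -/
def CF (g : ℝ → ℝ) : Prop := ∃ (a : ℕ → ℝ) (K : ℕ), 0 < K ∧
  ∀ θ, g θ = ∑ k ∈ Finset.range K, a k * Real.cos (k * θ)

lemma sum_ext' (a : ℕ → ℝ) {K K' : ℕ} (h : K ≤ K') (θ : ℝ) :
    ∑ k ∈ Finset.range K, a k * Real.cos (k * θ) =
      ∑ k ∈ Finset.range K', (if k < K then a k else 0) * Real.cos (k * θ) := by
  rw [← Finset.sum_subset (Finset.range_mono h)
    (f := fun k : ℕ => (if k < K then a k else 0) * Real.cos (k * θ))]
  · refine Finset.sum_congr rfl fun k hk => ?_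
    rw [if_pos (Finset.mem_range.1 hk)]
  · intro k _ hk
    rw [if_neg (by simpa using hk), zero_mul]

lemma CF.add {g g' : ℝ → ℝ} (h : CF g) (h' : CF g') : CF fun θ => g θ + g' θ := by
  obtain ⟨a, K, hK, ha⟩ := h
  obtain ⟨a', K', hK', ha'⟩ := h'
  refine ⟨fun k => (if k < K then a k else 0) + (if k < K' then a' k else 0), max K K',
    lt_max_of_lt_left hK, fun θ => ?_⟩
  show g θ + g' θ = _
  rw [ha, ha', sum_ext' a (le_max_left K K'), sum_ext' a' (le_max_right K K'),
    ← Finset.sum_add_distrib]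
  refine Finset.sum_congr rfl fun k _ => ?_
  ring

lemma CF.single (c : ℝ) (j : ℕ) : CF fun θ => c * Real.cos (j * θ) := by
  refine ⟨fun i => if i = j then c else 0, j + 1, Nat.succ_pos j, fun θ => ?_⟩
  simp only [ite_mul, zero_mul]
  rw [Finset.sum_ite_eq', if_pos (Finset.mem_range.2 (Nat.lt_succ_self j))]

lemma CF.sum {ι : Type*} (s : Finset ι) {g : ι → ℝ → ℝ} (h : ∀ i, CF (g i)) :
    CF fun θ => ∑ i ∈ s, g i θ := by
  classical
  induction s using Finset.induction_on with
  | empty =>
    have := CF.single 0 0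
    simpa using this
  | insert i s hi ih =>
    simp only [Finset.sum_insert hi]
    exact (h i).add ih

lemma CF.mulcos {g : ℝ → ℝ} (h : CF g) : CF fun θ => g θ * Real.cos θ := by
  obtain ⟨a, K, hK, ha⟩ := h
  have h1 : ∀ k : ℕ, CF fun θ => a k / 2 * Real.cos ((k + 1 : ℕ) * θ) +
      a k / 2 * Real.cos (((k : ℤ) - 1).natAbs * θ) := fun k => (CF.single _ _).add (CF.single _ _)
  have h2 := CF.sum (Finset.range K) h1
  have e : (fun θ => g θ * Real.cos θ) = fun θ => ∑ k ∈ Finset.range K,
      (a k / 2 * Real.cos ((k + 1 : ℕ) * θ) + a k / 2 * Real.cos (((k : ℤ) - 1).natAbs * θ)) := by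
    funext θ
    rw [ha, Finset.sum_mul]
    refine Finset.sum_congr rfl fun k _ => ?_
    have h3 : Real.cos (((k : ℤ) - 1).natAbs * θ) = Real.cos ((k : ℝ) * θ - θ) := by
      rcases Nat.eq_zero_or_pos k with h0 | h0
      · subst h0
        simp
      · have : (((k : ℤ) - 1).natAbs : ℝ) = (k : ℝ) - 1 := by
          have h4 : (((k : ℤ) - 1).natAbs : ℤ) = (k : ℤ) - 1 := by omega
          have h5 : ((((k : ℤ) - 1).natAbs : ℤ) : ℝ) = (((k : ℤ) - 1 : ℤ) : ℝ) := by rw [h4]
          rw [Int.cast_natCast] at h5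
          rw [h5]
          push_cast
          ring
        rw [this]
        congr 1
        ring
    have h4 : Real.cos ((k + 1 : ℕ) * θ) = Real.cos ((k : ℝ) * θ + θ) := by
      congr 1
      push_cast
      ring
    rw [h3, h4, Real.cos_add, Real.cos_sub]
    ring
  rw [e]
  exact h2

lemma CF.poly (q : Polynomial ℝ) : CF fun θ => q.eval (Real.cos θ) := by
  induction q using Polynomial.induction_on with
  | C c =>
    have := CF.single c 0
    simpa using this
  | add p q hp hq =>
    simp only [Polynomial.eval_add]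
    exact hp.add hq
  | monomial n c h =>
    have h1 := h.mulcos
    have e : (fun θ => (Polynomial.C c * Polynomial.X ^ (n + 1)).eval (Real.cos θ)) =
        fun θ => (Polynomial.C c * Polynomial.X ^ n).eval (Real.cos θ) * Real.cos θ := by
      funext θ
      simp only [Polynomial.eval_mul, Polynomial.eval_C, Polynomial.eval_pow, Polynomial.eval_X]
      ring
    rw [e]
    exact h1

/-! ### the uniform law -/

lemma un_cm {k : ℕ} (hk : 0 < k) : cm ea un (2 * k) = 0 := by
  have h1 := un_Ev (-(k : ℤ)) (by omega)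
  unfold cm ea
  have e : ∀ α : ℝ, (I * Complex.exp (-(α : ℂ) * I)) ^ (2 * k) =
      I ^ (2 * k) * Complex.exp (2 * ((-(k : ℤ) : ℤ) : ℂ) * α * I) := by
    intro α
    rw [mul_pow, ← Complex.exp_nat_mul]
    congr 2
    push_cast
    ring
  simp only [e]
  rw [integral_const_mul, h1, mul_zero]

lemma un_Ec {s : ℤ} (hs : Even s) : Ec un s = E0 s := by
  rw [Ec_abs un hs]
  unfold E0
  obtain ⟨j, hj⟩ := (Int.natAbs_even.2 hs)
  by_cases h0 : s = 0
  · subst h0
    simp [cm]
  · rw [if_neg h0]
    have hj2 : s.natAbs = 2 * j := by omega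
    have hj0 : 0 < j := by
      have := Int.natAbs_pos.2 h0
      omega
    rw [hj2, un_cm hj0]
    simp

lemma un_Gn (b : ℕ → ℝ) (M : ℕ) : Gn un b M = Gm b M := by
  unfold Gn Gm gg
  refine Finset.sum_congr rfl fun i _ => Finset.sum_congr rfl fun l _ => ?_
  rw [un_Ec ((even_two_mul _).add (even_two_mul _)), un_Ec ((even_two_mul _).sub (even_two_mul _))]

/-- the law of the cosine of twice the angle between two independent uniform directions -/
def lun : Measure ℝ := (un.prod un).map fun p => Real.cos (ang p)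

lemma cang_meas : Measurable fun p : ℝ × ℝ => Real.cos (ang p) :=
  (Real.continuous_cos.comp ang_cont).measurable

instance : IsProbabilityMeasure lun :=
  Measure.isProbabilityMeasure_map cang_meas.aemeasurable

lemma lun_int {g : ℝ → ℝ} (hg : Continuous g) :
    ∫ x, g x ∂lun = ∫ p, g (Real.cos (ang p)) ∂(un.prod un) :=
  integral_map cang_meas.aemeasurable hg.aestronglyMeasurable

end

end Pool.Agent.K3h40.EC
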