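import Pool.Agent.K3h40.EC.G1

/-! Stationary solutions with finite second moment: domination of the law of the angle between two
independent directions of the same component (helper40). -/

set_option autoImplicit false

open MeasureTheory Filter Topology Complex ProbabilityTheory
open scoped ENNReal

namespace Pool.Agent.K3h40.EC

open Pool.Agent.W745.RW Pool.Agent.R989.Erg
open Pool.Agent.TH294.RG (ea ea_meas ea_norm ea_par qq qq_bd qq_meas cm cm_sq cm_pair cm_meas
  par PS PS_meas cesre zn)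
open Pool.Agent.Results.MP_6b977f_mp.FourPointFunctions (cov gauss parallel)

noncomputable section

variable {S : Type*} [MeasurableSpace S] {P : Measure S} {m : S → ℝ} {ν : Kernel S ℝ}
  [IsMarkovKernel ν]

lemma fat (hm : AEMeasurable m P) {h : ℕ → ℝ × ℝ → ℝ} {h' : ℝ × ℝ → ℝ}
    (hh : ∀ n, Measurable (h n)) {C : ℝ} (hb : ∀ n p, |h n p| ≤ C)
    (hl : ∀ p, Tendsto (fun n => h n p) atTop (𝓝 (h' p))) {c : ℕ → ℝ≥0∞} {c' : ℝ≥0∞}
    (hc : ∀ n, ∫⁻ s, ENNReal.ofReal (m s ^ 2 * ∫ p, h n p ∂((ν s).prod (ν s))) ∂P ≤ c n)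
    (hcl : liminf c atTop ≤ c') :
    ∫⁻ s, ENNReal.ofReal (m s ^ 2 * ∫ p, h' p ∂((ν s).prod (ν s))) ∂P ≤ c' := by
  have h1 : ∀ s, ENNReal.ofReal (m s ^ 2 * ∫ p, h' p ∂((ν s).prod (ν s))) =
      liminf (fun n => ENNReal.ofReal (m s ^ 2 * ∫ p, h n p ∂((ν s).prod (ν s)))) atTop := by
    intro s
    have h2 : Tendsto (fun n => ∫ p, h n p ∂((ν s).prod (ν s))) atTop
        (𝓝 (∫ p, h' p ∂((ν s).prod (ν s)))) :=
      tendsto_integral_of_dominated_convergence (fun _ => C)
        (fun n => (hh n).aestronglyMeasurable) (integrable_const _)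
        (fun n => ae_of_all _ fun p => hb n p) (ae_of_all _ hl)
    exact ((ENNReal.continuous_ofReal.tendsto _).comp (h2.const_mul (m s ^ 2))).liminf_eq.symm
  simp only [h1]
  refine (lintegral_liminf_le' fun n => ?_).trans ((liminf_le_liminf
    (Eventually.of_forall hc)).trans hcl)
  refine ENNReal.measurable_ofReal.comp_aemeasurable ((hm.pow_const 2).mul ?_)
  have h3 : StronglyMeasurable fun s => ∫ p, h n p ∂((ν ×ₖ ν) s) :=
    StronglyMeasurable.integral_kernel (hh n).stronglyMeasurable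
  have e : (fun s => ∫ p, h n p ∂((ν ×ₖ ν) s)) = fun s => ∫ p, h n p ∂((ν s).prod (ν s)) := by
    funext s
    rw [Kernel.prod_apply]
  rw [e] at h3
  exact h3.measurable.aemeasurable

/-- the weight of a function of the cosine of twice the angle -/
def wf (g : ℝ → ℝ) (p : ℝ × ℝ) : ℝ := (PS ea)ᶜ.indicator (fun p => g (Real.cos (ang p)) ^ 2) p

lemma wf_meas {g : ℝ → ℝ} (hg : Continuous g) : Measurable (wf g) :=
  ((hg.measurable.comp cang_meas).pow_const 2).indicator (PS_meas ea_meas).compl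

/-- the general inequality, for functions -/
def Dom (P : Measure S) (m : S → ℝ) (ν : Kernel S ℝ) (g : ℝ → ℝ) : Prop :=
  ∫⁻ s, ENNReal.ofReal (m s ^ 2 * ∫ p, wf g p ∂((ν s).prod (ν s))) ∂P ≤
    ENNReal.ofReal (∫ p, g (Real.cos (ang p)) ^ 2 ∂(un.prod un))

lemma dom_poly
    (hgen : ∀ (a : ℕ → ℝ) {K : ℕ}, 0 < K → ∫⁻ s, ENNReal.ofReal (m s ^ 2 * GT (ν s) a K) ∂P ≤
      ENNReal.ofReal (a 0 ^ 2 + ∑ k ∈ Finset.range K, a k ^ 2)) (q : Polynomial ℝ) :
    Dom P m ν (fun x => q.eval x) := by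
  obtain ⟨a, K, hK, ha⟩ := CF.poly q
  have hT : ∀ p, TP a K p = q.eval (Real.cos (ang p)) := by
    intro p
    unfold TP
    refine Eq.trans ?_ (ha (ang p)).symm
    refine Finset.sum_congr rfl fun k _ => ?_
    rw [qq_cos]
  have h1 := hgen a hK
  have e1 : a 0 ^ 2 + ∑ k ∈ Finset.range K, a k ^ 2 =
      2 * ∫ p, q.eval (Real.cos (ang p)) ^ 2 ∂(un.prod un) := by
    obtain ⟨K', rfl⟩ := Nat.exists_eq_succ_of_ne_zero hK.ne'
    rw [Nat.succ_eq_add_one, ← Gm_eq, ← un_Gn, Gn_int, ← integral_const_mul]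
    simp only [hT]
  have e2 : ∀ s, m s ^ 2 * GT (ν s) a K =
      2 * (m s ^ 2 * ∫ p, wf (fun x => q.eval x) p ∂((ν s).prod (ν s))) := by
    intro s
    unfold GT wf
    simp only [hT]
    rw [integral_indicator (PS_meas ea_meas).compl, integral_const_mul]
    ring
  simp only [e2, e1, ENNReal.ofReal_mul (show (0 : ℝ) ≤ 2 by norm_num)] at h1
  rw [lintegral_const_mul' _ _ ENNReal.ofReal_ne_top] at h1
  exact (ENNReal.mul_le_mul_iff_right (by norm_num) ENNReal.ofReal_ne_top).1 h1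

lemma cc_mem (p : ℝ × ℝ) : Real.cos (ang p) ∈ Set.Icc (-1 : ℝ) 1 :=
  ⟨Real.neg_one_le_cos _, Real.cos_le_one _⟩

lemma dom_cont (hm : AEMeasurable m P)
    (hgen : ∀ (a : ℕ → ℝ) {K : ℕ}, 0 < K → ∫⁻ s, ENNReal.ofReal (m s ^ 2 * GT (ν s) a K) ∂P ≤
      ENNReal.ofReal (a 0 ^ 2 + ∑ k ∈ Finset.range K, a k ^ 2)) {g : ℝ → ℝ} (hg : Continuous g) :
    Dom P m ν g := by
  have h1 : ∀ n : ℕ, ∃ q : Polynomial ℝ, ∀ x ∈ Set.Icc (-1 : ℝ) 1,
      |q.eval x - g x| < 1 / ((n : ℝ) + 1) := fun n =>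
    exists_polynomial_near_of_continuousOn (-1) 1 g hg.continuousOn _ Nat.one_div_pos_of_nat
  choose q hq using h1
  obtain ⟨C, hC⟩ := (isCompact_Icc (a := (-1 : ℝ)) (b := 1)).exists_bound_of_continuousOn
    hg.continuousOn
  have hC0 : 0 ≤ C := (norm_nonneg _).trans (hC 0 ⟨by norm_num, by norm_num⟩)
  have hqb : ∀ n p, |(q n).eval (Real.cos (ang p)) ^ 2| ≤ (C + 1) ^ 2 := by
    intro n p
    rw [abs_pow]
    have h2 := hq n _ (cc_mem p)
    have h3 := hC _ (cc_mem p)
    rw [Real.norm_eq_abs] at h3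
    have h4 : 1 / ((n : ℝ) + 1) ≤ 1 := by
      rw [div_le_one (by positivity)]
      have : (0 : ℝ) ≤ n := Nat.cast_nonneg n
      linarith
    have h5 : |(q n).eval (Real.cos (ang p))| ≤ C + 1 := by
      have h6 := abs_sub_abs_le_abs_sub ((q n).eval (Real.cos (ang p))) (g (Real.cos (ang p)))
      linarith
    exact pow_le_pow_left₀ (abs_nonneg _) h5 2
  have hql : ∀ p, Tendsto (fun n => (q n).eval (Real.cos (ang p)) ^ 2) atTop
      (𝓝 (g (Real.cos (ang p)) ^ 2)) := by
    intro p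
    refine Tendsto.pow ?_ 2
    rw [tendsto_iff_norm_sub_tendsto_zero]
    refine squeeze_zero (fun n => norm_nonneg _) (fun n => (hq n _ (cc_mem p)).le) ?_
    exact tendsto_one_div_add_atTop_nhds_zero_nat
  refine fat hm (h := fun n => wf fun x => (q n).eval x) (C := (C + 1) ^ 2)
    (c := fun n => ENNReal.ofReal (∫ p, (q n).eval (Real.cos (ang p)) ^ 2 ∂(un.prod un)))
    (fun n => wf_meas (q n).continuous) (fun n p => ?_) (fun p => ?_) (fun n => ?_) ?_
  · unfold wf
    by_cases hp : p ∈ (PS ea)ᶜ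
    · rw [Set.indicator_of_mem hp]
      exact hqb n p
    · rw [Set.indicator_of_notMem hp, abs_zero]
      positivity
  · unfold wf
    by_cases hp : p ∈ (PS ea)ᶜ
    · simp only [Set.indicator_of_mem hp]
      exact hql p
    · simp only [Set.indicator_of_notMem hp]
      exact tendsto_const_nhds
  · exact dom_poly hgen (q n)
  · have h2 : Tendsto (fun n => ∫ p, (q n).eval (Real.cos (ang p)) ^ 2 ∂(un.prod un)) atTop
        (𝓝 (∫ p, g (Real.cos (ang p)) ^ 2 ∂(un.prod un))) :=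
      tendsto_integral_of_dominated_convergence (fun _ => (C + 1) ^ 2)
        (fun n => (((q n).continuous.measurable.comp cang_meas).pow_const 2).aestronglyMeasurable)
        (integrable_const _) (fun n => ae_of_all _ fun p => hqb n p) (ae_of_all _ hql)
    exact ((ENNReal.continuous_ofReal.tendsto _).comp h2).liminf_eq.le

lemma lun_real {B : Set ℝ} (hB : MeasurableSet B) :
    lun B = (un.prod un) {p | Real.cos (ang p) ∈ B} := by
  unfold lun
  rw [Measure.map_apply cang_meas hB]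
  rfl

lemma dom_open (hm : AEMeasurable m P)
    (hgen : ∀ (a : ℕ → ℝ) {K : ℕ}, 0 < K → ∫⁻ s, ENNReal.ofReal (m s ^ 2 * GT (ν s) a K) ∂P ≤
      ENNReal.ofReal (a 0 ^ 2 + ∑ k ∈ Finset.range K, a k ^ 2)) {U : Set ℝ} (hU : IsOpen U)
    (h1 : (1 : ℝ) ∉ U) :
    ∫⁻ s, ENNReal.ofReal (m s ^ 2) * ((ν s).prod (ν s)) {p | Real.cos (ang p) ∈ U} ∂P ≤
      lun U := by
  have hne : Uᶜ.Nonempty := ⟨1, h1⟩
  set g : ℕ → ℝ → ℝ := fun n x => min 1 ((n : ℝ) * Metric.infDist x Uᶜ) with hg
  have gc : ∀ n, Continuous (g n) := fun n =>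
    continuous_const.min (continuous_const.mul (Metric.continuous_infDist_pt _))
  have g0 : ∀ n x, 0 ≤ g n x := fun n x =>
    le_min zero_le_one (mul_nonneg (Nat.cast_nonneg n) Metric.infDist_nonneg)
  have g1 : ∀ n x, g n x ≤ 1 := fun n x => min_le_left _ _
  have gz : ∀ n x, x ∉ U → g n x = 0 := fun n x hx => by
    have : Metric.infDist x Uᶜ = 0 := Metric.infDist_zero_of_mem hx
    simp [hg, this]
  have gl : ∀ x, Tendsto (fun n => g n x ^ 2) atTop (𝓝 (U.indicator (fun _ => 1) x)) := by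
    intro x
    by_cases hx : x ∈ U
    · rw [Set.indicator_of_mem hx]
      have hd : 0 < Metric.infDist x Uᶜ :=
        (hU.isClosed_compl.notMem_iff_infDist_pos hne).1 (by simpa using hx)
      refine tendsto_const_nhds.congr' ?_
      have h2 : Tendsto (fun n : ℕ => (n : ℝ) * Metric.infDist x Uᶜ) atTop atTop :=
        tendsto_natCast_atTop_atTop.atTop_mul_const hd
      filter_upwards [h2.eventually_ge_atTop 1] with n hn
      simp only [hg]
      rw [min_eq_left hn, one_pow]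
    · rw [Set.indicator_of_notMem hx]
      refine tendsto_const_nhds.congr fun n => ?_
      rw [gz n x hx]
      norm_num
  have key := fat (P := P) (ν := ν) hm (h := fun n => wf (g n)) (C := 1)
    (h' := fun p => U.indicator (fun _ => 1) (Real.cos (ang p)))
    (c := fun n => ENNReal.ofReal (∫ p, g n (Real.cos (ang p)) ^ 2 ∂(un.prod un)))
    (c' := lun U) (fun n => wf_meas (gc n)) (fun n p => ?_) (fun p => ?_)
    (fun n => dom_cont hm hgen (gc n)) ?_
  · refine le_trans (le_of_eq ?_) key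
    refine lintegral_congr fun s => ?_
    have hms : MeasurableSet {p : ℝ × ℝ | Real.cos (ang p) ∈ U} := cang_meas hU.measurableSet
    have e : ∫ p, U.indicator (fun _ => (1 : ℝ)) (Real.cos (ang p)) ∂((ν s).prod (ν s)) =
        (((ν s).prod (ν s)) {p | Real.cos (ang p) ∈ U}).toReal := by
      have e2 : (fun p : ℝ × ℝ => U.indicator (fun _ => (1 : ℝ)) (Real.cos (ang p))) =
          {p : ℝ × ℝ | Real.cos (ang p) ∈ U}.indicator fun _ => 1 := by
        funext p
        by_cases hp : Real.cos (ang p) ∈ U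
        · rw [Set.indicator_of_mem hp, Set.indicator_of_mem (show p ∈ {p : ℝ × ℝ |
            Real.cos (ang p) ∈ U} from hp)]
        · rw [Set.indicator_of_notMem hp, Set.indicator_of_notMem (show p ∉ {p : ℝ × ℝ |
            Real.cos (ang p) ∈ U} from hp)]
      rw [e2, integral_indicator hms]
      simp [measureReal_def]
    rw [e, ENNReal.ofReal_mul (sq_nonneg _), ENNReal.ofReal_toReal (measure_ne_top _ _)]
  · unfold wf
    by_cases hp : p ∈ (PS ea)ᶜ
    · rw [Set.indicator_of_mem hp, abs_pow, abs_of_nonneg (g0 n _)]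
      exact pow_le_one₀ (g0 n _) (g1 n _)
    · rw [Set.indicator_of_notMem hp, abs_zero]
      norm_num
  · unfold wf
    by_cases hp : p ∈ (PS ea)ᶜ
    · simp only [Set.indicator_of_mem hp]
      exact gl _
    · simp only [Set.indicator_of_notMem hp]
      have h2 : Real.cos (ang p) = 1 := (PS_iff p).1 (by simpa using hp)
      rw [h2, Set.indicator_of_notMem h1]
      exact tendsto_const_nhds
  · have h2 : ∀ n, ENNReal.ofReal (∫ p, g n (Real.cos (ang p)) ^ 2 ∂(un.prod un)) ≤ lun U := by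
      intro n
      have hms : MeasurableSet {p : ℝ × ℝ | Real.cos (ang p) ∈ U} := cang_meas hU.measurableSet
      rw [lun_real hU.measurableSet]
      refine ENNReal.ofReal_le_of_le_toReal ?_
      have e : (((un.prod un) {p : ℝ × ℝ | Real.cos (ang p) ∈ U})).toReal =
          ∫ p, {p : ℝ × ℝ | Real.cos (ang p) ∈ U}.indicator (fun _ => (1 : ℝ)) p
            ∂(un.prod un) := by
        rw [integral_indicator hms]
        simp [measureReal_def]
      rw [e]
      refine integral_mono ?_ ?_ fun p => ?_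
      · refine Integrable.of_bound (C := 1)
          (((gc n).measurable.comp cang_meas).pow_const 2).aestronglyMeasurable
          (ae_of_all _ fun p => ?_)
        show ‖g n (Real.cos (ang p)) ^ 2‖ ≤ 1
        rw [Real.norm_eq_abs, abs_pow, abs_of_nonneg (g0 n _)]
        exact pow_le_one₀ (g0 n _) (g1 n _)
      · exact (integrable_const _).indicator hms
      · by_cases hp : Real.cos (ang p) ∈ U
        · rw [Set.indicator_of_mem (show p ∈ {p : ℝ × ℝ | Real.cos (ang p) ∈ U} from hp)]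
          exact pow_le_one₀ (g0 n _) (g1 n _)
        · rw [Set.indicator_of_notMem (show p ∉ {p : ℝ × ℝ | Real.cos (ang p) ∈ U} from hp)]
          simp only [gz n _ hp]
          norm_num
    exact (liminf_le_liminf (Eventually.of_forall h2)).trans (by simp)

/-- **Domination.** -/
theorem dom (hm : AEMeasurable m P)
    (hgen : ∀ (a : ℕ → ℝ) {K : ℕ}, 0 < K → ∫⁻ s, ENNReal.ofReal (m s ^ 2 * GT (ν s) a K) ∂P ≤
      ENNReal.ofReal (a 0 ^ 2 + ∑ k ∈ Finset.range K, a k ^ 2)) {B : Set ℝ} (hB : MeasurableSet B)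
    (h1 : (1 : ℝ) ∉ B) :
    ∫⁻ s, ENNReal.ofReal (m s ^ 2) * ((ν s).prod (ν s)) {p | Real.cos (ang p) ∈ B} ∂P ≤
      (un.prod un) {p | Real.cos (ang p) ∈ B} := by
  rw [← lun_real hB]
  refine ENNReal.le_of_forall_pos_le_add fun ε hε _ => ?_
  obtain ⟨U, hBU, hU, hle⟩ := B.exists_isOpen_le_add lun
    (ε := (ε : ℝ≥0∞)) (by exact_mod_cast hε.ne')
  have hU' : IsOpen (U ∩ {1}ᶜ) := hU.inter isOpen_compl_singleton
  have h2 := dom_open hm hgen hU' (fun h => h.2 rfl)
  calc ∫⁻ s, ENNReal.ofReal (m s ^ 2) * ((ν s).prod (ν s)) {p | Real.cos (ang p) ∈ B} ∂P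
      ≤ ∫⁻ s, ENNReal.ofReal (m s ^ 2) *
          ((ν s).prod (ν s)) {p | Real.cos (ang p) ∈ U ∩ {1}ᶜ} ∂P := by
        refine lintegral_mono fun s => mul_le_mul_right (measure_mono fun p hp => ?_) _
        exact ⟨hBU hp, fun h => h1 (h ▸ hp)⟩
    _ ≤ lun (U ∩ {1}ᶜ) := h2
    _ ≤ lun U := measure_mono Set.inter_subset_left
    _ ≤ lun B + ε := hle

end

end Pool.Agent.K3h40.EC
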