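import Pool.Agent.K3h40.EC.S
import Pool.Agent.W924.RW.WP
import Pool.Agent.W98.RW.Bds
import Pool.Agent.Y265.RW.U

/-! The normalised derivatives of a solution as integrals against derivatives of the mollifier
(helper40). -/

set_option autoImplicit false
open MeasureTheory Filter Topology Complex
open scoped ContDiff

namespace Pool.Agent.K3h40.EC

open Pool.Agent.W745.RW
open Pool.Agent.W924.RW.WP (P P_Dp DmDp base Dp_smooth)

noncomputable section

/-- the affine map -/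
def af (z₀ : ℂ) (h : ℝ) (w : ℂ) : ℂ := z₀ + (h : ℂ) * w

lemma af_smooth (z₀ : ℂ) (h : ℝ) : ContDiff ℝ ∞ (af z₀ h) := by
  unfold af
  exact contDiff_const.add (contDiff_const.mul contDiff_id)

lemma af_der (z₀ : ℂ) (h : ℝ) (w : ℂ) :
    HasFDerivAt (af z₀ h) (h • ContinuousLinearMap.id ℝ ℂ) w := by
  have e : af z₀ h = fun w : ℂ => z₀ + h • w := by
    funext w
    rw [af, Complex.real_smul]
  rw [e]
  exact ((hasFDerivAt_id w).const_smul h).const_add z₀

lemma fd_af {F : Type*} [NormedAddCommGroup F] [NormedSpace ℝ F] {g : ℂ → F} {z₀ : ℂ} {h : ℝ}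
    {w : ℂ} (hg : DifferentiableAt ℝ g (af z₀ h w)) (v : ℂ) :
    fderiv ℝ (fun w => g (af z₀ h w)) w v = h • fderiv ℝ g (af z₀ h w) v := by
  have h2 := (hg.hasFDerivAt.comp w (af_der z₀ h w)).fderiv
  have h3 : fderiv ℝ (fun w => g (af z₀ h w)) w =
      (fderiv ℝ g (af z₀ h w)).comp (h • ContinuousLinearMap.id ℝ ℂ) := h2
  rw [h3]
  simp

lemma lap_af {Ω : Set ℂ} (hΩ : IsOpen Ω) {g : ℂ → ℝ} (hg : ContDiffOn ℝ ∞ g Ω) {z₀ : ℂ} {h : ℝ}
    {w : ℂ} (hw : af z₀ h w ∈ Ω) :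
    lap (fun w => g (af z₀ h w)) w = h ^ 2 * lap g (af z₀ h w) := by
  have ev : ∀ᶠ y in 𝓝 w, af z₀ h y ∈ Ω :=
    (af_smooth z₀ h).continuous.continuousAt.eventually (hΩ.mem_nhds hw)
  have k : ∀ v : ℂ, fderiv ℝ (fun y => fderiv ℝ (fun w => g (af z₀ h w)) y v) w v =
      h ^ 2 * fderiv ℝ (fun y => fderiv ℝ g y v) (af z₀ h w) v := by
    intro v
    have e1 : (fun y => fderiv ℝ (fun w => g (af z₀ h w)) y v) =ᶠ[𝓝 w]
        fun y => h • (fun y => fderiv ℝ g y v) (af z₀ h y) := by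
      filter_upwards [ev] with y hy
      exact fd_af (Pool.Agent.W924.RW.WP.diffAt hΩ hg hy) v
    have d2 : DifferentiableAt ℝ (fun y => fderiv ℝ g y v) (af z₀ h w) :=
      Pool.Agent.W924.RW.WP.diffAt hΩ (Pool.Agent.W98.RW.cd_fderiv hΩ hg v) hw
    have d3 : DifferentiableAt ℝ (fun y => (fun y => fderiv ℝ g y v) (af z₀ h y)) w :=
      d2.comp w (af_der z₀ h w).differentiableAt
    rw [e1.fderiv_eq, fderiv_fun_const_smul d3]
    rw [smul_apply, fd_af (g := fun y => fderiv ℝ g y v) d2, smul_eq_mul, smul_eq_mul]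
    ring
  have k1 := k 1
  have k2 := k I
  simp only [lap, dx, dy] at *
  have e1 : fderiv ℝ (dx fun w => g (af z₀ h w)) w 1 =
      fderiv ℝ (fun y => fderiv ℝ (fun w => g (af z₀ h w)) y 1) w 1 := rfl
  have e2 : fderiv ℝ (dy fun w => g (af z₀ h w)) w I =
      fderiv ℝ (fun y => fderiv ℝ (fun w => g (af z₀ h w)) y I) w I := rfl
  have e3 : fderiv ℝ (dx g) (af z₀ h w) 1 = fderiv ℝ (fun y => fderiv ℝ g y 1) (af z₀ h w) 1 := rfl
  have e4 : fderiv ℝ (dy g) (af z₀ h w) I = fderiv ℝ (fun y => fderiv ℝ g y I) (af z₀ h w) I := rfl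
  rw [e1, e2, e3, e4, k1, k2]
  ring

/-- the disc of radius `h` -/
def Dc (Ω : Set ℂ) (z₀ : ℂ) (h : ℝ) : Prop := Metric.closedBall z₀ h ⊆ Ω

lemma Dc.mem {Ω : Set ℂ} {z₀ : ℂ} {h : ℝ} (hh : 0 < h) (H : Dc Ω z₀ h) {w : ℂ} (hw : ‖w‖ ≤ 1) :
    af z₀ h w ∈ Ω := by
  refine H ?_
  rw [Metric.mem_closedBall, dist_eq_norm, af, add_sub_cancel_left, norm_mul, Complex.norm_real,
    Real.norm_of_nonneg hh.le]
  exact mul_le_of_le_one_right hh.le hw

/-- reproduction of a real solution -/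
theorem repR {Ω : Set ℂ} (hΩ : IsOpen Ω) {g : ℂ → ℝ} (hg : ContDiffOn ℝ ∞ g Ω) {h : ℝ}
    (hh : 0 < h) (he : ∀ z ∈ Ω, h ^ 2 * lap g z + g z = 0) {z₀ : ℂ} (H : Dc Ω z₀ h) :
    ∫ w, g (af z₀ h w) * psi w = g z₀ := by
  have hK : IsCompact (Metric.closedBall z₀ h) := isCompact_closedBall _ _
  obtain ⟨δ, hδ, hδΩ⟩ := hK.exists_cthickening_subset_open hΩ H
  have hK' : IsCompact (Metric.cthickening δ (Metric.closedBall z₀ h)) := hK.cthickening
  obtain ⟨θ, hθ, hθ0, hθ1, hθK⟩ := Pool.Agent.Y265.RW.cutoff hΩ hK' hδΩ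
  have hsm : ContDiff ℝ ∞ fun z => θ z * g z := by
    rw [contDiff_iff_contDiffAt]
    intro z
    by_cases hz : z ∈ Ω
    · exact hθ.1.contDiffAt.mul (hg.contDiffAt (hΩ.mem_nhds hz))
    · have h1 : z ∉ tsupport θ := fun hc => hz (hθ.2.2 hc)
      have h2 : (fun z => θ z * g z) =ᶠ[𝓝 z] fun _ => 0 := by
        filter_upwards [notMem_tsupport_iff_eventuallyEq.1 h1] with y hy
        rw [hy]; simp
      exact contDiffAt_const.congr_of_eventuallyEq h2
  have hv : ContDiff ℝ ∞ fun w => θ (af z₀ h w) * g (af z₀ h w) := hsm.comp (af_smooth z₀ h)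
  have hin : ∀ w : ℂ, ‖w‖ < 1 + δ / h → af z₀ h w ∈ Metric.thickening δ (Metric.closedBall z₀ h) := by
    intro w hw
    rw [Metric.mem_thickening_iff]
    by_cases hw1 : ‖w‖ ≤ 1
    · refine ⟨af z₀ h w, ?_, by simpa using hδ⟩
      rw [Metric.mem_closedBall, dist_eq_norm, af, add_sub_cancel_left, norm_mul,
        Complex.norm_real, Real.norm_of_nonneg hh.le]
      exact mul_le_of_le_one_right hh.le hw1
    · push Not at hw1
      have hw0 : (0 : ℝ) < ‖w‖ := by linarith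
      refine ⟨af z₀ h ((‖w‖⁻¹ : ℝ) • w), ?_, ?_⟩
      · rw [Metric.mem_closedBall, dist_eq_norm, af, add_sub_cancel_left, norm_mul,
          Complex.norm_real, Real.norm_of_nonneg hh.le, norm_smul, Real.norm_of_nonneg
          (by positivity), inv_mul_cancel₀ hw0.ne', mul_one]
      · rw [dist_eq_norm]
        have e1 : af z₀ h w - af z₀ h ((‖w‖⁻¹ : ℝ) • w) = ((h * (1 - ‖w‖⁻¹) : ℝ) : ℂ) * w := by
          simp only [af, Complex.real_smul]
          push_cast
          ring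
        rw [e1, norm_mul, Complex.norm_real, Real.norm_of_nonneg
          (mul_nonneg hh.le (by rw [sub_nonneg]; exact inv_le_one_of_one_le₀ hw1.le))]
        have e2 : h * (1 - ‖w‖⁻¹) * ‖w‖ = h * (‖w‖ - 1) := by field_simp
        rw [e2]
        have : ‖w‖ - 1 < δ / h := by linarith
        rwa [lt_div_iff₀ hh, mul_comm] at this
  have key := rep (a := 1 + δ / h) (by have := div_pos hδ hh; linarith) hv (fun w hw => by
    have h1 := hin w hw
    have hwΩ : af z₀ h w ∈ Ω := hδΩ (Metric.thickening_subset_cthickening _ _ h1)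
    have ev : (fun w => θ (af z₀ h w) * g (af z₀ h w)) =ᶠ[𝓝 w] fun w => g (af z₀ h w) := by
      have h2 : ∀ᶠ y in 𝓝 w, af z₀ h y ∈ Metric.thickening δ (Metric.closedBall z₀ h) :=
        (af_smooth z₀ h).continuous.continuousAt.eventually (Metric.isOpen_thickening.mem_nhds h1)
      filter_upwards [h2] with y hy
      rw [hθK _ (Metric.thickening_subset_cthickening _ _ hy), one_mul]
    have e3 : lap (fun w => θ (af z₀ h w) * g (af z₀ h w)) w = lap (fun w => g (af z₀ h w)) w := by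
      have k : ∀ v : ℂ, fderiv ℝ (fun y => fderiv ℝ (fun w => θ (af z₀ h w) * g (af z₀ h w)) y v) w =
          fderiv ℝ (fun y => fderiv ℝ (fun w => g (af z₀ h w)) y v) w := by
        intro v
        refine Filter.EventuallyEq.fderiv_eq ?_
        have h3 := ev.fderiv (𝕜 := ℝ)
        filter_upwards [h3] with y hy
        rw [hy]
      exact congrArg₂ (· + ·) (congrArg (fun L => L 1) (k 1)) (congrArg (fun L => L I) (k I))
    rw [e3, lap_af hΩ hg hwΩ, ev.eq_of_nhds]
    exact he _ hwΩ)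
  have e0 : af z₀ h 0 = z₀ := by simp [af]
  have e1 : θ z₀ = 1 := hθK _ (Metric.self_subset_cthickening _
    (Metric.mem_closedBall_self hh.le))
  simp only [e0, e1, one_mul] at key
  rw [← key]
  refine integral_congr_ae (Eventually.of_forall fun w => ?_)
  simp only
  by_cases hw : 1 ≤ ‖w‖
  · rw [psi_zero hw, mul_zero, mul_zero]
  · push Not at hw
    have : θ (af z₀ h w) = 1 := by
      refine hθK _ (Metric.thickening_subset_cthickening _ _ (hin w ?_))
      have := div_pos hδ hh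
      linarith
    rw [this, one_mul]

end

end Pool.Agent.K3h40.EC
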