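import Pool.Agent.K3h40.EC.K

/-! The normalised derivatives of a solution as integrals against derivatives of the mollifier:
complex functions and integration by parts (helper40). -/

set_option autoImplicit false
open MeasureTheory Filter Topology Complex
open scoped ContDiff

namespace Pool.Agent.K3h40.EC

open Pool.Agent.W745.RW
open Pool.Agent.W924.RW.WP (P P_Dp DmDp base Dp_smooth)

noncomputable section

/-- functions supported in the unit disc -/
def Sp {F : Type*} [Zero F] (Q : ℂ → F) : Prop := ∀ w : ℂ, 1 < ‖w‖ → Q w = 0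

lemma Sp.ts {F : Type*} [Zero F] {Q : ℂ → F} (hQ : Sp Q) :
    tsupport Q ⊆ Metric.closedBall 0 1 := by
  refine closure_minimal (fun w hw => ?_) Metric.isClosed_closedBall
  rw [Metric.mem_closedBall, dist_zero_right]
  by_contra hc
  push Not at hc
  exact hw (hQ w hc)

lemma Sp.comp {F : Type*} [Zero F] {Q : ℂ → F} (hQ : Sp Q) : HasCompactSupport Q :=
  (isCompact_closedBall (0 : ℂ) 1).of_isClosed_subset (isClosed_tsupport _) hQ.ts

lemma Sp.fd {F : Type*} [NormedAddCommGroup F] [NormedSpace ℝ F] {Q : ℂ → F} (hQ : Sp Q) (v : ℂ) :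
    Sp (fun w => fderiv ℝ Q w v) := by
  intro w hw
  have ev : Q =ᶠ[𝓝 w] fun _ => 0 := by
    have : ∀ᶠ y : ℂ in 𝓝 w, 1 < ‖y‖ := continuous_norm.continuousAt.eventually (lt_mem_nhds hw)
    filter_upwards [this] with y hy
    exact hQ y hy
  simp only
  rw [ev.fderiv_eq]
  simp

variable {Ω : Set ℂ} {z₀ : ℂ} {h : ℝ}

lemma int_afC {G : ℂ → ℂ} (hG : ContinuousOn G Ω) (hh : 0 < h) (H : Dc Ω z₀ h) {Q : ℂ → ℂ}
    (hQc : Continuous Q) (hQ : Sp Q) : Integrable (fun w => G (af z₀ h w) * Q w) := by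
  have h1 : IntegrableOn (fun w => G (af z₀ h w) * Q w) (Metric.closedBall (0 : ℂ) 1) := by
    refine ContinuousOn.integrableOn_compact (isCompact_closedBall _ _) ?_
    refine (hG.comp (af_smooth z₀ h).continuous.continuousOn ?_).mul hQc.continuousOn
    intro w hw
    rw [Metric.mem_closedBall, dist_zero_right] at hw
    exact H.mem hh hw
  refine (integrableOn_iff_integrable_of_support_subset fun w hw => ?_).1 h1
  rw [Metric.mem_closedBall, dist_zero_right]
  by_contra hc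
  push Not at hc
  exact hw (by simp only; rw [hQ w hc, mul_zero])

lemma psiSp : Sp psi := fun _ hw => psi_zero hw.le

/-- reproduction of a complex solution -/
theorem repC (hΩ : IsOpen Ω) {g : ℂ → ℂ} (hh : 0 < h) (hg : P Ω h g) (H : Dc Ω z₀ h) :
    ∫ w, g (af z₀ h w) * (psi w : ℂ) = g z₀ := by
  have hlap : ∀ z ∈ Ω, (h : ℂ) ^ 2 * lap g z = (-1) * g z := fun z hz => by
    rw [← DmDp hΩ hg.1 hz, hg.other hΩ hz]
  have key : ∀ L : ℂ →L[ℝ] ℝ, ∫ w, L (g (af z₀ h w)) * psi w = L (g z₀) := by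
    intro L
    refine repR hΩ (g := fun w => L (g w)) (L.contDiff.comp_contDiffOn hg.1) hh (fun z hz => ?_) H
    rw [Pool.Agent.W98.RW.L_lap L hΩ hg.1 hz]
    have h1 := hlap z hz
    have h2 : (h : ℂ) ^ 2 * lap g z = (h ^ 2) • lap g z := by
      rw [Complex.real_smul]; push_cast; rfl
    rw [h2] at h1
    have h3 := congrArg L h1
    rw [map_smul, smul_eq_mul] at h3
    rw [h3, neg_one_mul, map_neg]
    ring
  have k1 := key reCLM
  have k2 := key imCLM
  have i1 : Integrable (fun w => g (af z₀ h w) * (psi w : ℂ)) :=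
    int_afC hg.1.continuousOn hh H (Complex.continuous_ofReal.comp psi_smooth.continuous)
      (fun w hw => by rw [psiSp w hw]; simp)
  have e1 := reCLM.integral_comp_comm i1
  have e2 := imCLM.integral_comp_comm i1
  have f1 : ∀ w, reCLM (g (af z₀ h w) * (psi w : ℂ)) = reCLM (g (af z₀ h w)) * psi w := by
    intro w
    simp [Complex.mul_re]
  have f2 : ∀ w, imCLM (g (af z₀ h w) * (psi w : ℂ)) = imCLM (g (af z₀ h w)) * psi w := by
    intro w
    simp [Complex.mul_im]
  simp only [f1] at e1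
  simp only [f2] at e2
  apply Complex.ext
  · have := e1.symm.trans k1
    simpa using this
  · have := e2.symm.trans k2
    simpa using this

/-- integration by parts -/
theorem ibp (hΩ : IsOpen Ω) {g : ℂ → ℂ} (hg : ContDiffOn ℝ ∞ g Ω) (hh : 0 < h) (H : Dc Ω z₀ h)
    {Q : ℂ → ℂ} (hQ : ContDiff ℝ ∞ Q) (hQs : Sp Q) :
    ∫ w, Dp h g (af z₀ h w) * Q w = - ∫ w, g (af z₀ h w) * Dp 1 Q w := by
  have hv : ∀ v : ℂ, ∫ w, ((h : ℂ) * fderiv ℝ g (af z₀ h w) v) * Q w =
      - ∫ w, g (af z₀ h w) * fderiv ℝ Q w v := by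
    intro v
    have hin : ∀ w ∈ tsupport Q, af z₀ h w ∈ Ω := by
      intro w hw
      have := hQs.ts hw
      rw [Metric.mem_closedBall, dist_zero_right] at this
      exact H.mem hh this
    have hd : ∀ w ∈ tsupport Q, DifferentiableAt ℝ (fun w => g (af z₀ h w)) w := by
      intro w hw
      exact (Pool.Agent.W924.RW.WP.diffAt hΩ hg (hin w hw)).comp w (af_der z₀ h w).differentiableAt
    have e1 : ∀ w, fderiv ℝ (fun w => g (af z₀ h w)) w v * Q w =
        ((h : ℂ) * fderiv ℝ g (af z₀ h w) v) * Q w := by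
      intro w
      by_cases hw : w ∈ tsupport Q
      · rw [fd_af (Pool.Agent.W924.RW.WP.diffAt hΩ hg (hin w hw)), Complex.real_smul]
      · rw [image_eq_zero_of_notMem_tsupport hw, mul_zero, mul_zero]
    have cg' : ContinuousOn (fun z => (h : ℂ) * fderiv ℝ g z v) Ω :=
      continuousOn_const.mul (Pool.Agent.W98.RW.cd_fderiv hΩ hg v).continuousOn
    have i1 : Integrable (fun w => ((h : ℂ) * fderiv ℝ g (af z₀ h w) v) * Q w) :=
      int_afC cg' hh H hQ.continuous hQs
    have cQ : Continuous fun w => fderiv ℝ Q w v :=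
      (hQ.continuous_fderiv (by simp)).clm_apply continuous_const
    have i2 : Integrable (fun w => g (af z₀ h w) * fderiv ℝ Q w v) :=
      int_afC hg.continuousOn hh H cQ (hQs.fd v)
    have i3 : Integrable (fun w => g (af z₀ h w) * Q w) :=
      int_afC hg.continuousOn hh H hQ.continuous hQs
    have key := integral_mul_fderiv_eq_neg_fderiv_mul_of_integrable (μ := (volume : Measure ℂ))
      (f := fun w => g (af z₀ h w)) (g := Q) (v := v) (by simp only [e1]; exact i1) i2 i3 hd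
      (fun w _ => (hQ.differentiable (by simp)) w)
    simp only [e1] at key
    rw [key, neg_neg]
  have cg' : ∀ v : ℂ, ContinuousOn (fun z => (h : ℂ) * fderiv ℝ g z v) Ω := fun v =>
    continuousOn_const.mul (Pool.Agent.W98.RW.cd_fderiv hΩ hg v).continuousOn
  have i1 : ∀ v : ℂ, Integrable (fun w => ((h : ℂ) * fderiv ℝ g (af z₀ h w) v) * Q w) := fun v =>
    int_afC (cg' v) hh H hQ.continuous hQs
  have cQ : ∀ v : ℂ, Continuous fun w => fderiv ℝ Q w v := fun v =>
    (hQ.continuous_fderiv (by simp)).clm_apply continuous_const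
  have i2 : ∀ v : ℂ, Integrable (fun w => g (af z₀ h w) * fderiv ℝ Q w v) := fun v =>
    int_afC hg.continuousOn hh H (cQ v) (hQs.fd v)
  have e1 : ∀ w, Dp h g (af z₀ h w) * Q w = ((h : ℂ) * fderiv ℝ g (af z₀ h w) 1) * Q w -
      I * (((h : ℂ) * fderiv ℝ g (af z₀ h w) I) * Q w) := by
    intro w
    simp only [Dp, dx, dy]
    ring
  have e2 : ∀ w, g (af z₀ h w) * Dp 1 Q w = g (af z₀ h w) * fderiv ℝ Q w 1 -
      I * (g (af z₀ h w) * fderiv ℝ Q w I) := by
    intro w
    simp only [Dp, dx, dy]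
    push_cast
    ring
  simp only [e1, e2]
  rw [integral_sub (i1 1) ((i1 I).const_mul I), integral_sub (i2 1) ((i2 I).const_mul I),
    integral_const_mul, integral_const_mul, hv 1, hv I]
  ring

lemma Sp.dp {Q : ℂ → ℂ} (hQ : Sp Q) (h : ℝ) : Sp (Dp h Q) := by
  intro w hw
  have h1 := hQ.fd 1 w hw
  have h2 := hQ.fd I w hw
  simp only at h1 h2
  simp only [Dp, dx, dy, h1, h2]
  ring

lemma dp_smooth {Q : ℂ → ℂ} (hQ : ContDiff ℝ ∞ Q) (h : ℝ) : ContDiff ℝ ∞ (Dp h Q) :=
  contDiffOn_univ.1 (Dp_smooth isOpen_univ hQ.contDiffOn)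

theorem ibpk (hΩ : IsOpen Ω) {g : ℂ → ℂ} (hh : 0 < h) (hg : P Ω h g) (H : Dc Ω z₀ h) (k : ℕ) :
    ∀ {Q : ℂ → ℂ}, ContDiff ℝ ∞ Q → Sp Q → ∫ w, (Dp h)^[k] g (af z₀ h w) * Q w =
      (-1) ^ k * ∫ w, g (af z₀ h w) * (Dp 1)^[k] Q w := by
  induction k with
  | zero => intro Q _ _; simp
  | succ k ih =>
    intro Q hQ hQs
    rw [Function.iterate_succ_apply', ibp hΩ (P_Dp hΩ hg k).1 hh H hQ hQs,
      ih (dp_smooth hQ 1) (hQs.dp 1), Function.iterate_succ_apply, pow_succ]
    ring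

/-- the kernels -/
def ps (k : ℕ) : ℂ → ℂ := (Dp 1)^[k] (fun w => (psi w : ℂ))

lemma ps_smooth (k : ℕ) : ContDiff ℝ ∞ (ps k) := by
  induction k with
  | zero => exact Complex.ofRealCLM.contDiff.comp psi_smooth
  | succ k ih =>
    unfold ps
    rw [Function.iterate_succ_apply']
    exact dp_smooth ih 1

lemma ps_Sp (k : ℕ) : Sp (ps k) := by
  induction k with
  | zero => intro w hw; simp [ps, psiSp w hw]
  | succ k ih =>
    unfold ps
    rw [Function.iterate_succ_apply']
    exact Sp.dp ih 1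

/-- **The normalised derivatives as integrals.** -/
theorem W_rep (hΩ : IsOpen Ω) {u : ℂ → ℝ} (hS : Sol Ω h u) (H : Dc Ω z₀ h) (k : ℕ) :
    W h u (k : ℤ) z₀ = (-1) ^ k * ∫ w, (u (af z₀ h w) : ℂ) * ps k w := by
  have hP := base hΩ hS
  have h1 := repC hΩ hS.hpos (P_Dp hΩ hP k) H
  rw [Pool.Agent.W924.RW.WP.W_nat, ← h1]
  exact ibpk hΩ hS.hpos hP H k (Complex.ofRealCLM.contDiff.comp psi_smooth)
    (fun w hw => by rw [psiSp w hw]; simp)

end

end Pool.Agent.K3h40.EC
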