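import Pool.Agent.K3h40.EC.K2

/-! Continuous functionals on the space of continuous functions; regularity of functions which are
reproduced by the mollifier (helper40). -/

set_option autoImplicit false
open MeasureTheory Filter Topology Complex
open scoped ContDiff Convolution

namespace Pool.Agent.K3h40.EC

open Pool.Agent.W745.RW

noncomputable section

/-- integral against a kernel, centred at `x` -/
def KK (g : ℂ → ℂ) (f : ℂ → ℝ) (x : ℂ) : ℂ := ∫ w, (f (x + w) : ℂ) * g w

variable {g : ℂ → ℂ}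

lemma KK_int (hg : Continuous g) (hs : Sp g) {f : ℂ → ℝ} (hf : Continuous f) (x : ℂ) :
    Integrable fun w => (f (x + w) : ℂ) * g w := by
  refine Continuous.integrable_of_hasCompactSupport ?_ hs.comp.mul_left
  exact (Complex.continuous_ofReal.comp (hf.comp (continuous_const.add continuous_id))).mul hg

lemma KK_contf (hg : Continuous g) (hs : Sp g) (x : ℂ) :
    Continuous fun f : C(ℂ, ℝ) => KK g f x := by
  rw [continuous_iff_continuousAt]
  intro f0
  rw [ContinuousAt, Metric.tendsto_nhds]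
  intro ε hε
  have hA : 0 ≤ ∫ w, ‖g w‖ := integral_nonneg fun w => norm_nonneg _
  have hδ : 0 < ε / ((∫ w, ‖g w‖) + 1) := by positivity
  have h1 := (ContinuousMap.tendsto_iff_forall_isCompact_tendstoUniformlyOn (F := fun f => f)
    (p := 𝓝 f0) (f := f0)).1 tendsto_id (Metric.closedBall x 1) (isCompact_closedBall _ _)
  rw [Metric.tendstoUniformlyOn_iff] at h1
  filter_upwards [h1 _ hδ] with f hf
  have hgi : Integrable fun w => ‖g w‖ := (hg.integrable_of_hasCompactSupport hs.comp).norm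
  have e1 : KK g f x - KK g f0 x = ∫ w, ((f (x + w) : ℂ) - (f0 (x + w) : ℂ)) * g w := by
    unfold KK
    rw [← integral_sub (KK_int hg hs f.continuous x) (KK_int hg hs f0.continuous x)]
    refine integral_congr_ae (Eventually.of_forall fun w => ?_)
    simp only
    ring
  rw [dist_eq_norm, e1]
  have b1 : ‖∫ w, ((f (x + w) : ℂ) - (f0 (x + w) : ℂ)) * g w‖ ≤
      ∫ w, (ε / ((∫ w, ‖g w‖) + 1)) * ‖g w‖ := by
    refine norm_integral_le_of_norm_le (hgi.const_mul _) (Eventually.of_forall fun w => ?_)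
    by_cases hw : ‖w‖ ≤ 1
    · rw [norm_mul]
      refine mul_le_mul_of_nonneg_right ?_ (norm_nonneg _)
      have h2 := hf (x + w) (by simpa [dist_eq_norm] using hw)
      rw [← Complex.ofReal_sub, Complex.norm_real, Real.norm_eq_abs, ← Real.dist_eq, dist_comm]
      exact h2.le
    · push Not at hw
      rw [hs w hw]
      simp
  refine b1.trans_lt ?_
  rw [integral_const_mul, div_mul_eq_mul_div, div_lt_iff₀ (by positivity)]
  nlinarith

lemma KK_contx (hg : Continuous g) (hs : Sp g) {f : ℂ → ℝ} (hf : Continuous f) :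
    Continuous (KK g f) := by
  have h1 : Continuous fun x : ℂ => ((⟨fun w => f (x + w), by fun_prop⟩ : C(ℂ, ℝ))) := by
    refine ContinuousMap.continuous_of_continuous_uncurry _ ?_
    show Continuous fun p : ℂ × ℂ => f (p.1 + p.2)
    fun_prop
  have h2 := (KK_contf hg hs 0).comp h1
  refine h2.congr fun x => ?_
  simp only [Function.comp_apply, KK, ContinuousMap.coe_mk, zero_add]

/-- the value depends only on the function on a disc -/
lemma KK_congr (hs : Sp g) {f f' : ℂ → ℝ} {x : ℂ} (h : ∀ w : ℂ, ‖w‖ ≤ 1 → f (x + w) = f' (x + w)) :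
    KK g f x = KK g f' x := by
  unfold KK
  refine integral_congr_ae (Eventually.of_forall fun w => ?_)
  simp only
  by_cases hw : ‖w‖ ≤ 1
  · rw [h w hw]
  · push Not at hw
    rw [hs w hw, mul_zero, mul_zero]

/-! ### regularity -/

lemma psi_even (w : ℂ) : psi (-w) = psi w := by
  unfold psi p0
  simp

lemma lapsi_even (w : ℂ) : lap psi (-w) = lap psi w := by
  have h1 := lap_af isOpen_univ (g := psi) psi_smooth.contDiffOn (z₀ := 0) (h := -1) (w := w)
    (Set.mem_univ _)
  have e1 : (fun w => psi (af 0 (-1) w)) = psi := by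
    funext w
    rw [← psi_even w]
    congr 1
    simp [af]
  have e2 : af 0 (-1) w = -w := by simp [af]
  rw [e1, e2] at h1
  rw [h1]; ring

lemma dpsi_smooth (v : ℂ) : ContDiff ℝ ∞ fun w => fderiv ℝ psi w v :=
  (psi_smooth.fderiv_right (by simp)).clm_apply contDiff_const

lemma lapsi_smooth : ContDiff ℝ ∞ (lap psi) := by
  have h : ∀ v : ℂ, ContDiff ℝ ∞ fun w => fderiv ℝ (fun y => fderiv ℝ psi y v) w v := fun v =>
    ((dpsi_smooth v).fderiv_right (by simp)).clm_apply contDiff_const
  exact (h 1).add (h I)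

lemma lapsi_Sp : Sp (lap psi) := by
  intro w hw
  have h1 := (psiSp.fd 1).fd 1 w hw
  have h2 := (psiSp.fd I).fd I w hw
  have h3 : lap psi w = fderiv ℝ (fun y => fderiv ℝ psi y 1) w 1 +
    fderiv ℝ (fun y => fderiv ℝ psi y I) w I := rfl
  rw [h3]
  simp only at h1 h2
  rw [h1, h2, add_zero]

variable {Ω : Set ℂ} {z₀ : ℂ} {h : ℝ}

lemma int_afR {G : ℂ → ℝ} (hG : ContinuousOn G Ω) (hh : 0 < h) (H : Dc Ω z₀ h) {Q : ℂ → ℝ}
    (hQc : Continuous Q) (hQ : Sp Q) : Integrable (fun w => G (af z₀ h w) * Q w) := by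
  have h1 : IntegrableOn (fun w => G (af z₀ h w) * Q w) (Metric.closedBall (0 : ℂ) 1) := by
    refine ContinuousOn.integrableOn_compact (isCompact_closedBall _ _) ?_
    refine (hG.comp (af_smooth z₀ h).continuous.continuousOn ?_).mul hQc.continuousOn
    intro w hw
    rw [Metric.mem_closedBall, dist_zero_right] at hw
    exact H.mem hh hw
  refine (integrableOn_iff_integrable_of_support_subset fun w hw => ?_).1 h1
  rw [Metric.mem_closedBall, dist_zero_right]
  by_contra hc
  push Not at hc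
  exact hw (by simp only; rw [hQ w hc, mul_zero])

lemma ibpR (hΩ : IsOpen Ω) {g : ℂ → ℝ} (hg : ContDiffOn ℝ ∞ g Ω) (hh : 0 < h) (H : Dc Ω z₀ h)
    {Q : ℂ → ℝ} (hQ : ContDiff ℝ ∞ Q) (hQs : Sp Q) (v : ℂ) :
    ∫ w, g (af z₀ h w) * fderiv ℝ Q w v = - ∫ w, (h * fderiv ℝ g (af z₀ h w) v) * Q w := by
  have hin : ∀ w ∈ tsupport Q, af z₀ h w ∈ Ω := by
    intro w hw
    have := hQs.ts hw
    rw [Metric.mem_closedBall, dist_zero_right] at this
    exact H.mem hh this
  have hd : ∀ w ∈ tsupport Q, DifferentiableAt ℝ (fun w => g (af z₀ h w)) w := by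
    intro w hw
    exact (Pool.Agent.W924.RW.WP.diffAt hΩ hg (hin w hw)).comp w (af_der z₀ h w).differentiableAt
  have e1 : ∀ w, fderiv ℝ (fun w => g (af z₀ h w)) w v * Q w =
      (h * fderiv ℝ g (af z₀ h w) v) * Q w := by
    intro w
    by_cases hw : w ∈ tsupport Q
    · rw [fd_af (Pool.Agent.W924.RW.WP.diffAt hΩ hg (hin w hw)), smul_eq_mul]
    · rw [image_eq_zero_of_notMem_tsupport hw, mul_zero, mul_zero]
  have cg' : ContinuousOn (fun z => h * fderiv ℝ g z v) Ω :=
    continuousOn_const.mul (Pool.Agent.W98.RW.cd_fderiv hΩ hg v).continuousOn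
  have i1 : Integrable (fun w => (h * fderiv ℝ g (af z₀ h w) v) * Q w) :=
    int_afR cg' hh H hQ.continuous hQs
  have cQ : Continuous fun w => fderiv ℝ Q w v :=
    (hQ.continuous_fderiv (by simp)).clm_apply continuous_const
  have i2 : Integrable (fun w => g (af z₀ h w) * fderiv ℝ Q w v) :=
    int_afR hg.continuousOn hh H cQ (hQs.fd v)
  have i3 : Integrable (fun w => g (af z₀ h w) * Q w) :=
    int_afR hg.continuousOn hh H hQ.continuous hQs
  have key := integral_mul_fderiv_eq_neg_fderiv_mul_of_integrable (μ := (volume : Measure ℂ))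
    (f := fun w => g (af z₀ h w)) (g := Q) (v := v) (by simp only [e1]; exact i1) i2 i3 hd
    (fun w _ => (hQ.differentiable (by simp)) w)
  simp only [e1] at key
  exact key

theorem repL (hΩ : IsOpen Ω) {g : ℂ → ℝ} (hg : ContDiffOn ℝ ∞ g Ω) (hh : 0 < h)
    (he : ∀ z ∈ Ω, h ^ 2 * lap g z + g z = 0) (H : Dc Ω z₀ h) :
    ∫ w, g (af z₀ h w) * lap psi w = - g z₀ := by
  have k : ∀ v : ℂ, ∫ w, g (af z₀ h w) * fderiv ℝ (fun y => fderiv ℝ psi y v) w v =
      ∫ w, (h ^ 2 * fderiv ℝ (fun y => fderiv ℝ g y v) (af z₀ h w) v) * psi w := by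
    intro v
    have hgv : ContDiffOn ℝ ∞ (fun z => fderiv ℝ g z v) Ω := Pool.Agent.W98.RW.cd_fderiv hΩ hg v
    rw [ibpR hΩ hg hh H (dpsi_smooth v) (psiSp.fd v) v]
    have h2 := ibpR hΩ hgv hh H psi_smooth psiSp v
    have e1 : ∫ w, (h * fderiv ℝ g (af z₀ h w) v) * fderiv ℝ psi w v =
        h * ∫ w, fderiv ℝ g (af z₀ h w) v * fderiv ℝ psi w v := by
      rw [← integral_const_mul]
      exact integral_congr_ae (Eventually.of_forall fun w => by ring)
    have e2 : ∫ w, (h ^ 2 * fderiv ℝ (fun y => fderiv ℝ g y v) (af z₀ h w) v) * psi w =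
        h * ∫ w, (h * fderiv ℝ (fun y => fderiv ℝ g y v) (af z₀ h w) v) * psi w := by
      rw [← integral_const_mul]
      exact integral_congr_ae (Eventually.of_forall fun w => by ring)
    rw [e1, e2, h2]
    ring
  have cD : ∀ v : ℂ, ContDiff ℝ ∞ fun w => fderiv ℝ (fun y => fderiv ℝ psi y v) w v := fun v =>
    ((dpsi_smooth v).fderiv_right (by simp)).clm_apply contDiff_const
  have i1 : ∀ v : ℂ, Integrable fun w => g (af z₀ h w) *
      fderiv ℝ (fun y => fderiv ℝ psi y v) w v := fun v =>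
    int_afR hg.continuousOn hh H (cD v).continuous ((psiSp.fd v).fd v)
  have cg : ∀ v : ℂ, ContinuousOn (fun z => h ^ 2 * fderiv ℝ (fun y => fderiv ℝ g y v) z v) Ω :=
    fun v => continuousOn_const.mul (Pool.Agent.W98.RW.cd_fderiv hΩ
      (Pool.Agent.W98.RW.cd_fderiv hΩ hg v) v).continuousOn
  have i2 : ∀ v : ℂ, Integrable fun w => (h ^ 2 *
      fderiv ℝ (fun y => fderiv ℝ g y v) (af z₀ h w) v) * psi w := fun v =>
    int_afR (cg v) hh H psi_smooth.continuous psiSp
  have e1 : ∀ w, g (af z₀ h w) * lap psi w = g (af z₀ h w) *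
      fderiv ℝ (fun y => fderiv ℝ psi y 1) w 1 + g (af z₀ h w) *
      fderiv ℝ (fun y => fderiv ℝ psi y I) w I := by
    intro w
    rw [← mul_add]; rfl
  simp only [e1]
  rw [integral_add (i1 1) (i1 I), k 1, k I, ← integral_add (i2 1) (i2 I)]
  have h3 := repR hΩ hg hh he H
  rw [← h3, ← integral_neg]
  refine integral_congr_ae (Eventually.of_forall fun w => ?_)
  simp only
  by_cases hw : ‖w‖ ≤ 1
  · have h4 := he _ (H.mem hh hw)
    have h5 : lap g (af z₀ h w) = fderiv ℝ (fun y => fderiv ℝ g y 1) (af z₀ h w) 1 +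
      fderiv ℝ (fun y => fderiv ℝ g y I) (af z₀ h w) I := rfl
    rw [h5] at h4
    linear_combination psi w * h4
  · push Not at hw
    rw [psiSp w hw]; ring

lemma conv_eq {f Q : ℂ → ℝ} (x : ℂ) :
    (f ⋆[ContinuousLinearMap.mul ℝ ℝ, volume] Q) x = ∫ w, f (x + w) * Q (-w) := by
  unfold convolution
  rw [← integral_add_left_eq_self (μ := (volume : Measure ℂ)) _ x]
  refine integral_congr_ae (Eventually.of_forall fun w => ?_)
  simp only [ContinuousLinearMap.mul_apply']
  rw [show x - (x + w) = -w by ring]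

lemma conv_der {f Q : ℂ → ℝ} (hf : Continuous f) (hQ : ContDiff ℝ ∞ Q) (hQs : Sp Q) (v x : ℂ) :
    fderiv ℝ (f ⋆[ContinuousLinearMap.mul ℝ ℝ, volume] Q) x v =
      (f ⋆[ContinuousLinearMap.mul ℝ ℝ, volume] fun w => fderiv ℝ Q w v) x := by
  have h1 := HasCompactSupport.hasFDerivAt_convolution_right (ContinuousLinearMap.mul ℝ ℝ)
    (μ := (volume : Measure ℂ)) hQs.comp hf.locallyIntegrable (hQ.of_le (by simp)) x
  rw [h1.fderiv, convolution_precompR_apply (ContinuousLinearMap.mul ℝ ℝ)
    (hf.locallyIntegrable (μ := (volume : Measure ℂ))) (hQs.comp.fderiv (𝕜 := ℝ))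
    (hQ.continuous_fderiv (by simp))]

/-- functions which are reproduced are solutions -/
theorem reg {f : ℂ → ℝ} (hf : Continuous f) (h1 : ∀ x, ∫ w, f (x + w) * psi w = f x)
    (h2 : ∀ x, ∫ w, f (x + w) * lap psi w = - f x) :
    ContDiff ℝ ∞ f ∧ ∀ z, lap f z + f z = 0 := by
  have e1 : f = f ⋆[ContinuousLinearMap.mul ℝ ℝ, volume] psi := by
    funext x
    rw [conv_eq, ← h1 x]
    simp only [psi_even]
  constructor
  · rw [e1]
    exact psiSp.comp.contDiff_convolution_right _ hf.locallyIntegrable psi_smooth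
  · intro z
    have e2 : ∀ v : ℂ, (fun y => fderiv ℝ f y v) =
        f ⋆[ContinuousLinearMap.mul ℝ ℝ, volume] fun w => fderiv ℝ psi w v := by
      intro v
      funext y
      conv_lhs => rw [e1]
      exact conv_der hf psi_smooth psiSp v y
    have e3 : ∀ v : ℂ, fderiv ℝ (fun y => fderiv ℝ f y v) z v =
        (f ⋆[ContinuousLinearMap.mul ℝ ℝ, volume] fun w =>
          fderiv ℝ (fun y => fderiv ℝ psi y v) w v) z := by
      intro v
      rw [e2 v]
      exact conv_der hf (dpsi_smooth v) (psiSp.fd v) v z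
    have e4 : lap f z = fderiv ℝ (fun y => fderiv ℝ f y 1) z 1 +
      fderiv ℝ (fun y => fderiv ℝ f y I) z I := rfl
    have cD : ∀ v : ℂ, ContDiff ℝ ∞ fun w => fderiv ℝ (fun y => fderiv ℝ psi y v) w v := fun v =>
      ((dpsi_smooth v).fderiv_right (by simp)).clm_apply contDiff_const
    have i : ∀ v : ℂ, Integrable fun w => f (z + w) *
        fderiv ℝ (fun y => fderiv ℝ psi y v) (-w) v := by
      intro v
      refine Continuous.integrable_of_hasCompactSupport ?_ ?_
      · exact (hf.comp (continuous_const.add continuous_id)).mul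
          ((cD v).continuous.comp continuous_neg)
      · refine HasCompactSupport.mul_left ?_
        have : Sp fun w : ℂ => fderiv ℝ (fun y => fderiv ℝ psi y v) (-w) v := fun w hw =>
          (psiSp.fd v).fd v (-w) (by rwa [norm_neg])
        exact this.comp
    rw [e4, e3 1, e3 I, conv_eq, conv_eq, ← integral_add (i 1) (i I)]
    have e5 : ∀ w, f (z + w) * fderiv ℝ (fun y => fderiv ℝ psi y 1) (-w) 1 +
        f (z + w) * fderiv ℝ (fun y => fderiv ℝ psi y I) (-w) I = f (z + w) * lap psi w := by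
      intro w
      rw [← lapsi_even w, ← mul_add]; rfl
    simp only [e5]
    rw [h2 z]
    ring

end

end Pool.Agent.K3h40.EC
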