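import Pool.Agent.K3h40.EC.K3

/-! Local measures of a sequence of functions on a plane domain: basic properties (helper40). -/

set_option autoImplicit false
open MeasureTheory Filter Topology Complex
open scoped ContDiff

namespace Pool.Agent.K3h40.EC

open Pool.Agent.W745.RW

noncomputable section

/-- the rescaled function around `z₀`, cut off near the boundary -/
def cut (Ω : Set ℂ) (χ : ℝ → ℝ) (lam : ℝ) (u : ℂ → ℝ) (z₀ z : ℂ) : ℝ :=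
  u (z₀ + ((1 / √lam : ℝ) : ℂ) * z) * χ (‖z‖ / (√lam * Metric.infDist z₀ Ωᶜ))

open Classical in
/-- the same, as an element of the space of continuous functions -/
def loc (Ω : Set ℂ) (χ : ℝ → ℝ) (lam : ℝ) (u : ℂ → ℝ) (z₀ : ℂ) : C(ℂ, ℝ) :=
  if h : Continuous (cut Ω χ lam u z₀) then ⟨cut Ω χ lam u z₀, h⟩ else 0

/-- the properties of the cut off which are used -/
structure Cutf (χ : ℝ → ℝ) : Prop where
  cont : Continuous χ
  one : ∃ δ : ℝ, 0 < δ ∧ ∀ r, 0 ≤ r → r ≤ δ → χ r = 1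
  zero : ∀ r, 1 ≤ r → χ r = 0

variable {Ω : Set ℂ} {χ : ℝ → ℝ} {lam : ℝ} {u : ℂ → ℝ}

lemma infD_pos (hΩ : IsOpen Ω) (hne : Ωᶜ.Nonempty) {z : ℂ} (hz : z ∈ Ω) :
    0 < Metric.infDist z Ωᶜ := by
  rw [← hΩ.isClosed_compl.notMem_iff_infDist_pos hne]
  simpa using hz

lemma in_Ω (hl : 0 < lam) {z₀ z : ℂ} (h : ‖z‖ / (√lam * Metric.infDist z₀ Ωᶜ) < 1)
    (hd : 0 < Metric.infDist z₀ Ωᶜ) : z₀ + ((1 / √lam : ℝ) : ℂ) * z ∈ Ω := by
  have hs : 0 < √lam := Real.sqrt_pos.2 hl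
  refine Metric.ball_infDist_compl_subset (x := z₀) ?_
  rw [Metric.mem_ball, dist_eq_norm, add_sub_cancel_left, norm_mul, Complex.norm_real,
    Real.norm_of_nonneg (by positivity)]
  rw [div_lt_one (by positivity)] at h
  rw [one_div, inv_mul_lt_iff₀ hs]
  exact h

lemma cut_bd (hΩ : IsOpen Ω) (hne : Ωᶜ.Nonempty) (hχ : Cutf χ) (hl : 0 < lam) {C : ℝ}
    (hb : ∀ z ∈ Ω, |u z| ≤ C) {z₀ : ℂ} (hz : z₀ ∈ Ω) (z : ℂ) :
    |cut Ω χ lam u z₀ z| ≤ C * |χ (‖z‖ / (√lam * Metric.infDist z₀ Ωᶜ))| := by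
  unfold cut
  rw [abs_mul]
  by_cases h : ‖z‖ / (√lam * Metric.infDist z₀ Ωᶜ) < 1
  · exact mul_le_mul_of_nonneg_right (hb _ (in_Ω hl h (infD_pos hΩ hne hz))) (abs_nonneg _)
  · push Not at h
    rw [hχ.zero _ h, abs_zero, mul_zero, mul_zero]

lemma cut_cont (hΩ : IsOpen Ω) (hne : Ωᶜ.Nonempty) (hχ : Cutf χ) (hl : 0 < lam)
    (hu : ContinuousOn u Ω) {C : ℝ} (hb : ∀ z ∈ Ω, |u z| ≤ C) :
    ContinuousOn (fun p : ℂ × ℂ => cut Ω χ lam u p.1 p.2) (Ω ×ˢ Set.univ) := by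
  have hs : 0 < √lam := Real.sqrt_pos.2 hl
  have hr : ContinuousOn (fun p : ℂ × ℂ => ‖p.2‖ / (√lam * Metric.infDist p.1 Ωᶜ))
      (Ω ×ˢ Set.univ) := by
    refine ContinuousOn.div (continuous_norm.comp continuous_snd).continuousOn
      (continuous_const.mul ((Metric.continuous_infDist_pt _).comp continuous_fst)).continuousOn
      fun p hp => ?_
    have := infD_pos hΩ hne hp.1
    positivity
  have hχr : ContinuousOn (fun p : ℂ × ℂ => χ (‖p.2‖ / (√lam * Metric.infDist p.1 Ωᶜ)))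
      (Ω ×ˢ Set.univ) := hχ.cont.comp_continuousOn hr
  intro p hp
  by_cases h : ‖p.2‖ / (√lam * Metric.infDist p.1 Ωᶜ) < 1
  · have h1 : ContinuousWithinAt (fun p : ℂ × ℂ => u (p.1 + ((1 / √lam : ℝ) : ℂ) * p.2))
        (Ω ×ˢ Set.univ) p := by
      have h2 : ContinuousAt u (p.1 + ((1 / √lam : ℝ) : ℂ) * p.2) :=
        hu.continuousAt (hΩ.mem_nhds (in_Ω hl h (infD_pos hΩ hne hp.1)))
      have h3 : Continuous fun p : ℂ × ℂ => p.1 + ((1 / √lam : ℝ) : ℂ) * p.2 := by fun_prop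
      exact (ContinuousAt.comp (f := fun p : ℂ × ℂ => p.1 + ((1 / √lam : ℝ) : ℂ) * p.2)
        h2 h3.continuousAt).continuousWithinAt
    exact h1.mul (hχr p hp)
  · push Not at h
    have h0 : cut Ω χ lam u p.1 p.2 = 0 := by
      unfold cut
      rw [hχ.zero _ h, mul_zero]
    have h1 := (((hχr p hp).abs).const_mul C)
    rw [ContinuousWithinAt, h0]
    refine squeeze_zero_norm' (a := fun p : ℂ × ℂ =>
      C * |χ (‖p.2‖ / (√lam * Metric.infDist p.1 Ωᶜ))|) ?_ ?_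
    · filter_upwards [self_mem_nhdsWithin] with q hq
      exact cut_bd hΩ hne hχ hl hb hq.1 q.2
    · have h2 : C * |χ (‖p.2‖ / (√lam * Metric.infDist p.1 Ωᶜ))| = 0 := by
        rw [hχ.zero _ h]; simp
      rw [← h2]
      exact h1

lemma cut_cont1 (hΩ : IsOpen Ω) (hne : Ωᶜ.Nonempty) (hχ : Cutf χ) (hl : 0 < lam)
    (hu : ContinuousOn u Ω) {C : ℝ} (hb : ∀ z ∈ Ω, |u z| ≤ C) {z₀ : ℂ} (hz : z₀ ∈ Ω) :
    Continuous (cut Ω χ lam u z₀) := by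
  have h1 := cut_cont hΩ hne hχ hl hu hb
  have h2 : ContinuousOn (fun z : ℂ => cut Ω χ lam u z₀ z) Set.univ :=
    h1.comp (f := fun z : ℂ => (z₀, z)) (by fun_prop) (fun z _ => ⟨hz, Set.mem_univ _⟩)
  exact continuousOn_univ.1 h2

lemma loc_apply (hΩ : IsOpen Ω) (hne : Ωᶜ.Nonempty) (hχ : Cutf χ) (hl : 0 < lam)
    (hu : ContinuousOn u Ω) {C : ℝ} (hb : ∀ z ∈ Ω, |u z| ≤ C) {z₀ : ℂ} (hz : z₀ ∈ Ω) (z : ℂ) :
    loc Ω χ lam u z₀ z = cut Ω χ lam u z₀ z := by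
  unfold loc
  rw [dif_pos (cut_cont1 hΩ hne hχ hl hu hb hz)]
  rfl

lemma loc_cont (hΩ : IsOpen Ω) (hne : Ωᶜ.Nonempty) (hχ : Cutf χ) (hl : 0 < lam)
    (hu : ContinuousOn u Ω) {C : ℝ} (hb : ∀ z ∈ Ω, |u z| ≤ C) :
    ContinuousOn (loc Ω χ lam u) Ω := by
  rw [continuousOn_iff_continuous_restrict]
  refine ContinuousMap.continuous_of_continuous_uncurry _ ?_
  have h1 : Continuous fun p : Ω × ℂ => cut Ω χ lam u p.1 p.2 := by
    have h2 := (cut_cont hΩ hne hχ hl hu hb)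
    rw [continuousOn_iff_continuous_restrict] at h2
    have h3 : Continuous fun p : Ω × ℂ => (⟨((p.1 : ℂ), p.2), ⟨p.1.2, Set.mem_univ _⟩⟩ :
        (Ω ×ˢ (Set.univ : Set ℂ) : Set (ℂ × ℂ))) := by fun_prop
    exact h2.comp h3
  refine h1.congr fun p => ?_
  exact (loc_apply hΩ hne hχ hl hu hb p.1.2 p.2).symm

end

end Pool.Agent.K3h40.EC
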