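import Pool.Agent.K3h40.EC.M

/-! Local measures of a sequence of functions on a plane domain: comparison with integrals against
test functions (helper40). -/

set_option autoImplicit false
open MeasureTheory Filter Topology Complex
open scoped ContDiff

namespace Pool.Agent.K3h40.EC

open Pool.Agent.W745.RW

noncomputable section

/-- the data: a sequence of bounded smooth functions on an open set of finite area -/
structure Loc (Ω : Set ℂ) (χ : ℝ → ℝ) (lam : ℕ → ℝ) (u : ℕ → ℂ → ℝ) : Prop where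
  op : IsOpen Ω
  ne : Ω.Nonempty
  fin : volume Ω ≠ ⊤
  cu : Cutf χ
  pos : ∀ n, 0 < lam n
  lim : Tendsto lam atTop atTop
  sm : ∀ n, ContDiffOn ℝ ∞ (u n) Ω
  bd : ∀ n, ∃ C : ℝ, ∀ z ∈ Ω, |u n z| ≤ C

variable {Ω : Set ℂ} {χ : ℝ → ℝ} {lam : ℕ → ℝ} {u : ℕ → ℂ → ℝ}

lemma Loc.cne (H : Loc Ω χ lam u) : Ωᶜ.Nonempty := by
  rw [Set.nonempty_compl]
  rintro rfl
  exact H.fin (by simp)

lemma Loc.vpos (H : Loc Ω χ lam u) : 0 < (volume Ω).toReal :=
  ENNReal.toReal_pos (H.op.measure_pos volume H.ne).ne' H.fin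

lemma Loc.sub (H : Loc Ω χ lam u) {σ : ℕ → ℕ} (hσ : StrictMono σ) :
    Loc Ω χ (fun n => lam (σ n)) (fun n => u (σ n)) :=
  ⟨H.op, H.ne, H.fin, H.cu, fun n => H.pos _, H.lim.comp hσ.tendsto_atTop, fun n => H.sm _,
    fun n => H.bd _⟩

/-- the scale -/
def hs (lam : ℕ → ℝ) (n : ℕ) : ℝ := 1 / √(lam n)

lemma Loc.hpos (H : Loc Ω χ lam u) (n : ℕ) : 0 < hs lam n :=
  div_pos one_pos (Real.sqrt_pos.2 (H.pos n))

lemma Loc.hlim (H : Loc Ω χ lam u) : Tendsto (hs lam) atTop (𝓝 0) := by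
  have h1 : Tendsto (fun n => √(lam n)) atTop atTop := Real.tendsto_sqrt_atTop.comp H.lim
  exact (h1.inv_tendsto_atTop).congr (fun n => by simp [hs, one_div])

lemma Loc.gc (H : Loc Ω χ lam u) {G : C(ℂ, ℝ) → ℝ} (hG : Continuous G) (n : ℕ) :
    ContinuousOn (fun z₀ => G (loc Ω χ (lam n) (u n) z₀)) Ω := by
  obtain ⟨C, hC⟩ := H.bd n
  exact hG.comp_continuousOn (loc_cont H.op H.cne H.cu (H.pos n) (H.sm n).continuousOn hC)

lemma Loc.gi (H : Loc Ω χ lam u) {G : C(ℂ, ℝ) → ℝ} (hG : Continuous G) {C : ℝ}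
    (hC : ∀ f, |G f| ≤ C) (n : ℕ) :
    IntegrableOn (fun z₀ => G (loc Ω χ (lam n) (u n) z₀)) Ω := by
  have hf : IsFiniteMeasure (volume.restrict Ω) := ⟨by
    rw [Measure.restrict_apply_univ]
    exact lt_of_le_of_ne le_top H.fin⟩
  refine Integrable.mono' (integrable_const C)
    ((H.gc hG n).aestronglyMeasurable H.op.measurableSet) (Eventually.of_forall fun z => ?_)
  rw [Real.norm_eq_abs]
  exact hC _

/-- exhaustion by test functions -/
lemma Loc.exh (H : Loc Ω χ lam u) {ε : ℝ} (hε : 0 < ε) : ∃ φ : ℂ → ℝ, TF Ω φ ∧ (∀ z, 0 ≤ φ z) ∧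
    (∀ z, φ z ≤ 1) ∧ (volume Ω).toReal - ∫ z, φ z ≤ ε ∧ ∫ z, φ z ≤ (volume Ω).toReal := by
  have h1 : (volume Ω) - ENNReal.ofReal ε < volume Ω ∨ volume Ω ≤ ENNReal.ofReal ε := by
    rcases le_or_gt (volume Ω) (ENNReal.ofReal ε) with h | h
    · exact Or.inr h
    · left
      exact ENNReal.sub_lt_self H.fin (H.op.measure_pos volume H.ne).ne'
        (ENNReal.ofReal_pos.2 hε).ne'
  have tfi : ∀ {φ : ℂ → ℝ}, TF Ω φ → Integrable φ := fun h =>
    h.1.continuous.integrable_of_hasCompactSupport h.2.1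
  have hle : ∀ {φ : ℂ → ℝ}, TF Ω φ → (∀ z, 0 ≤ φ z) → (∀ z, φ z ≤ 1) →
      ∫ z, φ z ≤ (volume Ω).toReal := by
    intro φ hφ h0 h1
    have e1 : ∫ z, φ z = ∫ z in Ω, φ z := (setIntegral_eq_integral_of_forall_compl_eq_zero
      fun z hz => image_eq_zero_of_notMem_tsupport fun hc => hz (hφ.2.2 hc)).symm
    rw [e1]
    have hf : IsFiniteMeasure (volume.restrict Ω) := ⟨by
      rw [Measure.restrict_apply_univ]
      exact lt_of_le_of_ne le_top H.fin⟩
    have h2 : ∫ z in Ω, φ z ≤ ∫ z in Ω, (1 : ℝ) :=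
      integral_mono (tfi hφ).integrableOn (integrable_const _) h1
    simpa [measureReal_def] using h2
  rcases h1 with h | h
  · obtain ⟨K, hKΩ, hK, hKv⟩ := H.op.exists_lt_isCompact h
    obtain ⟨φ, hφ, h0, h1, hφK⟩ := Pool.Agent.Y265.RW.cutoff H.op hK hKΩ
    refine ⟨φ, hφ, h0, h1, ?_, hle hφ h0 h1⟩
    have hKf : volume K ≠ ⊤ := hK.measure_lt_top.ne
    have h2 : (volume K).toReal ≤ ∫ z, φ z := by
      have h3 : ∫ z in K, φ z = (volume K).toReal := by
        rw [setIntegral_congr_fun (g := fun _ => (1 : ℝ)) hK.measurableSet hφK]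
        simp [measureReal_def]
      rw [← h3]
      exact setIntegral_le_integral (tfi hφ) (Eventually.of_forall h0)
    have h3 : (volume Ω).toReal ≤ (volume K).toReal + ε := by
      have h4 : volume Ω ≤ volume K + ENNReal.ofReal ε := tsub_le_iff_right.1 hKv.le
      have h5 := ENNReal.toReal_mono (by finiteness) h4
      rwa [ENNReal.toReal_add hKf (by finiteness), ENNReal.toReal_ofReal hε.le] at h5
    linarith
  · refine ⟨fun _ => 0, ⟨contDiff_const, HasCompactSupport.zero, ?_⟩, fun _ => le_rfl,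
      fun _ => zero_le_one, ?_, ?_⟩
    · have : tsupport (fun _ : ℂ => (0 : ℝ)) = ∅ := by
        have e : (fun _ : ℂ => (0 : ℝ)) = 0 := rfl
        rw [e]
        exact tsupport_eq_empty_iff.2 rfl
      rw [this]
      exact Set.empty_subset _
    · have h5 := ENNReal.toReal_mono (by finiteness) h
      rw [ENNReal.toReal_ofReal hε.le] at h5
      simpa using h5
    · simp

/-- comparison of the average over `Ω` with the average against a test function -/
lemma Loc.cmp (H : Loc Ω χ lam u) {G : C(ℂ, ℝ) → ℝ} (hG : Continuous G) {C : ℝ}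
    (hC : ∀ f, |G f| ≤ C) {φ : ℂ → ℝ} (hφ : TF Ω φ) (h1 : ∀ z, φ z ≤ 1) (n : ℕ) :
    |(∫ z₀ in Ω, G (loc Ω χ (lam n) (u n) z₀)) -
      ∫ z₀, φ z₀ * G (loc Ω χ (lam n) (u n) z₀)| ≤ C * ((volume Ω).toReal - ∫ z, φ z) := by
  have hz : ∀ z ∉ Ω, φ z = 0 := fun z hz =>
    image_eq_zero_of_notMem_tsupport fun hc => hz (hφ.2.2 hc)
  have e1 : ∫ z₀, φ z₀ * G (loc Ω χ (lam n) (u n) z₀) =
      ∫ z₀ in Ω, φ z₀ * G (loc Ω χ (lam n) (u n) z₀) :=
    (setIntegral_eq_integral_of_forall_compl_eq_zero fun z h => by rw [hz z h, zero_mul]).symm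
  have e2 : ∫ z, φ z = ∫ z in Ω, φ z :=
    (setIntegral_eq_integral_of_forall_compl_eq_zero fun z h => hz z h).symm
  have hf : IsFiniteMeasure (volume.restrict Ω) := ⟨by
    rw [Measure.restrict_apply_univ]
    exact lt_of_le_of_ne le_top H.fin⟩
  have e3 : (volume Ω).toReal = ∫ z in Ω, (1 : ℝ) := by simp [measureReal_def]
  have iG := H.gi hG hC n
  have iφ : IntegrableOn φ Ω :=
    (hφ.1.continuous.integrable_of_hasCompactSupport hφ.2.1).integrableOn
  have iφG : IntegrableOn (fun z₀ => φ z₀ * G (loc Ω χ (lam n) (u n) z₀)) Ω := by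
    refine Integrable.mono' (iφ.norm.const_mul C) ?_ (Eventually.of_forall fun z => ?_)
    · exact iφ.aestronglyMeasurable.mul iG.aestronglyMeasurable
    · rw [norm_mul, mul_comm]
      exact mul_le_mul_of_nonneg_right (hC _) (norm_nonneg _)
  rw [e1, e2, e3, ← integral_sub iG iφG, ← integral_sub (integrable_const _) iφ,
    ← integral_const_mul]
  refine (abs_integral_le_integral_abs).trans ?_
  refine integral_mono (iG.sub iφG).abs (((integrable_const _).sub iφ).const_mul C) fun z => ?_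
  simp only
  have e4 : G (loc Ω χ (lam n) (u n) z) - φ z * G (loc Ω χ (lam n) (u n) z) =
      G (loc Ω χ (lam n) (u n) z) * (1 - φ z) := by ring
  rw [e4, abs_mul, abs_of_nonneg (show 0 ≤ 1 - φ z by linarith [h1 z])]
  exact mul_le_mul_of_nonneg_right (hC _) (by linarith [h1 z])

/-- the local function is the rescaled eigenfunction on large discs -/
lemma Loc.agree (H : Loc Ω χ lam u) {K : Set ℂ} (hK : IsCompact K) (hKΩ : K ⊆ Ω) (R : ℝ) :
    ∀ᶠ n in atTop, ∀ z₀ ∈ K, ∀ z : ℂ, ‖z‖ ≤ R →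
      loc Ω χ (lam n) (u n) z₀ z = u n (af z₀ (hs lam n) z) := by
  obtain ⟨δ, hδ, hone⟩ := H.cu.one
  rcases K.eq_empty_or_nonempty with rfl | hKne
  · exact Eventually.of_forall fun n z₀ hz => absurd hz (Set.notMem_empty _)
  obtain ⟨y, hy, hmin⟩ := hK.exists_isMinOn hKne
    (Metric.continuous_infDist_pt (s := Ωᶜ)).continuousOn
  set d := Metric.infDist y Ωᶜ with hd
  have hd0 : 0 < d := infD_pos H.op H.cne (hKΩ hy)
  have h1 : Tendsto (fun n => √(lam n) * (δ * d)) atTop atTop :=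
    (Real.tendsto_sqrt_atTop.comp H.lim).atTop_mul_const (by positivity)
  filter_upwards [h1.eventually_ge_atTop |R|] with n hn z₀ hz z hzR
  obtain ⟨C, hC⟩ := H.bd n
  rw [loc_apply H.op H.cne H.cu (H.pos n) (H.sm n).continuousOn hC (hKΩ hz)]
  unfold cut
  have hs0 : 0 < √(lam n) := Real.sqrt_pos.2 (H.pos n)
  have hdz : d ≤ Metric.infDist z₀ Ωᶜ := hmin hz
  have h2 : ‖z‖ / (√(lam n) * Metric.infDist z₀ Ωᶜ) ≤ δ := by
    rw [div_le_iff₀ (by have := hd0.trans_le hdz; positivity)]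
    calc ‖z‖ ≤ |R| := hzR.trans (le_abs_self R)
      _ ≤ √(lam n) * (δ * d) := hn
      _ = δ * (√(lam n) * d) := by ring
      _ ≤ δ * (√(lam n) * Metric.infDist z₀ Ωᶜ) := by gcongr
  have h3 : 0 ≤ ‖z‖ / (√(lam n) * Metric.infDist z₀ Ωᶜ) := by
    have := hd0.trans_le hdz
    positivity
  rw [hone _ h3 h2, mul_one]
  rfl

end

end Pool.Agent.K3h40.EC
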