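import Pool.Agent.K3h40.EC.M2

/-! Weak limits of local measures: upper bounds for nonnegative functionals (helper40). -/

set_option autoImplicit false
open MeasureTheory Filter Topology Complex
open scoped ContDiff ENNReal

namespace Pool.Agent.K3h40.EC

open Pool.Agent.W745.RW

noncomputable section

variable [MeasurableSpace C(ℂ, ℝ)] [BorelSpace C(ℂ, ℝ)]

/-- `μ` is the weak limit of the local measures -/
def WL (Ω : Set ℂ) (χ : ℝ → ℝ) (lam : ℕ → ℝ) (u : ℕ → ℂ → ℝ) (μ : Measure C(ℂ, ℝ)) : Prop :=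
  ∀ G : C(ℂ, ℝ) → ℝ, Continuous G → (∃ C, ∀ f, |G f| ≤ C) →
    Tendsto (fun n => (∫ z₀ in Ω, G (loc Ω χ (lam n) (u n) z₀)) / (volume Ω).toReal) atTop
      (𝓝 (∫ f, G f ∂μ))

variable {Ω : Set ℂ} {χ : ℝ → ℝ} {lam : ℕ → ℝ} {u : ℕ → ℂ → ℝ} {μ : Measure C(ℂ, ℝ)}

/-- the bound which passes to the limit -/
def UB (Ω : Set ℂ) (χ : ℝ → ℝ) (lam : ℕ → ℝ) (u : ℕ → ℂ → ℝ) (G : C(ℂ, ℝ) → ℝ) (c : ℝ) : Prop :=
  ∀ φ, TF Ω φ → (∀ z, 0 ≤ φ z) → (∀ z, φ z ≤ 1) → ∀ ε : ℝ, 0 < ε → ∀ᶠ n in atTop,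
    ∫ z₀, φ z₀ * G (loc Ω χ (lam n) (u n) z₀) ≤ c * (volume Ω).toReal + ε

omit [BorelSpace C(ℂ, ℝ)] in
lemma wl_trunc (H : Loc Ω χ lam u) (hμ : WL Ω χ lam u μ) {G : C(ℂ, ℝ) → ℝ} (hG : Continuous G)
    (h0 : ∀ f, 0 ≤ G f) {c : ℝ} (h : UB Ω χ lam u G c) (T : ℕ) :
    ∫ f, min (G f) T ∂μ ≤ c := by
  have hT0 : (0 : ℝ) ≤ T := Nat.cast_nonneg T
  have hGT : Continuous fun f : C(ℂ, ℝ) => min (G f) (T : ℝ) := hG.min continuous_const
  have hbT : ∀ f, |min (G f) (T : ℝ)| ≤ T := fun f => by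
    rw [abs_of_nonneg (le_min (h0 f) hT0)]
    exact min_le_right _ _
  have hlim := hμ _ hGT ⟨T, hbT⟩
  have hV := H.vpos
  refine le_of_forall_pos_le_add fun ε hε => ?_
  obtain ⟨η, hη, hηε⟩ : ∃ η : ℝ, 0 < η ∧ (1 + T) * η / (volume Ω).toReal ≤ ε := by
    refine ⟨ε * (volume Ω).toReal / (1 + T), by positivity, le_of_eq ?_⟩
    field_simp
  obtain ⟨φ, hφ, hφ0, hφ1, hφε, -⟩ := H.exh hη
  refine le_of_tendsto hlim ?_
  filter_upwards [h φ hφ hφ0 hφ1 η hη] with n hn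
  have k1 := H.cmp hGT hbT hφ hφ1 n
  have k2 : ∫ z₀, φ z₀ * min (G (loc Ω χ (lam n) (u n) z₀)) (T : ℝ) ≤
      ∫ z₀, φ z₀ * G (loc Ω χ (lam n) (u n) z₀) := by
    refine integral_mono ?_ ?_ fun z => ?_
    · exact Pool.Agent.Y265.RW.int_mulr H.op hφ (H.gc hGT n)
    · exact Pool.Agent.Y265.RW.int_mulr H.op hφ (H.gc hG n)
    · exact mul_le_mul_of_nonneg_left (min_le_left _ _) (hφ0 z)
  have k3 := (abs_le.1 k1).2
  have k4 : (T : ℝ) * ((volume Ω).toReal - ∫ z, φ z) ≤ T * η :=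
    mul_le_mul_of_nonneg_left hφε hT0
  rw [div_le_iff₀ hV]
  have k5 : (1 + T) * η ≤ ε * (volume Ω).toReal := by rwa [div_le_iff₀ hV] at hηε
  linarith

lemma wl_le (H : Loc Ω χ lam u) (hμ : WL Ω χ lam u μ) [IsFiniteMeasure μ] {G : C(ℂ, ℝ) → ℝ}
    (hG : Continuous G) (h0 : ∀ f, 0 ≤ G f) {c : ℝ} (h : UB Ω χ lam u G c) :
    ∫⁻ f, ENNReal.ofReal (G f) ∂μ ≤ ENNReal.ofReal c := by
  have h1 : Tendsto (fun T : ℕ => ∫⁻ f, ENNReal.ofReal (min (G f) T) ∂μ) atTop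
      (𝓝 (∫⁻ f, ENNReal.ofReal (G f) ∂μ)) := by
    refine lintegral_tendsto_of_tendsto_of_monotone (fun T => ?_) ?_ ?_
    · exact (ENNReal.continuous_ofReal.comp (hG.min continuous_const)).measurable.aemeasurable
    · refine Eventually.of_forall fun f S T hST => ?_
      exact ENNReal.ofReal_le_ofReal (min_le_min le_rfl (by exact_mod_cast hST))
    · refine Eventually.of_forall fun f => ?_
      refine Tendsto.congr' ?_ tendsto_const_nhds
      filter_upwards [eventually_ge_atTop ⌈G f⌉₊] with T hT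
      rw [min_eq_left]
      exact (Nat.le_ceil _).trans (by exact_mod_cast hT)
  refine le_of_tendsto h1 (Eventually.of_forall fun T => ?_)
  have hT0 : (0 : ℝ) ≤ T := Nat.cast_nonneg T
  have hi : Integrable (fun f : C(ℂ, ℝ) => min (G f) (T : ℝ)) μ := by
    refine Integrable.mono' (integrable_const (T : ℝ))
      (hG.min continuous_const).measurable.aestronglyMeasurable (Eventually.of_forall fun f => ?_)
    rw [Real.norm_eq_abs, abs_of_nonneg (le_min (h0 f) hT0)]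
    exact min_le_right _ _
  rw [← ofReal_integral_eq_lintegral_ofReal hi (Eventually.of_forall fun f =>
    le_min (h0 f) hT0)]
  exact ENNReal.ofReal_le_ofReal (wl_trunc H hμ hG h0 h T)

omit [MeasurableSpace C(ℂ, ℝ)] [BorelSpace C(ℂ, ℝ)] in
/-- translations of test functions -/
lemma TF_shift (H : Loc Ω χ lam u) {φ : ℂ → ℝ} (hφ : TF Ω φ) (x : ℂ) :
    ∃ φ₂ : ℂ → ℝ, TF Ω φ₂ ∧ (∀ z, 0 ≤ φ₂ z) ∧ (∀ z, φ₂ z ≤ 1) ∧ ∀ᶠ n in atTop,
      TF Ω (fun z => φ (z - (hs lam n : ℂ) * x)) ∧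
      (∀ z, φ (z - (hs lam n : ℂ) * x) ≠ 0 → φ₂ z = 1) ∧
      ∀ z ∈ tsupport φ, Dc Ω (z + (hs lam n : ℂ) * x) (hs lam n) := by
  have hK : IsCompact (tsupport φ) := hφ.2.1
  obtain ⟨δ, hδ, hδΩ⟩ := hK.exists_cthickening_subset_open H.op hφ.2.2
  have hK' : IsCompact (Metric.cthickening δ (tsupport φ)) := hK.cthickening
  obtain ⟨φ₂, h2, h20, h21, h2K⟩ := Pool.Agent.Y265.RW.cutoff H.op hK' hδΩ
  refine ⟨φ₂, h2, h20, h21, ?_⟩
  have hsmall : ∀ᶠ n in atTop, hs lam n * (‖x‖ + 1) < δ := by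
    have h3 := H.hlim.mul_const (‖x‖ + 1)
    rw [zero_mul] at h3
    exact h3.eventually (gt_mem_nhds hδ)
  filter_upwards [hsmall] with n hn
  have hn0 := H.hpos n
  have hx : ‖(hs lam n : ℂ) * x‖ ≤ δ := by
    rw [norm_mul, Complex.norm_real, Real.norm_of_nonneg hn0.le]
    have : hs lam n * ‖x‖ ≤ hs lam n * (‖x‖ + 1) :=
      mul_le_mul_of_nonneg_left (by linarith) hn0.le
    linarith
  have hsup : ∀ z, z - (hs lam n : ℂ) * x ∈ tsupport φ →
      z ∈ Metric.cthickening δ (tsupport φ) := by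
    intro z hz
    refine Metric.mem_cthickening_of_dist_le z _ δ _ hz ?_
    rw [dist_eq_norm]
    simpa using hx
  refine ⟨⟨?_, ?_, ?_⟩, ?_, ?_⟩
  · exact hφ.1.comp (contDiff_id.sub contDiff_const)
  · have hcl : IsClosed {z | z - (hs lam n : ℂ) * x ∈ tsupport φ} :=
      (isClosed_tsupport _).preimage (continuous_id.sub continuous_const)
    refine HasCompactSupport.intro hK' fun z hz => ?_
    exact image_eq_zero_of_notMem_tsupport fun hc => hz (hsup z hc)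
  · have hcl : IsClosed {z | z - (hs lam n : ℂ) * x ∈ tsupport φ} :=
      (isClosed_tsupport _).preimage (continuous_id.sub continuous_const)
    have h5 : tsupport (fun z => φ (z - (hs lam n : ℂ) * x)) ⊆
        {z | z - (hs lam n : ℂ) * x ∈ tsupport φ} :=
      closure_minimal (fun z hz => subset_tsupport φ hz) hcl
    exact fun z hz => hδΩ (hsup z (h5 hz))
  · intro z hz
    exact h2K z (hsup z (subset_tsupport _ hz))
  · intro z hz y hy
    refine hδΩ ?_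
    refine Metric.mem_cthickening_of_dist_le y z δ _ hz ?_
    rw [Metric.mem_closedBall] at hy
    calc dist y z ≤ dist y (z + (hs lam n : ℂ) * x) + dist (z + (hs lam n : ℂ) * x) z :=
          dist_triangle _ _ _
      _ ≤ hs lam n + hs lam n * ‖x‖ := by
          refine add_le_add hy ?_
          rw [dist_eq_norm, add_sub_cancel_left, norm_mul, Complex.norm_real,
            Real.norm_of_nonneg hn0.le]
      _ ≤ δ := by nlinarith

end

end Pool.Agent.K3h40.EC
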