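import Pool.Agent.K3h40.EC.M4
import Pool.Agent.R989.Erg

/-! Weak limits of local measures of quantum ergodic sequences: almost every sample is a solution,
moments, stationarity (helper40). -/

set_option autoImplicit false
open MeasureTheory Filter Topology Complex
open scoped ContDiff ENNReal

namespace Pool.Agent.K3h40.EC

open Pool.Agent.W745.RW

noncomputable section

/-- solutions, as a closed set -/
def MW : Set C(ℂ, ℝ) := {f | ∀ x : ℂ, KK (ps 0) f x = (f x : ℂ) ∧ KK lps f x = -(f x : ℂ)}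

lemma MW_closed : IsClosed MW := by
  have h : MW = ⋂ x : ℂ, {f : C(ℂ, ℝ) | KK (ps 0) f x = (f x : ℂ)} ∩
      {f : C(ℂ, ℝ) | KK lps f x = -(f x : ℂ)} := by
    ext f
    simp [MW]
  rw [h]
  refine isClosed_iInter fun x => IsClosed.inter ?_ ?_
  · refine isClosed_eq (KK_contf (ps_smooth 0).continuous (ps_Sp 0) x) ?_
    exact Complex.continuous_ofReal.comp (continuous_eval_const x)
  · refine isClosed_eq (KK_contf lps_cont lps_Sp x) ?_
    exact (Complex.continuous_ofReal.comp (continuous_eval_const x)).neg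

lemma MW_reg {f : C(ℂ, ℝ)} (hf : f ∈ MW) : ContDiff ℝ ∞ f ∧ ∀ z, lap f z + f z = 0 := by
  refine reg f.continuous (fun x => ?_) fun x => ?_
  · have h := (hf x).1
    rw [KK_ps0] at h
    exact_mod_cast h
  · have h := (hf x).2
    rw [KK_lps] at h
    exact_mod_cast h

lemma MW_zero : (0 : C(ℂ, ℝ)) ∈ MW := by
  intro x
  simp [KK]

variable [MeasurableSpace C(ℂ, ℝ)] [BorelSpace C(ℂ, ℝ)]
variable {Ω : Set ℂ} {χ : ℝ → ℝ} {lam : ℕ → ℝ} {u : ℕ → ℂ → ℝ} {μ : Measure C(ℂ, ℝ)}

lemma ae_zero (H : Loc Ω χ lam u) (hμ : WL Ω χ lam u μ) [IsFiniteMeasure μ] {G : C(ℂ, ℝ) → ℂ}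
    (hG : Continuous G) (h : UB Ω χ lam u (fun f => ‖G f‖) 0) : ∀ᵐ f ∂μ, G f = 0 := by
  have h1 := wl_le H hμ hG.norm (fun f => norm_nonneg _) h
  rw [ENNReal.ofReal_zero, nonpos_iff_eq_zero, lintegral_eq_zero_iff] at h1
  · filter_upwards [h1] with f hf
    have h2 : ‖G f‖ ≤ 0 := ENNReal.ofReal_eq_zero.1 hf
    exact norm_le_zero_iff.1 h2
  · exact (ENNReal.continuous_ofReal.comp hG.norm).measurable

lemma ae_MW (H : Qe Ω χ lam u) (hμ : WL Ω χ lam u μ) [IsFiniteMeasure μ] : ∀ᵐ f ∂μ, f ∈ MW := by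
  obtain ⟨s, hsc, hsd⟩ := TopologicalSpace.exists_countable_dense ℂ
  have h1 : ∀ᵐ f : C(ℂ, ℝ) ∂μ, ∀ x ∈ s, KK (ps 0) f x - (f x : ℂ) = 0 := by
    rw [ae_ball_iff hsc]
    intro x _
    refine ae_zero H.toLoc hμ ?_ (ub_rep H x)
    exact (KK_contf (ps_smooth 0).continuous (ps_Sp 0) x).sub
      (Complex.continuous_ofReal.comp (continuous_eval_const x))
  have h2 : ∀ᵐ f : C(ℂ, ℝ) ∂μ, ∀ x ∈ s, KK lps f x + (f x : ℂ) = 0 := by
    rw [ae_ball_iff hsc]
    intro x _
    refine ae_zero H.toLoc hμ ?_ (ub_lap H x)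
    exact (KK_contf lps_cont lps_Sp x).add
      (Complex.continuous_ofReal.comp (continuous_eval_const x))
  filter_upwards [h1, h2] with f h1 h2
  have c0 : Continuous fun x : ℂ => (f x : ℂ) := Complex.continuous_ofReal.comp f.continuous
  have e1 : KK (ps 0) f = fun x : ℂ => (f x : ℂ) :=
    Continuous.ext_on hsd (KK_contx (ps_smooth 0).continuous (ps_Sp 0) f.continuous) c0
      fun x hx => sub_eq_zero.1 (h1 x hx)
  have e2 : KK lps f = fun x : ℂ => -(f x : ℂ) :=
    Continuous.ext_on hsd (KK_contx lps_cont lps_Sp f.continuous) c0.neg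
      fun x hx => eq_neg_of_add_eq_zero_left (h2 x hx)
  exact fun x => ⟨congrFun e1 x, congrFun e2 x⟩

lemma sq_le (H : Qe Ω χ lam u) (hμ : WL Ω χ lam u μ) [IsFiniteMeasure μ] :
    ∫⁻ f, ENNReal.ofReal (f 0 ^ 2) ∂μ ≤ 1 := by
  have h := wl_le H.toLoc hμ (G := fun f : C(ℂ, ℝ) => f 0 ^ 2)
    ((continuous_eval_const 0).pow 2) (fun f => sq_nonneg _) (ub_sq H)
  rwa [ENNReal.ofReal_one] at h

lemma QQ_le (H : Qe Ω χ lam u) (hμ : WL Ω χ lam u μ) [IsFiniteMeasure μ] (b : ℕ → ℝ) (M : ℕ)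
    (hb : ∑ i ∈ Finset.range M, b i = 0) (hG : 0 ≤ Gm b M) (x : ℂ) :
    ∫⁻ f, ENNReal.ofReal (QQ b M f x) ∂μ ≤ ENNReal.ofReal (Gm b M) :=
  wl_le H.toLoc hμ (QQ_contf b M x) (fun f => QQ_nn b M f x) (ub_QQ H b M hb hG x)

/-- translation of a continuous function -/
def tr (x : ℂ) (f : C(ℂ, ℝ)) : C(ℂ, ℝ) := ⟨fun y => f (y + x), by fun_prop⟩

omit [MeasurableSpace C(ℂ, ℝ)] [BorelSpace C(ℂ, ℝ)] in
lemma tr_cont (x : ℂ) : Continuous (tr x) := by
  refine ContinuousMap.continuous_of_continuous_uncurry _ ?_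
  show Continuous fun p : C(ℂ, ℝ) × ℂ => p.1 (p.2 + x)
  fun_prop

omit [BorelSpace C(ℂ, ℝ)] in
/-- translation invariance for functionals depending on a bounded set -/
lemma tr_inv (H : Loc Ω χ lam u) (hμ : WL Ω χ lam u μ) {G : C(ℂ, ℝ) → ℝ} (hG : Continuous G)
    {C : ℝ} (hC : ∀ f, |G f| ≤ C) {R : ℝ}
    (hR : ∀ f g : C(ℂ, ℝ), (∀ y : ℂ, ‖y‖ ≤ R → f y = g y) → G f = G g) (x : ℂ) :
    ∫ f, G (tr x f) ∂μ = ∫ f, G f ∂μ := by
  have hG2 : Continuous fun f => G (tr x f) := hG.comp (tr_cont x)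
  have hC2 : ∀ f, |G (tr x f)| ≤ C := fun f => hC _
  have l1 := hμ _ hG2 ⟨C, hC2⟩
  have l2 := hμ _ hG ⟨C, hC⟩
  have hV := H.vpos
  have hC0 : 0 ≤ C := (abs_nonneg _).trans (hC 0)
  have l3 : Tendsto (fun n => (∫ z₀ in Ω, G (tr x (loc Ω χ (lam n) (u n) z₀))) / (volume Ω).toReal -
      (∫ z₀ in Ω, G (loc Ω χ (lam n) (u n) z₀)) / (volume Ω).toReal) atTop (𝓝 0) := by
    rw [Metric.tendsto_atTop']
    intro ε hε
    obtain ⟨η, hη, hηε⟩ : ∃ η : ℝ, 0 < η ∧ (C * (3 * η)) / (volume Ω).toReal < ε := by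
      refine ⟨ε * (volume Ω).toReal / (3 * (C + 1)), by positivity, ?_⟩
      rw [div_lt_iff₀ hV]
      have : C * (3 * (ε * (volume Ω).toReal / (3 * (C + 1)))) =
          (C / (C + 1)) * (ε * (volume Ω).toReal) := by field_simp
      rw [this]
      have h2 : C / (C + 1) < 1 := by rw [div_lt_one (by linarith)]; linarith
      have h3 : 0 < ε * (volume Ω).toReal := by positivity
      nlinarith
    obtain ⟨φ, hφ, hφ0, hφ1, hφε, -⟩ := H.exh hη
    obtain ⟨φ₂, h2, h20, h21, h2e⟩ := TF_shift H hφ x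
    have hφi : Integrable φ := hφ.1.continuous.integrable_of_hasCompactSupport hφ.2.1
    have t0 := (Pool.Agent.R989.Erg.trans_cont φ hφi)
    have t1 : Tendsto (fun n => (hs lam n : ℂ) * x) atTop (𝓝 0) := by
      have h3 := ((Complex.continuous_ofReal.tendsto _).comp H.hlim).mul_const x
      rw [Complex.ofReal_zero, zero_mul] at h3
      exact h3
    have t2 := t0.comp t1
    have t3 := t2.eventually (gt_mem_nhds (ENNReal.ofReal_pos.2 hη))
    have a1 := H.agree h2.2.1 h2.2.2 (|R| + ‖x‖)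
    have a2 := H.agree hφ.2.1 hφ.2.2 (|R| + ‖x‖)
    obtain ⟨N, hN⟩ := eventually_atTop.1 ((t3.and h2e).and (a1.and a2))
    refine ⟨N, fun n hn => ?_⟩
    obtain ⟨⟨k1, k2, k3, k4⟩, k5, k6⟩ := hN n hn.le
    have c1 := H.cmp hG2 hC2 hφ hφ1 n
    have c2 := H.cmp hG hC hφ hφ1 n
    set L := fun z₀ => loc Ω χ (lam n) (u n) z₀ with hL
    have e1 : ∫ z₀, φ z₀ * G (tr x (L z₀)) = ∫ z, φ (z - (hs lam n : ℂ) * x) * G (L z) := by
      rw [← integral_add_right_eq_self (μ := (volume : Measure ℂ))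
        (fun z => φ (z - (hs lam n : ℂ) * x) * G (L z)) ((hs lam n : ℂ) * x)]
      refine integral_congr_ae (Eventually.of_forall fun z => ?_)
      simp only [add_sub_cancel_right]
      by_cases hz : φ z = 0
      · rw [hz, zero_mul, zero_mul]
      · congr 1
        refine hR _ _ fun y hy => ?_
        have hz1 : z ∈ tsupport φ := subset_tsupport φ hz
        have hz2 : z + (hs lam n : ℂ) * x ∈ tsupport φ₂ := by
          refine subset_tsupport φ₂ ?_
          have h5 := k3 (z + (hs lam n : ℂ) * x) (by rw [add_sub_cancel_right]; exact hz)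
          rw [Function.mem_support, h5]
          exact one_ne_zero
        have hy' : ‖y‖ ≤ |R| := hy.trans (le_abs_self R)
        have b1 := k6 z hz1 (y + x) ((norm_add_le _ _).trans (by linarith))
        have b2 := k5 _ hz2 y (by linarith [norm_nonneg x])
        show L z (y + x) = L (z + (hs lam n : ℂ) * x) y
        rw [hL]
        simp only
        rw [b1, b2]
        simp only [af]
        congr 1
        ring
    have i1 : Integrable fun z => φ z * G (L z) :=
      Pool.Agent.Y265.RW.int_mulr H.op hφ (H.gc hG n)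
    have i2 : Integrable fun z => φ (z - (hs lam n : ℂ) * x) * G (L z) :=
      Pool.Agent.Y265.RW.int_mulr H.op k2 (H.gc hG n)
    have e2 : |(∫ z, φ (z - (hs lam n : ℂ) * x) * G (L z)) - ∫ z, φ z * G (L z)| ≤ C * η := by
      rw [← integral_sub i2 i1]
      refine (abs_integral_le_integral_abs).trans ?_
      have i3 : Integrable fun z => φ (z - (hs lam n : ℂ) * x) - φ z :=
        (hφi.comp_sub_right _).sub hφi
      have h6 : ∫ z, |φ (z - (hs lam n : ℂ) * x) * G (L z) - φ z * G (L z)| ≤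
          ∫ z, C * |φ (z - (hs lam n : ℂ) * x) - φ z| := by
        refine integral_mono (i2.sub i1).abs (i3.abs.const_mul C) fun z => ?_
        simp only
        rw [← sub_mul, abs_mul, mul_comm]
        exact mul_le_mul_of_nonneg_right (hC _) (abs_nonneg _)
      refine h6.trans ?_
      rw [integral_const_mul]
      refine mul_le_mul_of_nonneg_left ?_ hC0
      have h7 : ∫ z, |φ (z - (hs lam n : ℂ) * x) - φ z| =
          (∫⁻ z, ‖φ (z - (hs lam n : ℂ) * x) - φ z‖ₑ).toReal := by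
        rw [← integral_norm_eq_lintegral_enorm i3.aestronglyMeasurable]
        rfl
      rw [h7]
      refine ENNReal.toReal_le_of_le_ofReal hη.le ?_
      exact k1.le
    rw [Real.dist_eq, sub_zero, ← sub_div, abs_div, abs_of_pos hV]
    refine lt_of_le_of_lt ?_ hηε
    refine div_le_div_of_nonneg_right ?_ hV.le
    rw [e1] at c1
    have hc := mul_le_mul_of_nonneg_left hφε hC0
    have d1 := abs_le.1 c1
    have d2 := abs_le.1 c2
    have d3 := abs_le.1 e2
    rw [abs_le]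
    constructor <;> linarith
  have l4 := tendsto_nhds_unique (l1.sub l2) l3
  linarith

lemma path_meas : Measurable fun (f : C(ℂ, ℝ)) (y : ℂ) => f y :=
  measurable_pi_iff.2 fun y => (continuous_eval_const y).measurable

/-- stationarity -/
lemma stat (H : Loc Ω χ lam u) (hμ : WL Ω χ lam u μ) [IsFiniteMeasure μ] (x : ℂ) :
    μ.map (fun (f : C(ℂ, ℝ)) (y : ℂ) => f (y + x)) = μ.map fun (f : C(ℂ, ℝ)) (y : ℂ) => f y := by
  have hm2 : Measurable fun (f : C(ℂ, ℝ)) (y : ℂ) => f (y + x) :=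
    measurable_pi_iff.2 fun y => (continuous_eval_const (y + x)).measurable
  have hf1 : IsFiniteMeasure (μ.map (fun (f : C(ℂ, ℝ)) (y : ℂ) => f (y + x))) :=
    Measure.isFiniteMeasure_map μ _
  have hf2 : IsFiniteMeasure (μ.map (fun (f : C(ℂ, ℝ)) (y : ℂ) => f y)) :=
    Measure.isFiniteMeasure_map μ _
  refine IsProjectiveLimit.unique (P := fun I : Finset ℂ =>
    (μ.map (fun (f : C(ℂ, ℝ)) (y : ℂ) => f y)).map I.restrict) (fun I => ?_) (fun I => rfl)
  refine ext_of_forall_integral_eq_of_IsFiniteMeasure fun g => ?_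
  have hr : Measurable (I.restrict : (ℂ → ℝ) → (I → ℝ)) := by fun_prop
  have gm : StronglyMeasurable fun v : I → ℝ => g v := g.continuous.stronglyMeasurable
  have gm2 : StronglyMeasurable fun p : ℂ → ℝ => g (I.restrict p) := gm.comp_measurable hr
  rw [integral_map hr.aemeasurable gm.aestronglyMeasurable,
    integral_map hr.aemeasurable gm.aestronglyMeasurable,
    integral_map hm2.aemeasurable gm2.aestronglyMeasurable,
    integral_map path_meas.aemeasurable gm2.aestronglyMeasurable]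
  obtain ⟨R, hR⟩ : ∃ R : ℝ, ∀ y ∈ I, ‖y‖ ≤ R := by
    obtain ⟨R, hR⟩ := (I.finite_toSet.isBounded).exists_norm_le
    exact ⟨R, hR⟩
  have hc : Continuous fun f : C(ℂ, ℝ) => g (I.restrict fun y => f y) := by
    refine g.continuous.comp ?_
    refine continuous_pi fun i => ?_
    exact continuous_eval_const (i : ℂ)
  exact tr_inv H hμ (G := fun f => g (I.restrict fun y => f y)) hc (C := ‖g‖)
    (fun f => g.norm_coe_le_norm _) (R := R) (fun f f' hff => by
      congr 1
      funext i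
      exact hff i (hR i i.2)) x

end

end Pool.Agent.K3h40.EC
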