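import Pool.Agent.Y265.RW.Bs

/-! Second moments of null quadratic forms of a family of solutions, for arbitrary pair
correlations (helper40). -/
set_option autoImplicit false
open MeasureTheory Filter Topology Complex
open scoped ContDiff

namespace Pool.Agent.K3h40.EC

open Pool.Agent.W745.RW
open Pool.Agent.Y265.RW

noncomputable section

/-- the pair correlations with Fourier coefficients `c` -/
def kap (c : ℤ → ℂ) (a b : ℤ) : ℂ := (-1) ^ a.natAbs * c (a + b)

lemma kap_step (c : ℤ → ℂ) (a b : ℤ) : kap c (a + 1) b + kap c a (b + 1) = 0 := by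
  unfold kap
  rw [natAbs_succ, show a + 1 + b = a + (b + 1) by ring]
  ring

variable {B : Set ℂ} {h : ℕ → ℝ} {U : ℕ → ℤ → ℂ → ℂ} {c : ℤ → ℂ} {E : ℤ → ℝ}

lemma sgn_even {j : ℤ} (hj : Even j) : ((-1 : ℂ)) ^ j.natAbs = 1 :=
  Even.neg_one_pow (Int.natAbs_even.2 hj)

/-- the limit constant of the product of two differences -/
def LL2 (E : ℤ → ℝ) (j k : ℤ) : ℝ :=
  (E (j + k + 4) - 2 * E (j + k + 2) + E (j + k)) -
    (E (j - k + 2) - 2 * E (j - k) + E (j - k - 2))

theorem diff_lim (hB : IsOpen B) (hh : ∀ n, h n ≠ 0) (hU : Fam B h U) (uU : Unit2 B U)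
    (hp : Pair B U U (kap c)) (hE : ∀ s, Even s → c s * c (-s) = (E s : ℂ)) {φ : ℂ → ℝ}
    (hφ : TF B φ) {j k : ℤ} (hj : Even j) (hk : Even k) :
    Tendsto (fun n => ∫ z, (φ z : ℂ) *
      ((U n j z * U n (-j) z - U n (j + 2) z * U n (-j - 2) z) *
        (U n k z * U n (-k) z - U n (k + 2) z * U n (-k - 2) z))) atTop
      (𝓝 ((LL2 E j k : ℂ) * (∫ z, φ z : ℝ))) := by
  have t1 := null_lim hB hh hU hU hU hU uU uU uU uU hp hp hφ j k (-j - 2) (-k - 2)
  have t2 := null_lim hB hh hU hU hU hU uU uU uU uU hp hp hφ j (-k - 2) (-j - 2) k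
  have sE : ∀ {a b : ℤ}, Even a → kap c a b = c (a + b) := by
    intro a b ha
    unfold kap; rw [sgn_even ha, one_mul]
  have sO : ∀ {a b : ℤ}, Even a → kap c (a + 1) b = - c (a + 1 + b) := by
    intro a b ha
    unfold kap; rw [natAbs_succ, sgn_even ha]; ring
  have ej2 : Even (j + 2) := hj.add (by decide)
  have ek2 : Even (k + 2) := hk.add (by decide)
  have ejm : Even (-j - 2) := hj.neg.sub (by decide)
  have ekm : Even (-k - 2) := hk.neg.sub (by decide)
  have enj : Even (-j) := hj.neg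
  have enk : Even (-k) := hk.neg
  have c1 : kap c (j + 2) (k + 2) * kap c (-j - 2) (-k - 2) -
      2 * kap c (j + 1) (k + 1) * kap c (-j - 2 + 1) (-k - 2 + 1) +
      kap c j k * kap c (-j - 2 + 2) (-k - 2 + 2) =
      ((E (j + k + 4) - 2 * E (j + k + 2) + E (j + k) : ℝ) : ℂ) := by
    rw [show -j - 2 + 2 = -j by ring, sE ej2, sE ejm, sO hj, sO ejm, sE hj, sE enj]
    have a1 := hE (j + k + 4) ((hj.add hk).add (by decide))
    have a2 := hE (j + k + 2) ((hj.add hk).add (by decide))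
    have a3 := hE (j + k) (hj.add hk)
    rw [show j + 2 + (k + 2) = j + k + 4 by ring, show -j - 2 + (-k - 2) = -(j + k + 4) by ring,
      show j + 1 + (k + 1) = j + k + 2 by ring, show -j - 2 + 1 + (-k - 2 + 1) = -(j + k + 2) by ring,
      show -j + (-k - 2 + 2) = -(j + k) by ring]
    push_cast
    linear_combination a1 - 2 * a2 + a3
  have c2 : kap c (j + 2) (-k - 2 + 2) * kap c (-j - 2) k -
      2 * kap c (j + 1) (-k - 2 + 1) * kap c (-j - 2 + 1) (k + 1) +
      kap c j (-k - 2) * kap c (-j - 2 + 2) (k + 2) =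
      ((E (j - k + 2) - 2 * E (j - k) + E (j - k - 2) : ℝ) : ℂ) := by
    rw [show -j - 2 + 2 = -j by ring, sE ej2, sE ejm, sO hj, sO ejm, sE hj, sE enj]
    have a1 := hE (j - k + 2) ((hj.sub hk).add (by decide))
    have a2 := hE (j - k) (hj.sub hk)
    have a3 := hE (j - k - 2) ((hj.sub hk).sub (by decide))
    rw [show j + 2 + (-k - 2 + 2) = j - k + 2 by ring, show -j - 2 + k = -(j - k + 2) by ring,
      show j + 1 + (-k - 2 + 1) = j - k by ring, show -j - 2 + 1 + (k + 1) = -(j - k) by ring,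
      show j + (-k - 2) = j - k - 2 by ring, show -j + (k + 2) = -(j - k - 2) by ring]
    push_cast
    linear_combination a1 - 2 * a2 + a3
  rw [c1] at t1
  rw [c2] at t2
  have t3 := t1.sub t2
  have e0 : ((E (j + k + 4) - 2 * E (j + k + 2) + E (j + k) : ℝ) : ℂ) * ((∫ z, φ z : ℝ) : ℂ) -
      ((E (j - k + 2) - 2 * E (j - k) + E (j - k - 2) : ℝ) : ℂ) * ((∫ z, φ z : ℝ) : ℂ) =
      (LL2 E j k : ℂ) * ((∫ z, φ z : ℝ) : ℂ) := by
    unfold LL2; push_cast; ring
  rw [e0] at t3
  refine t3.congr fun n => ?_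
  have sX : ∀ a b c d, ContinuousOn (fun z => U n a z * U n b z * (U n c z * U n d z)) B :=
    fun a b c d => (((hU.smooth n a).mul (hU.smooth n b)).mul
      ((hU.smooth n c).mul (hU.smooth n d))).continuousOn
  have c2' : ∀ a b c d, ContinuousOn (fun z => 2 * (U n a z * U n b z) *
      (U n c z * U n d z)) B := fun a b c d =>
    (((contDiffOn_const (c := (2 : ℂ))).mul ((hU.smooth n a).mul (hU.smooth n b))).mul
      ((hU.smooth n c).mul (hU.smooth n d))).continuousOn
  have i1 : Integrable (fun z => (φ z : ℂ) * (U n (j+2) z * U n (k+2) z *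
      (U n (-j-2) z * U n (-k-2) z) -
      2 * (U n (j+1) z * U n (k+1) z) * (U n (-j-2+1) z * U n (-k-2+1) z) +
      U n j z * U n k z * (U n (-j-2+2) z * U n (-k-2+2) z))) :=
    int_mul hB hφ (((sX (j+2) (k+2) (-j-2) (-k-2)).sub (c2' (j+1) (k+1) (-j-2+1) (-k-2+1))).add
      (sX j k (-j-2+2) (-k-2+2)))
  have i2 : Integrable (fun z => (φ z : ℂ) * (U n (j+2) z * U n (-k-2+2) z *
      (U n (-j-2) z * U n k z) -
      2 * (U n (j+1) z * U n (-k-2+1) z) * (U n (-j-2+1) z * U n (k+1) z) +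
      U n j z * U n (-k-2) z * (U n (-j-2+2) z * U n (k+2) z))) :=
    int_mul hB hφ (((sX (j+2) (-k-2+2) (-j-2) k).sub (c2' (j+1) (-k-2+1) (-j-2+1) (k+1))).add
      (sX j (-k-2) (-j-2+2) (k+2)))
  rw [← integral_sub i1 i2]
  refine integral_congr_ae (Eventually.of_forall fun z => ?_)
  simp only
  rw [show -j - 2 + 2 = -j by ring, show -k - 2 + 2 = -k by ring, show -j - 2 + 1 = -j - 1 by ring,
    show -k - 2 + 1 = -k - 1 by ring]
  ring

end

end Pool.Agent.K3h40.EC
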