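import Pool.Agent.TH298.AN.ODEM
import Pool.Agent.W745.RW.Stm

/-! A radial mollifier which reproduces the solutions of `Δv + v = 0` (helper40). -/

set_option autoImplicit false
open MeasureTheory Filter Topology Complex
open scoped ContDiff

namespace Pool.Agent.K3h40.EC

open Pool.Agent.W745.RW

noncomputable section

/-- a radial bump -/
def p0 (w : ℂ) : ℝ := Real.smoothTransition (1 - (w.re ^ 2 + w.im ^ 2))

lemma p0_smooth : ContDiff ℝ ∞ p0 := by
  unfold p0
  have h1 : ContDiff ℝ ∞ fun w : ℂ => 1 - (w.re ^ 2 + w.im ^ 2) := by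
    have hre : ContDiff ℝ ∞ fun w : ℂ => w.re := Complex.reCLM.contDiff
    have him : ContDiff ℝ ∞ fun w : ℂ => w.im := Complex.imCLM.contDiff
    exact contDiff_const.sub ((hre.pow 2).add (him.pow 2))
  exact Real.smoothTransition.contDiff.comp h1

lemma nsq (w : ℂ) : w.re ^ 2 + w.im ^ 2 = ‖w‖ ^ 2 := by
  rw [Complex.sq_norm, Complex.normSq_apply]; ring

lemma p0_zero {w : ℂ} (hw : 1 ≤ ‖w‖) : p0 w = 0 := by
  unfold p0
  rw [nsq]
  exact Real.smoothTransition.zero_of_nonpos (by nlinarith)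

lemma p0_nn (w : ℂ) : 0 ≤ p0 w := Real.smoothTransition.nonneg _

lemma p0_pos {w : ℂ} (hw : ‖w‖ < 1) : 0 < p0 w := by
  unfold p0
  rw [nsq]
  exact Real.smoothTransition.pos_of_pos (by nlinarith [norm_nonneg w])

lemma p0_X (r θ : ℝ) : p0 (Pool.Agent.TH298.Sch.X r θ) = Real.smoothTransition (1 - r ^ 2) := by
  unfold p0
  rw [nsq, Pool.Agent.TH298.Sch.norm_X, sq_abs]

/-- the constant -/
def c0 : ℝ := 2 * Real.pi * ∫ r in (0 : ℝ)..1, r * Real.smoothTransition (1 - r ^ 2) *
  TH259.NS.B 0 (r ^ 2 / 4)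

lemma rep0 {a : ℝ} (ha : 1 < a) {v : ℂ → ℝ} (hv : ContDiff ℝ ∞ v)
    (he : ∀ x, ‖x‖ < a → lap v x + v x = 0) : ∫ w, v w * p0 w = v 0 * c0 := by
  have h1 := Pool.Agent.TH298.Sch.Coer2.polar_int (b := 1) one_pos (f := fun w => v w * p0 w)
    (hv.continuous.mul p0_smooth.continuous) (fun x hx => by rw [p0_zero hx, mul_zero])
  rw [h1]
  obtain ⟨α, hα⟩ := (Pool.Agent.TH298.AN.odem a 1 v (by linarith) one_pos hv (fun x hx => by
    have h2 := he x hx
    have e1 : lap v x = Pool.Agent.TH298.Sch.dd 1 (Pool.Agent.TH298.Sch.dd 1 v) x +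
      Pool.Agent.TH298.Sch.dd Complex.I (Pool.Agent.TH298.Sch.dd Complex.I v) x := rfl
    rw [← e1, one_mul]
    linarith) 0).1
  have hM : ∀ r ∈ Set.Icc (0 : ℝ) a, ∫ θ in (-Real.pi)..Real.pi, v (Pool.Agent.TH298.Sch.X r θ) =
      α * TH259.NS.B 0 (r ^ 2 / 4) := by
    intro r hr
    have := hα r hr
    simp only [Pool.Agent.TH298.AN.mc, Nat.cast_zero, zero_mul, Real.cos_zero, mul_one, pow_zero,
      one_mul] at this
    exact this
  have hB0 : TH259.NS.B 0 0 = 1 := by
    unfold TH259.NS.B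
    rw [tsum_eq_single 0]
    · simp [TH259.NS.bt]
    · intro k hk
      simp [TH259.NS.bt, hk]
  have hα0 : α = 2 * Real.pi * v 0 := by
    have h2 := hM 0 ⟨le_rfl, by linarith⟩
    have h3 : ∀ θ, Pool.Agent.TH298.Sch.X 0 θ = 0 := fun θ => by
      simp [Pool.Agent.TH298.Sch.X]
    simp only [h3] at h2
    rw [intervalIntegral.integral_const] at h2
    norm_num at h2
    rw [hB0, mul_one] at h2
    rw [← h2]; ring
  have h4 : ∀ r ∈ Set.uIcc (0 : ℝ) 1, ∫ θ in (-Real.pi)..Real.pi,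
      r * (v (Pool.Agent.TH298.Sch.X r θ) * p0 (Pool.Agent.TH298.Sch.X r θ)) =
      (2 * Real.pi * v 0) * (r * Real.smoothTransition (1 - r ^ 2) * TH259.NS.B 0 (r ^ 2 / 4)) := by
    intro r hr
    rw [Set.uIcc_of_le zero_le_one] at hr
    have h5 := hM r ⟨hr.1, by linarith [hr.2]⟩
    have h6 : ∀ θ, r * (v (Pool.Agent.TH298.Sch.X r θ) * p0 (Pool.Agent.TH298.Sch.X r θ)) =
        (r * Real.smoothTransition (1 - r ^ 2)) * v (Pool.Agent.TH298.Sch.X r θ) := by
      intro θ
      rw [p0_X]; ring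
    simp only [h6]
    rw [intervalIntegral.integral_const_mul, h5, hα0]
    ring
  rw [intervalIntegral.integral_congr h4, intervalIntegral.integral_const_mul]
  unfold c0
  ring

lemma lap_cos (x : ℂ) : lap (fun w : ℂ => Real.cos w.re) x + Real.cos x.re = 0 := by
  have d1 : ∀ x : ℂ, HasFDerivAt (fun w : ℂ => Real.cos w.re)
      ((-Real.sin x.re) • (Complex.reCLM : ℂ →L[ℝ] ℝ)) x := fun x =>
    (Real.hasDerivAt_cos x.re).comp_hasFDerivAt x Complex.reCLM.hasFDerivAt
  have e1 : dx (fun w : ℂ => Real.cos w.re) = fun w : ℂ => -Real.sin w.re := by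
    funext w
    simp [dx, (d1 w).fderiv]
  have e2 : dy (fun w : ℂ => Real.cos w.re) = fun _ : ℂ => (0 : ℝ) := by
    funext w
    simp [dy, (d1 w).fderiv]
  have d2 : HasFDerivAt (fun w : ℂ => -Real.sin w.re)
      ((-Real.cos x.re) • (Complex.reCLM : ℂ →L[ℝ] ℝ)) x := by
    have := ((Real.hasDerivAt_sin x.re).neg).comp_hasFDerivAt x Complex.reCLM.hasFDerivAt
    exact this
  unfold lap
  rw [e1, e2]
  simp only [dx, dy]
  rw [d2.fderiv]
  simp

lemma c0_pos : 0 < c0 := by
  have h1 := rep0 (a := 2) (by norm_num) (v := fun w : ℂ => Real.cos w.re)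
    (Real.contDiff_cos.comp Complex.reCLM.contDiff) (fun x _ => lap_cos x)
  simp only [zero_re, Real.cos_zero, one_mul] at h1
  rw [← h1]
  have hc : Continuous fun w : ℂ => Real.cos w.re * p0 w :=
    (Real.continuous_cos.comp Complex.continuous_re).mul p0_smooth.continuous
  have hs : HasCompactSupport fun w : ℂ => Real.cos w.re * p0 w := by
    refine HasCompactSupport.intro (isCompact_closedBall (0 : ℂ) 1) fun w hw => ?_
    rw [p0_zero, mul_zero]
    rw [Metric.mem_closedBall, dist_zero_right, not_le] at hw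
    exact hw.le
  have hnn : ∀ w : ℂ, 0 ≤ Real.cos w.re * p0 w := by
    intro w
    by_cases hw : 1 ≤ ‖w‖
    · rw [p0_zero hw, mul_zero]
    · push Not at hw
      refine mul_nonneg (Real.cos_nonneg_of_neg_pi_div_two_le_of_le ?_ ?_) (p0_nn w)
      · have := Complex.abs_re_le_norm w
        have := Real.pi_gt_three
        linarith [(abs_le.1 (Complex.abs_re_le_norm w)).1]
      · have := Real.pi_gt_three
        linarith [(abs_le.1 (Complex.abs_re_le_norm w)).2]
  have h0 : 0 < Real.cos (0 : ℂ).re * p0 0 := by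
    rw [zero_re, Real.cos_zero, one_mul]
    exact p0_pos (by simp)
  exact hc.integral_pos_of_hasCompactSupport_nonneg_nonzero hs hnn h0.ne'

/-- the mollifier -/
def psi (w : ℂ) : ℝ := p0 w / c0

lemma psi_smooth : ContDiff ℝ ∞ psi := p0_smooth.div_const _

lemma psi_zero {w : ℂ} (hw : 1 ≤ ‖w‖) : psi w = 0 := by
  unfold psi; rw [p0_zero hw, zero_div]

lemma psi_supp : tsupport psi ⊆ Metric.closedBall 0 1 := by
  refine closure_minimal (fun w hw => ?_) Metric.isClosed_closedBall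
  rw [Metric.mem_closedBall, dist_zero_right]
  by_contra hc
  push Not at hc
  exact hw (psi_zero hc.le)

lemma psi_comp : HasCompactSupport psi :=
  (isCompact_closedBall (0 : ℂ) 1).of_isClosed_subset (isClosed_tsupport _) psi_supp

theorem rep {a : ℝ} (ha : 1 < a) {v : ℂ → ℝ} (hv : ContDiff ℝ ∞ v)
    (he : ∀ x, ‖x‖ < a → lap v x + v x = 0) : ∫ w, v w * psi w = v 0 := by
  have h1 := rep0 ha hv he
  have h2 : ∀ w, v w * psi w = (v w * p0 w) / c0 := fun w => by unfold psi; ring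
  simp only [h2]
  rw [integral_div, h1]
  field_simp [c0_pos.ne']

end

end Pool.Agent.K3h40.EC
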