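import Pool.Agent.K3h40.EC.K3

/-! Frequencies reproduced by the two kernels lie on the unit circle (helper40). -/

set_option autoImplicit false

open MeasureTheory Filter Topology Complex
open scoped ContDiff

namespace Pool.Agent.K3h40.EC

open Pool.Agent.W745.RW

noncomputable section

/-- the real scalar product -/
def ip (ξ w : ℂ) : ℝ := ξ.re * w.re + ξ.im * w.im

/-- as a continuous linear map -/
def ipL (ξ : ℂ) : ℂ →L[ℝ] ℝ := ξ.re • Complex.reCLM + ξ.im • Complex.imCLM

lemma ipL_apply (ξ w : ℂ) : ipL ξ w = ip ξ w := by simp [ipL, ip]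

lemma ip_add (ξ x y : ℂ) : ip ξ (x + y) = ip ξ x + ip ξ y := by
  simp only [ip, add_re, add_im]; ring

lemma ip_neg (ξ x : ℂ) : ip ξ (-x) = -ip ξ x := by
  simp only [ip, neg_re, neg_im]; ring

lemma ip_cont (ξ : ℂ) : Continuous (ip ξ) := by unfold ip; fun_prop

lemma lap_cosi (ξ : ℂ) : lap (fun w : ℂ => Real.cos (ip ξ w)) 0 = -(ξ.re ^ 2 + ξ.im ^ 2) := by
  have d1 : ∀ x : ℂ, HasFDerivAt (fun w : ℂ => Real.cos (ip ξ w))
      ((-Real.sin (ip ξ x)) • (ipL ξ)) x := fun x => by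
    have := (Real.hasDerivAt_cos (ipL ξ x)).comp_hasFDerivAt x (ipL ξ).hasFDerivAt
    simpa only [Function.comp_def, ipL_apply] using this
  have d2 : ∀ x : ℂ, HasFDerivAt (fun w : ℂ => Real.sin (ip ξ w))
      ((Real.cos (ip ξ x)) • (ipL ξ)) x := fun x => by
    have := (Real.hasDerivAt_sin (ipL ξ x)).comp_hasFDerivAt x (ipL ξ).hasFDerivAt
    simpa [Function.comp_def, ipL_apply] using this
  have e : ∀ v : ℂ, fderiv ℝ (fun y => fderiv ℝ (fun w : ℂ => Real.cos (ip ξ w)) y v) 0 v =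
      -(ip ξ v) ^ 2 := by
    intro v
    have e1 : (fun y => fderiv ℝ (fun w : ℂ => Real.cos (ip ξ w)) y v) =
        fun y => -(Real.sin (ip ξ y)) * ip ξ v := by
      funext y
      rw [(d1 y).fderiv]
      simp [ipL_apply]
    rw [e1]
    have d3 : HasFDerivAt (fun y => -(Real.sin (ip ξ y)) * ip ξ v)
        (ip ξ v • -(Real.cos (ip ξ 0) • ipL ξ)) 0 := ((d2 0).neg).mul_const (ip ξ v)
    rw [d3.fderiv]
    simp [ipL_apply, ip]
    ring
  have e0 : lap (fun w : ℂ => Real.cos (ip ξ w)) 0 =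
      fderiv ℝ (fun y => fderiv ℝ (fun w : ℂ => Real.cos (ip ξ w)) y 1) 0 1 +
      fderiv ℝ (fun y => fderiv ℝ (fun w : ℂ => Real.cos (ip ξ w)) y I) 0 I := rfl
  rw [e0, e 1, e I]
  simp [ip]
  ring

/-- an even kernel -/
lemma cos_rep {Q : ℂ → ℝ} (hQ : Continuous Q) (hs : Sp Q) (he : ∀ w, Q (-w) = Q w) (ξ x : ℂ) :
    ∫ w, Real.cos (ip ξ (x + w)) * Q w = Real.cos (ip ξ x) * ∫ w, Real.cos (ip ξ w) * Q w := by
  have c1 : Continuous fun w => Real.cos (ip ξ w) * Q w :=
    (Real.continuous_cos.comp (ip_cont ξ)).mul hQ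
  have c2 : Continuous fun w => Real.sin (ip ξ w) * Q w :=
    (Real.continuous_sin.comp (ip_cont ξ)).mul hQ
  have i1 : Integrable fun w => Real.cos (ip ξ w) * Q w :=
    c1.integrable_of_hasCompactSupport hs.comp.mul_left
  have i2 : Integrable fun w => Real.sin (ip ξ w) * Q w :=
    c2.integrable_of_hasCompactSupport hs.comp.mul_left
  have h0 : ∫ w, Real.sin (ip ξ w) * Q w = 0 := by
    have h3 := integral_neg_eq_self (fun w => Real.sin (ip ξ w) * Q w) (volume : Measure ℂ)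
    simp only [he, ip_neg, Real.sin_neg, neg_mul] at h3
    rw [integral_neg] at h3
    linarith
  have e : ∀ w, Real.cos (ip ξ (x + w)) * Q w = Real.cos (ip ξ x) * (Real.cos (ip ξ w) * Q w) -
      Real.sin (ip ξ x) * (Real.sin (ip ξ w) * Q w) := by
    intro w
    rw [ip_add, Real.cos_add]; ring
  simp only [e]
  rw [integral_sub (i1.const_mul _) (i2.const_mul _), integral_const_mul, integral_const_mul, h0,
    mul_zero, sub_zero]

theorem unit_rep {ξ : ℂ} (h1 : ∫ w, Real.cos (ip ξ w) * psi w = 1)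
    (h2 : ∫ w, Real.cos (ip ξ w) * lap psi w = -1) : ξ.re ^ 2 + ξ.im ^ 2 = 1 := by
  have h := (reg (f := fun w => Real.cos (ip ξ w)) (Real.continuous_cos.comp (ip_cont ξ))
    (fun x => by
      have := cos_rep psi_smooth.continuous psiSp psi_even ξ x
      rw [h1, mul_one] at this
      exact this)
    (fun x => by
      have := cos_rep lapsi_smooth.continuous lapsi_Sp lapsi_even ξ x
      rw [h2, mul_neg, mul_one] at this
      exact this)).2 0
  rw [lap_cosi] at h
  have h3 : Real.cos (ip ξ 0) = 1 := by simp [ip]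
  rw [h3] at h
  linarith

end

end Pool.Agent.K3h40.EC
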