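import Pool.Agent.H506R3.Mag.Boch2

/-! Bochner's theorem in finite dimension, with explicit approximants (helper40). -/

set_option autoImplicit false

open MeasureTheory Filter Topology
open scoped FourierTransform RealInnerProductSpace NNReal ENNReal BoundedContinuousFunction

namespace Pool.Agent.K3h40.EC

open Pool.Agent.H506R3.Mag

noncomputable section

variable {V : Type*} [NormedAddCommGroup V] [InnerProductSpace ℝ V] [FiniteDimensional ℝ V]
  [MeasurableSpace V] [BorelSpace V]

/-- normalised positive semidefinite functions -/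
structure Psd (f : V → ℝ) : Prop where
  psd : PSDFun f
  cont : Continuous f
  le : ∀ x, |f x| ≤ 1
  even : ∀ x, f (-x) = f x
  one : f 0 = 1

/-- the measure with the density given by the cosine transform -/
def Qm (f : V → ℝ) : Measure V :=
  (volume.withDensity fun ξ => ENNReal.ofReal (ct f ξ)).map fun x => (2 * Real.pi) • x

lemma Qm_char {f : V → ℝ} (h : Psd f) (hi : Integrable f) :
    IsProbabilityMeasure (Qm f) ∧ ∀ x, charFun (Qm f) x = (f x : ℂ) := by
  have hnn : ∀ ξ, 0 ≤ ct f ξ := fourier_nonneg h.psd h.cont h.le hi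
  have hcc := ct_cont h.cont hi h.even
  have hci := ct_int h.psd h.cont h.le hi h.even
  have hF : 𝓕 (fun x => (f x : ℂ)) = fun ξ => (ct f ξ : ℂ) :=
    funext (fourier_eq_ct h.cont hi h.even)
  have hinv : 𝓕⁻ (fun ξ => (ct f ξ : ℂ)) = fun x => (f x : ℂ) := by
    rw [← hF]
    refine Continuous.fourierInv_fourier_eq (by have := h.cont; fun_prop) hi.ofReal ?_
    rw [hF]
    exact hci.ofReal
  have hGm : Measurable fun ξ => ENNReal.ofReal (ct f ξ) := hcc.measurable.ennreal_ofReal
  have hQ : IsFiniteMeasure ((volume : Measure V).withDensity fun ξ => ENNReal.ofReal (ct f ξ)) :=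
    isFiniteMeasure_withDensity hci.lintegral_lt_top.ne
  have hPm : Measurable (fun x : V => (2 * Real.pi) • x) := by fun_prop
  have hPf : IsFiniteMeasure (Qm f) := Measure.isFiniteMeasure_map _ _
  have hchar : ∀ x, charFun (Qm f) x = (f x : ℂ) := by
    intro x
    unfold Qm
    rw [charFun_apply, integral_map hPm.aemeasurable (by fun_prop)]
    rw [integral_withDensity_eq_integral_toReal_smul hGm
      (Eventually.of_forall fun _ => ENNReal.ofReal_lt_top)]
    have h1 := congrFun hinv x
    rw [Real.fourierInv_eq'] at h1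
    rw [← h1]
    refine integral_congr_ae (Filter.Eventually.of_forall fun ξ => ?_)
    simp only [ENNReal.toReal_ofReal (hnn ξ), inner_smul_left, smul_eq_mul]
    rw [Complex.real_smul, mul_comm]
    simp
  refine ⟨⟨?_⟩, hchar⟩
  have h1 := hchar 0
  rw [charFun_zero, h.one] at h1
  have h2 : (Qm f).real Set.univ = 1 := by exact_mod_cast h1
  rw [measureReal_def] at h2
  rw [← ENNReal.ofReal_toReal (measure_ne_top (Qm f) Set.univ), h2, ENNReal.ofReal_one]

/-- the Gaussian approximants -/
def fg (f : V → ℝ) (n : ℕ) (x : V) : ℝ := f x * gau (1 / ((n : ℝ) + 1) / 2) x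

lemma psd_gau {f : V → ℝ} (hf : PSDFun f) {ε : ℝ} (hε : 0 < ε) :
    PSDFun fun x => f x * gau (ε / 2) x := by
  intro s w
  have hK : 0 < ∫ x : V, gau (2 * ε) x := by
    refine (integral_pos_iff_support_of_nonneg (fun x => (gau_pos _ x).le)
      (gau_int (by positivity))).2 ?_
    have : Function.support (gau (2 * ε) : V → ℝ) = Set.univ := by
      ext x; simp [(gau_pos (2 * ε) x).ne']
    rw [this]
    exact NeZero.pos _
  have hi : ∀ x y : V, Integrable fun u : V => gau ε (u - x) * gau ε (u - y) := by
    intro x y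
    refine Integrable.mono' ((gau_int (V := V) hε).comp_sub_right x)
      (((gau_cont ε).comp (continuous_id.sub continuous_const)).mul
        ((gau_cont ε).comp (continuous_id.sub continuous_const))).aestronglyMeasurable
      (Eventually.of_forall fun u => ?_)
    rw [Real.norm_of_nonneg (mul_nonneg (gau_pos _ _).le (gau_pos _ _).le)]
    exact mul_le_of_le_one_right (gau_pos _ _).le (gau_le_one hε.le _)
  have e : ∀ x y : V, gau (ε / 2) (x - y) * (∫ u : V, gau (2 * ε) u) =
      ∫ u : V, gau ε (u - x) * gau ε (u - y) := by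
    intro x y
    rw [← gau_conv (x - y), ← integral_sub_right_eq_self
      (fun u : V => gau ε u * gau ε (u - (x - y))) y]
    refine integral_congr_ae (Eventually.of_forall fun u => ?_)
    simp only
    rw [mul_comm, show u - y - (x - y) = u - x by abel]
  have h1 : (∑ x ∈ s, ∑ y ∈ s, w x * w y * (f (x - y) * gau (ε / 2) (x - y))) *
      (∫ u : V, gau (2 * ε) u) =
      ∫ u : V, ∑ x ∈ s, ∑ y ∈ s, (w x * gau ε (u - x)) * (w y * gau ε (u - y)) * f (x - y) := by
    rw [integral_finsetSum]
    · rw [Finset.sum_mul]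
      refine Finset.sum_congr rfl fun x _ => ?_
      rw [integral_finsetSum]
      · rw [Finset.sum_mul]
        refine Finset.sum_congr rfl fun y _ => ?_
        have e1 : w x * w y * (f (x - y) * gau (ε / 2) (x - y)) * (∫ u : V, gau (2 * ε) u) =
            (w x * w y * f (x - y)) * (gau (ε / 2) (x - y) * ∫ u : V, gau (2 * ε) u) := by ring
        rw [e1, e x y, ← integral_const_mul]
        refine integral_congr_ae (Eventually.of_forall fun u => ?_)
        simp only
        ring
      · intro y _
        refine ((hi x y).const_mul (w x * w y * f (x - y))).congr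
          (Eventually.of_forall fun u => ?_)
        simp only
        ring
    · intro x _
      refine integrable_finsetSum _ fun y _ => ?_
      refine ((hi x y).const_mul (w x * w y * f (x - y))).congr
        (Eventually.of_forall fun u => ?_)
      simp only
      ring
  have h2 : 0 ≤ (∑ x ∈ s, ∑ y ∈ s, w x * w y * (f (x - y) * gau (ε / 2) (x - y))) *
      (∫ u : V, gau (2 * ε) u) := by
    rw [h1]
    exact integral_nonneg fun u => hf s fun x => w x * gau ε (u - x)
  exact nonneg_of_mul_nonneg_left h2 hK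

lemma fg_psd {f : V → ℝ} (h : Psd f) (n : ℕ) : Psd (fg f n) ∧ Integrable (fg f n) := by
  have hn : (0 : ℝ) < 1 / ((n : ℝ) + 1) := by positivity
  have hb : ∀ x, |fg f n x| ≤ gau (1 / ((n : ℝ) + 1) / 2) x := by
    intro x
    unfold fg
    rw [abs_mul, abs_of_pos (gau_pos _ _)]
    exact mul_le_of_le_one_left (gau_pos _ _).le (h.le x)
  have hc : Continuous (fg f n) := h.cont.mul (gau_cont _)
  refine ⟨⟨psd_gau h.psd hn, hc, fun x => (hb x).trans (gau_le_one (by positivity) _),
    fun x => ?_, ?_⟩, ?_⟩
  · unfold fg gau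
    rw [h.even, norm_neg]
  · unfold fg gau
    rw [h.one]
    simp
  · exact Integrable.mono' (gau_int (by positivity)) hc.aestronglyMeasurable
      (Eventually.of_forall hb)

lemma fg_lim (f : V → ℝ) (x : V) : Tendsto (fun n => fg f n x) atTop (𝓝 (f x)) := by
  unfold fg gau
  have h2 : Tendsto (fun k : ℕ => -((1 / ((k : ℝ) + 1)) / 2) * ‖x‖ ^ 2) atTop
      (𝓝 (-(0 / 2) * ‖x‖ ^ 2)) :=
    ((tendsto_one_div_add_atTop_nhds_zero_nat.div_const 2).neg).mul_const _
  have h3 := ((Real.continuous_exp.tendsto _).comp h2).const_mul (f x)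
  simpa [Function.comp_def] using h3

/-- Bochner's theorem, with convergence of the approximants -/
theorem bochner' {f : V → ℝ} (h : Psd f) : ∃ P : ProbabilityMeasure V,
    (∀ x, charFun (P : Measure V) x = (f x : ℂ)) ∧
    ∀ φ : V →ᵇ ℝ≥0, Tendsto (fun n => ∫⁻ x, φ x ∂(Qm (fg f n))) atTop
      (𝓝 (∫⁻ x, φ x ∂(P : Measure V))) := by
  have hp : ∀ n, IsProbabilityMeasure (Qm (fg f n)) := fun n =>
    (Qm_char (fg_psd h n).1 (fg_psd h n).2).1
  have hc : ∀ n x, charFun (Qm (fg f n)) x = (fg f n x : ℂ) := fun n =>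
    (Qm_char (fg_psd h n).1 (fg_psd h n).2).2
  let Q : ℕ → ProbabilityMeasure V := fun n => ⟨Qm (fg f n), hp n⟩
  have hlim : ∀ t, Tendsto (fun n => charFun (Qm (fg f n)) t) atTop (𝓝 ((f t : ℝ) : ℂ)) := by
    intro t
    simp only [hc]
    exact (Complex.continuous_ofReal.tendsto _).comp (fg_lim f t)
  have ht : IsTightMeasureSet (Set.range fun n => Qm (fg f n)) :=
    isTightMeasureSet_of_tendsto_charFun (f := fun t => ((f t : ℝ) : ℂ))
      (Complex.continuous_ofReal.comp h.cont).continuousAt hlim
  have hK : IsCompact (closure (Set.range Q)) := by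
    refine isCompact_closure_of_isTightMeasureSet ?_
    convert ht using 1
    ext P
    constructor
    · rintro ⟨_, ⟨n, rfl⟩, rfl⟩
      exact ⟨n, rfl⟩
    · rintro ⟨n, rfl⟩
      exact ⟨Q n, ⟨n, rfl⟩, rfl⟩
  have hle : Filter.map Q atTop ≤ 𝓟 (closure (Set.range Q)) :=
    le_principal_iff.2 (Filter.mem_map.2 (Eventually.of_forall fun n =>
      subset_closure (Set.mem_range_self n)))
  obtain ⟨P, -, hP⟩ := hK hle
  obtain ⟨U, hU, hUP⟩ := mapClusterPt_iff_ultrafilter.1 hP
  have hch : ∀ x, charFun (P : Measure V) x = (f x : ℂ) := by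
    intro x
    have h1 : Tendsto (fun n => charFun (Qm (fg f n)) x) U (𝓝 (charFun (P : Measure V) x)) := by
      rw [ProbabilityMeasure.tendsto_iff_forall_integral_rclike_tendsto ℂ] at hUP
      simp_rw [charFun_eq_integral_innerProbChar]
      exact hUP (BoundedContinuousFunction.innerProbChar x)
    exact tendsto_nhds_unique h1 ((hlim x).mono_left hU)
  have hT : Tendsto Q atTop (𝓝 P) := by
    refine ProbabilityMeasure.tendsto_of_tendsto_charFun fun t => ?_
    rw [hch t]
    exact hlim t
  refine ⟨P, hch, fun φ => ?_⟩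
  exact (ProbabilityMeasure.tendsto_iff_forall_lintegral_tendsto.1 hT) φ

end

end Pool.Agent.K3h40.EC
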