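import Pool.Agent.K3h40.EC.X2

/-! Measurable families of spectral measures (helper40). -/

set_option autoImplicit false

open MeasureTheory Filter Topology ProbabilityTheory
open scoped FourierTransform RealInnerProductSpace NNReal ENNReal BoundedContinuousFunction

namespace Pool.Agent.K3h40.EC

open Pool.Agent.H506R3.Mag

noncomputable section

variable {V : Type*} [NormedAddCommGroup V] [InnerProductSpace ℝ V] [FiniteDimensional ℝ V]
  [MeasurableSpace V] [BorelSpace V] {S : Type*} [MeasurableSpace S]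

lemma meas_ct {f : S → V → ℝ} (hf : Measurable fun p : S × V => f p.1 p.2) :
    Measurable fun p : S × V => ct (f p.1) p.2 := by
  have h1 : Measurable fun q : (S × V) × V =>
      f q.1.1 q.2 * Real.cos (2 * Real.pi * ⟪q.2, q.1.2⟫) := by
    have h2 : Measurable fun q : (S × V) × V => f q.1.1 q.2 :=
      hf.comp ((measurable_fst.comp measurable_fst).prodMk measurable_snd)
    have h3 : Measurable fun q : (S × V) × V => ⟪q.2, q.1.2⟫ :=
      measurable_snd.inner (measurable_snd.comp measurable_fst)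
    exact h2.mul (Real.measurable_cos.comp (h3.const_mul _))
  exact (h1.stronglyMeasurable.integral_prod_right (ν := (volume : Measure V))).measurable

lemma meas_Qm {f : S → V → ℝ} (hf : Measurable fun p : S × V => f p.1 p.2) {φ : V → ℝ≥0∞}
    (hφ : Measurable φ) : Measurable fun s => ∫⁻ x, φ x ∂(Qm (f s)) := by
  have hct := meas_ct hf
  have hm : Measurable (fun x : V => (2 * Real.pi) • x) := by fun_prop
  have e : ∀ s, ∫⁻ x, φ x ∂(Qm (f s)) =
      ∫⁻ ξ, ENNReal.ofReal (ct (f s) ξ) * φ ((2 * Real.pi) • ξ) := by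
    intro s
    unfold Qm
    rw [lintegral_map hφ hm]
    have hs : Measurable fun ξ => ENNReal.ofReal (ct (f s) ξ) :=
      (hct.comp (measurable_const.prodMk measurable_id)).ennreal_ofReal
    exact lintegral_withDensity_eq_lintegral_mul _ hs (hφ.comp hm)
  simp only [e]
  have h2 : Measurable fun p : S × V => ENNReal.ofReal (ct (f p.1) p.2) *
      φ ((2 * Real.pi) • p.2) :=
    hct.ennreal_ofReal.mul (hφ.comp (hm.comp measurable_snd))
  exact h2.lintegral_prod_right'

lemma meas_gau (n : ℕ) : Measurable (gau (1 / ((n : ℝ) + 1) / 2) : V → ℝ) :=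
  (gau_cont _).measurable

/-- measurable Bochner theorem -/
theorem kern {f : S → V → ℝ} (hf : Measurable fun p : S × V => f p.1 p.2) {G : Set S}
    (hG : MeasurableSet G) (h : ∀ s ∈ G, Psd (f s)) :
    ∃ κ : Kernel S V, IsMarkovKernel κ ∧ ∀ s ∈ G, ∀ x, charFun (κ s) x = (f s x : ℂ) := by
  classical
  have hne : Nonempty (ProbabilityMeasure V) := ⟨⟨Measure.dirac 0, inferInstance⟩⟩
  have hex : ∀ s, ∃ P : ProbabilityMeasure V, s ∈ G →
      (∀ x, charFun (P : Measure V) x = (f s x : ℂ)) ∧
      ∀ φ : V →ᵇ ℝ≥0, Tendsto (fun n => ∫⁻ x, φ x ∂(Qm (fg (f s) n))) atTop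
        (𝓝 (∫⁻ x, φ x ∂(P : Measure V))) := by
    intro s
    by_cases hs : s ∈ G
    · obtain ⟨P, hP⟩ := bochner' (h s hs)
      exact ⟨P, fun _ => hP⟩
    · exact ⟨hne.some, fun hc => absurd hc hs⟩
  choose P hP' using hex
  have hP : ∀ s ∈ G, ∀ x, charFun (P s : Measure V) x = (f s x : ℂ) := fun s hs => (hP' s hs).1
  have hPl : ∀ s ∈ G, ∀ φ : V →ᵇ ℝ≥0, Tendsto (fun n => ∫⁻ x, φ x ∂(Qm (fg (f s) n))) atTop
        (𝓝 (∫⁻ x, φ x ∂(P s : Measure V))) := fun s hs => (hP' s hs).2
  let μ : S → Measure V := fun s => if s ∈ G then (P s : Measure V) else Measure.dirac 0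
  have hμ : ∀ s, IsProbabilityMeasure (μ s) := by
    intro s
    by_cases hs : s ∈ G
    · simp only [μ, if_pos hs]; infer_instance
    · simp only [μ, if_neg hs]; infer_instance
  have h1 : ∀ φ : V →ᵇ ℝ≥0, Measurable fun s => ∫⁻ x, φ x ∂(μ s) := by
    intro φ
    have hφ : Measurable fun x => (φ x : ℝ≥0∞) := by
      exact (φ.continuous.measurable).coe_nnreal_ennreal
    refine measurable_of_tendsto_metrizable (f := fun n s =>
      if s ∈ G then ∫⁻ x, φ x ∂(Qm (fg (f s) n)) else (φ 0 : ℝ≥0∞)) (fun n => ?_) ?_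
    · refine Measurable.ite hG ?_ measurable_const
      refine meas_Qm (f := fun s => fg (f s) n) ?_ hφ
      unfold fg
      exact hf.mul ((meas_gau n).comp measurable_snd)
    · rw [tendsto_pi_nhds]
      intro s
      by_cases hs : s ∈ G
      · simp only [μ, if_pos hs]
        exact hPl s hs φ
      · simp only [μ, if_neg hs]
        rw [lintegral_dirac' _ hφ]
        exact tendsto_const_nhds
  have h2 : Measurable μ := by
    refine Measurable.measure_of_isPiSystem_of_isProbabilityMeasure
      (S := {s | IsClosed s}) ?_ isPiSystem_isClosed ?_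
    · rw [‹BorelSpace V›.measurable_eq, borel_eq_generateFrom_isClosed]
    · intro F hF
      have hF' : IsClosed F := hF
      have hδ : ∀ n : ℕ, (0 : ℝ) < 1 / ((n : ℝ) + 1) := fun n => by positivity
      refine measurable_of_tendsto_metrizable (f := fun n s =>
        ∫⁻ x, (thickenedIndicator (hδ n) F x : ℝ≥0∞) ∂(μ s)) (fun n => h1 _) ?_
      rw [tendsto_pi_nhds]
      intro s
      exact tendsto_lintegral_thickenedIndicator_of_isClosed (μ s) hF' hδ
        tendsto_one_div_add_atTop_nhds_zero_nat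
  refine ⟨⟨μ, h2⟩, ⟨hμ⟩, fun s hs x => ?_⟩
  have e : (⟨μ, h2⟩ : Kernel S V) s = (P s : Measure V) := by
    show μ s = _
    simp only [μ, if_pos hs]
  rw [e]
  exact hP s hs x

end

end Pool.Agent.K3h40.EC
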