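import Pool.Agent.K3h40.EC.X1

/-! Spectral measures of reproduced covariance functions live on the unit circle (helper40). -/

set_option autoImplicit false

open MeasureTheory Filter Topology Complex
open scoped ContDiff

namespace Pool.Agent.K3h40.EC

open Pool.Agent.W745.RW

noncomputable section

/-- the character -/
def ex (ξ w : ℂ) : ℂ := Complex.exp ((ip ξ w : ℝ) * I)

lemma ex_norm (ξ w : ℂ) : ‖ex ξ w‖ = 1 := Complex.norm_exp_ofReal_mul_I _

lemma ex_cont : Continuous fun p : ℂ × ℂ => ex p.1 p.2 := by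
  unfold ex ip; fun_prop

lemma ex_add (ξ x w : ℂ) : ex ξ (x + w) = ex ξ x * ex ξ w := by
  unfold ex
  rw [ip_add, ← Complex.exp_add]
  congr 1
  push_cast; ring

lemma ex_conj (ξ w : ℂ) : (starRingEnd ℂ) (ex ξ w) = ex ξ (-w) := by
  unfold ex
  rw [ip_neg, ← Complex.exp_conj]
  congr 1
  simp

variable {P : Measure ℂ} [IsProbabilityMeasure P] {f : ℂ → ℝ} {Q : ℂ → ℝ}

/-- the transform of the kernel -/
def tg (Q : ℂ → ℝ) (ξ : ℂ) : ℂ := ∫ w, (Q w : ℂ) * ex ξ w

lemma tg_int (hQ : Continuous Q) (hs : Sp Q) (ξ : ℂ) : Integrable fun w => (Q w : ℂ) * ex ξ w := by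
  have c1 : Continuous fun w => (Q w : ℂ) * ex ξ w :=
    (Complex.continuous_ofReal.comp hQ).mul (ex_cont.comp (continuous_const.prodMk continuous_id))
  refine c1.integrable_of_hasCompactSupport ?_
  refine HasCompactSupport.mul_right ?_
  exact hs.comp.comp_left (g := fun x : ℝ => (x : ℂ)) (by simp)

lemma Q_int (hQ : Continuous Q) (hs : Sp Q) : Integrable Q :=
  hQ.integrable_of_hasCompactSupport hs.comp

lemma tg_bd (ξ : ℂ) : ‖tg Q ξ‖ ≤ ∫ w, |Q w| := by
  unfold tg
  refine (norm_integral_le_integral_norm _).trans (le_of_eq ?_)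
  refine integral_congr_ae (Eventually.of_forall fun w => ?_)
  simp only
  rw [norm_mul, ex_norm, mul_one, Complex.norm_real, Real.norm_eq_abs]

lemma tg_meas (hQ : Continuous Q) : Measurable (tg Q) := by
  have h1 : StronglyMeasurable fun p : ℂ × ℂ => (Q p.2 : ℂ) * ex p.1 p.2 :=
    ((Complex.continuous_ofReal.comp (hQ.comp continuous_snd)).mul ex_cont).stronglyMeasurable
  exact (h1.integral_prod_right (ν := (volume : Measure ℂ))).measurable

lemma fub (hQ : Continuous Q) (hs : Sp Q) {h : ℂ → ℂ} (hm : Measurable h) {C : ℝ}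
    (hb : ∀ ξ, ‖h ξ‖ ≤ C) (σ : ℂ → ℂ) (hσ : Continuous σ) :
    ∫ ξ, (∫ w, (Q w : ℂ) * ex ξ (σ w)) * h ξ ∂P = ∫ w, (Q w : ℂ) * ∫ ξ, ex ξ (σ w) * h ξ ∂P := by
  have hi : Integrable (fun p : ℂ × ℂ => ((Q p.2 : ℂ) * ex p.1 (σ p.2)) * h p.1)
      (P.prod volume) := by
    have hq : Integrable (fun p : ℂ × ℂ => C * |Q p.2|) (P.prod volume) :=
      (((integrable_const (1 : ℝ)).mul_prod (Q_int hQ hs).abs).const_mul C).congr
        (Eventually.of_forall fun p => by simp)
    refine Integrable.mono' hq ?_ (Eventually.of_forall fun p => ?_)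
    · have c1 : Continuous fun p : ℂ × ℂ => (Q p.2 : ℂ) * ex p.1 (σ p.2) :=
        (Complex.continuous_ofReal.comp (hQ.comp continuous_snd)).mul
          (ex_cont.comp (continuous_fst.prodMk (hσ.comp continuous_snd)))
      exact (c1.measurable.mul (hm.comp measurable_fst)).aestronglyMeasurable
    · rw [norm_mul, norm_mul, ex_norm, mul_one, Complex.norm_real, Real.norm_eq_abs, mul_comm]
      exact mul_le_mul_of_nonneg_right (hb _) (abs_nonneg _)
  have h1 : ∫ ξ, (∫ w, (Q w : ℂ) * ex ξ (σ w)) * h ξ ∂P =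
      ∫ ξ, (∫ w, ((Q w : ℂ) * ex ξ (σ w)) * h ξ) ∂P := by
    refine integral_congr_ae (Eventually.of_forall fun ξ => ?_)
    simp only
    exact (integral_mul_const (h ξ) fun w => (Q w : ℂ) * ex ξ (σ w)).symm
  have h2 := integral_integral_swap (μ := P) (ν := (volume : Measure ℂ))
    (f := fun ξ w => ((Q w : ℂ) * ex ξ (σ w)) * h ξ) hi
  rw [h1, h2]
  refine integral_congr_ae (Eventually.of_forall fun w => ?_)
  simp only
  refine Eq.trans ?_ (integral_const_mul (Q w : ℂ) fun ξ => ex ξ (σ w) * h ξ)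
  refine integral_congr_ae (Eventually.of_forall fun ξ => ?_)
  simp only
  ring

/-- the kernel acts on almost all frequencies as on the covariance -/
theorem eig (hc : ∀ x, ∫ ξ, ex ξ x ∂P = (f x : ℂ)) (hQ : Continuous Q) (hs : Sp Q) {τ : ℝ}
    (h : ∀ x, ∫ w, f (x + w) * Q w = τ * f x) :
    ∀ᵐ ξ ∂P, ∫ w, Real.cos (ip ξ w) * Q w = τ := by
  have hgm := tg_meas hQ
  set C := ∫ w, |Q w| with hC
  have hexm : ∀ x : ℂ, Measurable fun ξ => ex ξ x := fun x =>
    (ex_cont.comp (continuous_id.prodMk continuous_const)).measurable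
  -- the first moment
  have A : ∀ x, ∫ ξ, ex ξ x * (tg Q ξ - τ) ∂P = 0 := by
    intro x
    have i1 : Integrable (fun ξ => ex ξ x * tg Q ξ) P := by
      refine Integrable.mono' (integrable_const C) ((hexm x).mul hgm).aestronglyMeasurable
        (Eventually.of_forall fun ξ => ?_)
      rw [norm_mul, ex_norm, one_mul]
      exact tg_bd ξ
    have i2 : Integrable (fun ξ => ex ξ x * (τ : ℂ)) P := by
      refine Integrable.mono' (integrable_const |τ|)
        ((hexm x).mul_const _).aestronglyMeasurable (Eventually.of_forall fun ξ => ?_)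
      rw [norm_mul, ex_norm, one_mul, Complex.norm_real, Real.norm_eq_abs]
    have e1 : ∫ ξ, ex ξ x * (tg Q ξ - τ) ∂P =
        (∫ ξ, ex ξ x * tg Q ξ ∂P) - ∫ ξ, ex ξ x * (τ : ℂ) ∂P := by
      rw [← integral_sub i1 i2]
      exact integral_congr_ae (Eventually.of_forall fun ξ => by ring)
    have e2 : ∫ ξ, ex ξ x * tg Q ξ ∂P = (τ : ℂ) * (f x : ℂ) := by
      have h1 := fub (P := P) hQ hs (hexm x) (C := 1) (fun ξ => (ex_norm ξ x).le) (fun w => w)
        continuous_id
      have h2 : ∫ ξ, ex ξ x * tg Q ξ ∂P = ∫ ξ, (∫ w, (Q w : ℂ) * ex ξ w) * ex ξ x ∂P :=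
        integral_congr_ae (Eventually.of_forall fun ξ => by simp only [tg]; ring)
      rw [h2, h1]
      have h3 : ∀ w, (Q w : ℂ) * ∫ ξ, ex ξ w * ex ξ x ∂P = ((f (x + w) * Q w : ℝ) : ℂ) := by
        intro w
        have h4 : ∀ ξ, ex ξ w * ex ξ x = ex ξ (x + w) := fun ξ => by rw [ex_add]; ring
        simp only [h4]
        rw [hc]
        push_cast; ring
      simp only [h3]
      rw [integral_complex_ofReal, h x]
      push_cast; ring
    rw [e1, e2, integral_mul_const, hc]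
    ring
  -- the second moment
  have hb : ∀ ξ, ‖tg Q ξ - τ‖ ≤ C + |τ| := fun ξ =>
    (norm_sub_le _ _).trans (add_le_add (tg_bd ξ) (by rw [Complex.norm_real, Real.norm_eq_abs]))
  have hgt : Measurable fun ξ => tg Q ξ - (τ : ℂ) := hgm.sub_const _
  have B1 : ∫ ξ, (starRingEnd ℂ) (tg Q ξ) * (tg Q ξ - τ) ∂P = 0 := by
    have e1 : ∀ ξ, (starRingEnd ℂ) (tg Q ξ) = ∫ w, (Q w : ℂ) * ex ξ (-w) := by
      intro ξ
      unfold tg
      rw [← integral_conj]
      refine integral_congr_ae (Eventually.of_forall fun w => ?_)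
      simp only
      rw [map_mul, Complex.conj_ofReal, ex_conj]
    simp only [e1]
    rw [fub (P := P) hQ hs hgt hb (fun w => -w) continuous_neg]
    simp only [A, mul_zero, integral_zero]
  have B2 : ∫ ξ, (tg Q ξ - (τ : ℂ)) ∂P = 0 := by
    have := A 0
    have e0 : ∀ ξ, ex ξ 0 = 1 := fun ξ => by simp [ex, ip]
    simpa only [e0, one_mul] using this
  have i3 : Integrable (fun ξ => (starRingEnd ℂ) (tg Q ξ) * (tg Q ξ - τ)) P := by
    refine Integrable.mono' (integrable_const (C * (C + |τ|)))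
      ((Complex.continuous_conj.measurable.comp hgm).mul hgt).aestronglyMeasurable
      (Eventually.of_forall fun ξ => ?_)
    rw [norm_mul, RCLike.norm_conj]
    have hC0 : 0 ≤ C := integral_nonneg fun w => abs_nonneg _
    exact mul_le_mul (tg_bd ξ) (hb ξ) (norm_nonneg _) hC0
  have i4 : Integrable (fun ξ => tg Q ξ - (τ : ℂ)) P :=
    Integrable.mono' (integrable_const (C + |τ|)) hgt.aestronglyMeasurable
      (Eventually.of_forall hb)
  have B3 : ∫ ξ, ((‖tg Q ξ - τ‖ ^ 2 : ℝ) : ℂ) ∂P = 0 := by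
    have e1 : ∀ ξ, ((‖tg Q ξ - τ‖ ^ 2 : ℝ) : ℂ) =
        (starRingEnd ℂ) (tg Q ξ) * (tg Q ξ - τ) - (τ : ℂ) * (tg Q ξ - τ) := by
      intro ξ
      have h5 : ((‖tg Q ξ - τ‖ ^ 2 : ℝ) : ℂ) =
          (starRingEnd ℂ) (tg Q ξ - τ) * (tg Q ξ - τ) := by
        rw [← Complex.normSq_eq_norm_sq, Complex.normSq_eq_conj_mul_self]
      rw [h5, map_sub, Complex.conj_ofReal]
      ring
    simp only [e1]
    rw [integral_sub i3 (i4.const_mul _), B1, integral_const_mul, B2]
    simp
  rw [integral_complex_ofReal, Complex.ofReal_eq_zero] at B3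
  have i5 : Integrable (fun ξ => ‖tg Q ξ - τ‖ ^ 2) P := by
    refine Integrable.mono' (integrable_const ((C + |τ|) ^ 2))
      (hgt.norm.pow_const 2).aestronglyMeasurable (Eventually.of_forall fun ξ => ?_)
    rw [Real.norm_of_nonneg (by positivity)]
    exact pow_le_pow_left₀ (norm_nonneg _) (hb ξ) 2
  have h6 := (integral_eq_zero_iff_of_nonneg (fun ξ => by positivity) i5).1 B3
  filter_upwards [h6] with ξ hξ
  have h7 : tg Q ξ - τ = 0 := by
    have : ‖tg Q ξ - τ‖ ^ 2 = 0 := hξ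
    exact norm_eq_zero.1 (pow_eq_zero_iff (two_ne_zero) |>.1 this)
  have h8 : (tg Q ξ).re = τ := by
    rw [sub_eq_zero.1 h7, Complex.ofReal_re]
  rw [← h8]
  unfold tg
  have h9 := integral_re (tg_int hQ hs ξ)
  simp only [RCLike.re_to_complex] at h9
  rw [← h9]
  refine integral_congr_ae (Eventually.of_forall fun w => ?_)
  simp only
  rw [Complex.re_ofReal_mul, ex, Complex.exp_ofReal_mul_I_re]
  ring

theorem circ (hc : ∀ x, ∫ ξ, ex ξ x ∂P = (f x : ℂ)) (h1 : ∀ x, ∫ w, f (x + w) * psi w = f x)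
    (h2 : ∀ x, ∫ w, f (x + w) * lap psi w = - f x) : ∀ᵐ ξ ∂P, ξ.re ^ 2 + ξ.im ^ 2 = 1 := by
  have a1 := eig (P := P) hc psi_smooth.continuous psiSp (τ := 1)
    (fun x => by rw [one_mul]; exact h1 x)
  have a2 := eig (P := P) hc lapsi_smooth.continuous lapsi_Sp (τ := -1)
    (fun x => by rw [neg_one_mul]; exact h2 x)
  filter_upwards [a1, a2] with ξ k1 k2
  exact unit_rep k1 k2

end

end Pool.Agent.K3h40.EC
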