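import Pool.Agent.K3h40.EC.X4
import Pool.Agent.K3h40.EC.X3
import Pool.Agent.K3h40.EC.E

/-! The covariance function of a process of solutions with stationary second moments
(helper40). -/

set_option autoImplicit false

open MeasureTheory Filter Topology Complex
open scoped ContDiff

namespace Pool.Agent.K3h40.EC

open Pool.Agent.W745.RW Pool.Agent.H506R3.Mag

noncomputable section

lemma rp {f : ℂ → ℝ} (hf : ContDiff ℝ ∞ f) (he : ∀ y, lap f y + f y = 0) (x : ℂ) :
    ∫ w, f (x + w) * psi w = f x := by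
  have h := repR isOpen_univ (g := f) hf.contDiffOn (h := 1) one_pos
    (fun z _ => by rw [one_pow, one_mul]; exact he z) (z₀ := x) (Set.subset_univ _)
  rw [← h]
  refine integral_congr_ae (Eventually.of_forall fun w => ?_)
  simp [af]

lemma rl {f : ℂ → ℝ} (hf : ContDiff ℝ ∞ f) (he : ∀ y, lap f y + f y = 0) (x : ℂ) :
    ∫ w, f (x + w) * lap psi w = - f x := by
  have h := repL isOpen_univ (g := f) hf.contDiffOn (h := 1) one_pos
    (fun z _ => by rw [one_pow, one_mul]; exact he z) (z₀ := x) (Set.subset_univ _)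
  rw [← h]
  refine integral_congr_ae (Eventually.of_forall fun w => ?_)
  simp [af]

lemma cs_ball {f : ℂ → ℝ} (hf : Continuous f) {R : ℝ} (hR : 0 < R) :
    (∫ z in Metric.closedBall (0 : ℂ) R, |f z|) ^ 2 ≤
      volume.real (Metric.closedBall (0 : ℂ) R) * ∫ z in Metric.closedBall (0 : ℂ) R, f z ^ 2 := by
  have hK : IsCompact (Metric.closedBall (0 : ℂ) R) := isCompact_closedBall _ _
  have hv : 0 < volume.real (Metric.closedBall (0 : ℂ) R) := by
    rw [measureReal_def]
    refine ENNReal.toReal_pos ?_ hK.measure_lt_top.ne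
    exact (lt_of_lt_of_le (Metric.measure_ball_pos _ _ hR)
      (measure_mono Metric.ball_subset_closedBall)).ne'
  set v := volume.real (Metric.closedBall (0 : ℂ) R) with hvd
  set A := ∫ z in Metric.closedBall (0 : ℂ) R, |f z| with hA
  have i1 : IntegrableOn (fun z => f z ^ 2) (Metric.closedBall (0 : ℂ) R) :=
    (hf.pow 2).continuousOn.integrableOn_compact hK
  have i2 : IntegrableOn (fun z => |f z|) (Metric.closedBall (0 : ℂ) R) :=
    hf.abs.continuousOn.integrableOn_compact hK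
  have i3 : IntegrableOn (fun _ : ℂ => (A / v) ^ 2) (Metric.closedBall (0 : ℂ) R) :=
    continuous_const.continuousOn.integrableOn_compact hK
  have h0 : 0 ≤ ∫ z in Metric.closedBall (0 : ℂ) R, (|f z| - A / v) ^ 2 :=
    integral_nonneg fun z => sq_nonneg _
  have h1 : ∫ z in Metric.closedBall (0 : ℂ) R, (|f z| - A / v) ^ 2 =
      (∫ z in Metric.closedBall (0 : ℂ) R, f z ^ 2) - A ^ 2 / v := by
    have e : ∀ z, (|f z| - A / v) ^ 2 = f z ^ 2 - 2 * (A / v) * |f z| + (A / v) ^ 2 := by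
      intro z
      rw [← sq_abs (f z)]; ring
    simp only [e]
    have i4 : IntegrableOn (fun z => 2 * (A / v) * |f z|) (Metric.closedBall (0 : ℂ) R) :=
      i2.const_mul _
    have i5 : IntegrableOn (fun z => f z ^ 2 - 2 * (A / v) * |f z|)
        (Metric.closedBall (0 : ℂ) R) := i1.sub i4
    rw [integral_add i5 i3, integral_sub i1 i4,
      integral_const_mul, setIntegral_const, ← hA, ← hvd, smul_eq_mul]
    field_simp
    ring
  rw [h1, sub_nonneg, div_le_iff₀ hv] at h0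
  linarith

lemma sup_bd (n : ℕ) : ∃ C : ℝ, 0 ≤ C ∧ ∀ f : ℂ → ℝ, ContDiff ℝ ∞ f →
    (∀ y, lap f y + f y = 0) → ∀ a : ℂ, ‖a‖ ≤ n →
      f a ^ 2 ≤ C * ∫ z in Metric.closedBall (0 : ℂ) ((n + 1 : ℕ) : ℝ), f z ^ 2 := by
  obtain ⟨Cp, hCp⟩ := psi_comp.exists_bound_of_continuous psi_smooth.continuous
  set R : ℝ := ((n + 1 : ℕ) : ℝ) with hR
  have hRp : 0 < R := by rw [hR]; positivity
  refine ⟨Cp ^ 2 * volume.real (Metric.closedBall (0 : ℂ) R), by positivity,
    fun f hf he a ha => ?_⟩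
  have hK : IsCompact (Metric.closedBall (0 : ℂ) R) := isCompact_closedBall _ _
  have i2 : IntegrableOn (fun z => |f z|) (Metric.closedBall (0 : ℂ) R) :=
    hf.continuous.abs.continuousOn.integrableOn_compact hK
  have h1 : |f a| ≤ Cp * ∫ z in Metric.closedBall (0 : ℂ) R, |f z| := by
    rw [← rp hf he a, ← Real.norm_eq_abs]
    have e1 : ∫ w, f (a + w) * psi w = ∫ z, f z * psi (z - a) := by
      rw [← integral_add_left_eq_self (μ := (volume : Measure ℂ))
        (fun z => f z * psi (z - a)) a]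
      refine integral_congr_ae (Eventually.of_forall fun w => ?_)
      simp only
      rw [add_sub_cancel_left]
    rw [e1, ← integral_const_mul, ← integral_indicator measurableSet_closedBall]
    refine norm_integral_le_of_norm_le ?_ (Eventually.of_forall fun z => ?_)
    · exact (integrable_indicator_iff measurableSet_closedBall).2 (i2.const_mul Cp)
    · by_cases hz : z ∈ Metric.closedBall (0 : ℂ) R
      · rw [Set.indicator_of_mem hz, norm_mul, Real.norm_eq_abs, mul_comm]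
        exact mul_le_mul_of_nonneg_right (hCp _) (abs_nonneg _)
      · rw [Set.indicator_of_notMem hz]
        have h2 : psi (z - a) = 0 := by
          refine psi_zero ?_
          rw [Metric.mem_closedBall, dist_zero_right, not_le] at hz
          have h3 := norm_sub_norm_le z a
          have h4 : R = n + 1 := by rw [hR]; push_cast; ring
          linarith
        rw [h2]; simp
  have h2 := cs_ball hf.continuous hRp
  have hCp0 : 0 ≤ Cp := (norm_nonneg _).trans (hCp 0)
  calc f a ^ 2 = |f a| ^ 2 := (sq_abs _).symm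
    _ ≤ (Cp * ∫ z in Metric.closedBall (0 : ℂ) R, |f z|) ^ 2 :=
        pow_le_pow_left₀ (abs_nonneg _) h1 2
    _ = Cp ^ 2 * (∫ z in Metric.closedBall (0 : ℂ) R, |f z|) ^ 2 := by ring
    _ ≤ Cp ^ 2 * (volume.real (Metric.closedBall (0 : ℂ) R) *
        ∫ z in Metric.closedBall (0 : ℂ) R, f z ^ 2) :=
        mul_le_mul_of_nonneg_left h2 (sq_nonneg _)
    _ = _ := by ring

variable {S : Type*} [MeasurableSpace S] {κ : Measure S} {F : S → ℂ → ℝ}

/-- processes of solutions -/
structure Ps (F : S → ℂ → ℝ) : Prop where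
  joint : Measurable fun p : S × ℂ => F p.1 p.2
  smooth : ∀ s, ContDiff ℝ ∞ (F s)
  eigen : ∀ s y, lap (F s) y + F s y = 0

/-- local mass -/
def Dm (F : S → ℂ → ℝ) (n : ℕ) (s : S) : ℝ :=
  ∫ z in Metric.closedBall (0 : ℂ) (n : ℝ), F s z ^ 2

/-- finite and stationary second moments -/
structure Cs (κ : Measure S) (F : S → ℂ → ℝ) : Prop where
  int : ∀ n : ℕ, Integrable (Dm F n) κ
  st : ∃ T : Set ℂ, Dense T ∧ ∀ a ∈ T, ∀ b ∈ T, ∀ t ∈ T,
    ∫ s, F s (a + t) * F s (b + t) ∂κ = ∫ s, F s a * F s b ∂κ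

lemma bd2 (hF : Ps F) (n : ℕ) : ∃ C : ℝ, 0 ≤ C ∧ ∀ s, ∀ a b : ℂ, ‖a‖ ≤ n → ‖b‖ ≤ n →
    |F s a * F s b| ≤ C * Dm F (n + 1) s := by
  obtain ⟨C, hC, h⟩ := sup_bd n
  refine ⟨C, hC, fun s a b ha hb => ?_⟩
  have h1 := h _ (hF.smooth s) (hF.eigen s) a ha
  have h2 := h _ (hF.smooth s) (hF.eigen s) b hb
  rw [abs_mul]
  have e : (∫ z in Metric.closedBall (0 : ℂ) ((n + 1 : ℕ) : ℝ), F s z ^ 2) = Dm F (n + 1) s := rfl
  rw [e] at h1 h2
  rw [← sq_abs] at h1 h2
  nlinarith [sq_nonneg (|F s a| - |F s b|)]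

lemma F_m (hF : Ps F) (a : ℂ) : Measurable fun s => F s a :=
  hF.joint.comp (measurable_id.prodMk measurable_const)

lemma FF_int (hF : Ps F) (h : Cs κ F) (a b : ℂ) : Integrable (fun s => F s a * F s b) κ := by
  obtain ⟨n, hn⟩ := exists_nat_ge (max ‖a‖ ‖b‖)
  obtain ⟨C, hC, hb⟩ := bd2 hF n
  exact Integrable.mono' ((h.int (n + 1)).const_mul C)
    ((F_m hF a).mul (F_m hF b)).aestronglyMeasurable
    (Eventually.of_forall fun s => hb s a b ((le_max_left _ _).trans hn)
      ((le_max_right _ _).trans hn))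

lemma CC_cont (hF : Ps F) (h : Cs κ F) :
    Continuous fun p : ℂ × ℂ => ∫ s, F s p.1 * F s p.2 ∂κ := by
  rw [continuous_iff_continuousAt]
  intro p₀
  obtain ⟨n, hn⟩ := exists_nat_ge (max ‖p₀.1‖ ‖p₀.2‖ + 1)
  obtain ⟨C, hC, hb⟩ := bd2 hF n
  have hn1 : ∀ᶠ p : ℂ × ℂ in 𝓝 p₀, ‖p.1‖ ≤ n ∧ ‖p.2‖ ≤ n := by
    have a1 : ∀ᶠ p : ℂ × ℂ in 𝓝 p₀, ‖p.1‖ < ‖p₀.1‖ + 1 :=
      (continuous_fst.norm.continuousAt (x := p₀)).eventually (gt_mem_nhds (by linarith))
    have a2 : ∀ᶠ p : ℂ × ℂ in 𝓝 p₀, ‖p.2‖ < ‖p₀.2‖ + 1 :=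
      (continuous_snd.norm.continuousAt (x := p₀)).eventually (gt_mem_nhds (by linarith))
    filter_upwards [a1, a2] with p h1 h2
    have := le_max_left ‖p₀.1‖ ‖p₀.2‖
    have := le_max_right ‖p₀.1‖ ‖p₀.2‖
    constructor <;> linarith
  refine continuousAt_of_dominated (bound := fun s => C * Dm F (n + 1) s) ?_ ?_
    ((h.int (n + 1)).const_mul C) ?_
  · exact Eventually.of_forall fun p => ((F_m hF p.1).mul (F_m hF p.2)).aestronglyMeasurable
  · filter_upwards [hn1] with p hp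
    exact Eventually.of_forall fun s => hb s p.1 p.2 hp.1 hp.2
  · refine Eventually.of_forall fun s => ?_
    have hc := (hF.smooth s).continuous
    exact ((hc.comp continuous_fst).mul (hc.comp continuous_snd)).continuousAt

lemma CC_st (hF : Ps F) (h : Cs κ F) (a b t : ℂ) :
    ∫ s, F s (a + t) * F s (b + t) ∂κ = ∫ s, F s a * F s b ∂κ := by
  obtain ⟨T, hT, hst⟩ := h.st
  have hc := CC_cont hF h
  have c1 : Continuous fun q : ℂ × ℂ × ℂ => ∫ s, F s (q.1 + q.2.2) * F s (q.2.1 + q.2.2) ∂κ :=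
    hc.comp (f := fun q : ℂ × ℂ × ℂ => (q.1 + q.2.2, q.2.1 + q.2.2)) (by fun_prop)
  have c2 : Continuous fun q : ℂ × ℂ × ℂ => ∫ s, F s q.1 * F s q.2.1 ∂κ :=
    hc.comp (f := fun q : ℂ × ℂ × ℂ => (q.1, q.2.1)) (by fun_prop)
  have := Continuous.ext_on (hT.prod (hT.prod hT)) c1 c2 (fun q hq => by
    obtain ⟨h1, h2, h3⟩ := hq
    exact hst _ h1 _ h2 _ h3)
  exact congrFun this (a, b, t)

/-- the covariance function -/
def cv (κ : Measure S) (F : S → ℂ → ℝ) (w : ℂ) : ℝ := ∫ s, F s 0 * F s w ∂κ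

lemma CC_eq (hF : Ps F) (h : Cs κ F) (a b : ℂ) : ∫ s, F s a * F s b ∂κ = cv κ F (b - a) := by
  have := CC_st hF h 0 (b - a) a
  rw [zero_add, sub_add_cancel] at this
  exact this

lemma cv_cont (hF : Ps F) (h : Cs κ F) : Continuous (cv κ F) :=
  (CC_cont hF h).comp (continuous_const.prodMk continuous_id)

lemma cv_even (hF : Ps F) (h : Cs κ F) (w : ℂ) : cv κ F (-w) = cv κ F w := by
  have h1 := CC_eq hF h w 0
  rw [zero_sub] at h1
  rw [← h1]
  unfold cv
  exact integral_congr_ae (Eventually.of_forall fun s => mul_comm _ _)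

lemma cv_nn : 0 ≤ cv κ F 0 :=
  integral_nonneg fun _ => mul_self_nonneg _

lemma cv_le (hF : Ps F) (h : Cs κ F) (w : ℂ) : |cv κ F w| ≤ cv κ F 0 := by
  have i0 := FF_int hF h 0 0
  have iw := FF_int hF h w w
  have e0 : ∫ s, F s 0 * F s 0 ∂κ = cv κ F 0 := rfl
  have ew : ∫ s, F s w * F s w ∂κ = cv κ F 0 := by rw [CC_eq hF h, sub_self]
  have h1 : |cv κ F w| ≤ ∫ s, (F s 0 * F s 0 + F s w * F s w) / 2 ∂κ := by
    unfold cv
    rw [← Real.norm_eq_abs]
    refine norm_integral_le_of_norm_le ((i0.add iw).div_const 2)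
      (Eventually.of_forall fun s => ?_)
    rw [Real.norm_eq_abs, abs_mul]
    have a1 := abs_mul_abs_self (F s 0)
    have a2 := abs_mul_abs_self (F s w)
    nlinarith [sq_nonneg (|F s 0| - |F s w|)]
  refine h1.trans (le_of_eq ?_)
  rw [integral_div, integral_add i0 iw, e0, ew]
  ring

lemma cv_psd (hF : Ps F) (h : Cs κ F) : PSDFun (cv κ F) := by
  intro s w
  have e : ∑ x ∈ s, ∑ y ∈ s, w x * w y * cv κ F (x - y) =
      ∫ o, (∑ x ∈ s, w x * F o x) ^ 2 ∂κ := by
    have e1 : ∀ o, (∑ x ∈ s, w x * F o x) ^ 2 =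
        ∑ x ∈ s, ∑ y ∈ s, w x * w y * (F o y * F o x) := by
      intro o
      rw [sq, Finset.sum_mul_sum]
      refine Finset.sum_congr rfl fun x _ => Finset.sum_congr rfl fun y _ => ?_
      ring
    simp only [e1]
    rw [integral_finsetSum _ fun x _ => integrable_finsetSum _ fun y _ =>
      (FF_int hF h y x).const_mul _]
    refine Finset.sum_congr rfl fun x _ => ?_
    rw [integral_finsetSum _ fun y _ => (FF_int hF h y x).const_mul _]
    refine Finset.sum_congr rfl fun y _ => ?_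
    rw [integral_const_mul, CC_eq hF h]
  rw [e]
  exact integral_nonneg fun o => sq_nonneg _

lemma cv_rep [SFinite κ] (hF : Ps F) (h : Cs κ F) {Q : ℂ → ℝ} (hQ : Continuous Q) (hs : Sp Q)
    {τ : ℝ} (hr : ∀ s x, ∫ w, F s (x + w) * Q w = τ * F s x) (x : ℂ) :
    ∫ w, cv κ F (x + w) * Q w = τ * cv κ F x := by
  obtain ⟨n, hn⟩ := exists_nat_ge (‖x‖ + 1)
  obtain ⟨C, hC, hb⟩ := bd2 hF n
  have hi : Integrable (fun p : S × ℂ => F p.1 0 * F p.1 (x + p.2) * Q p.2)
      (κ.prod volume) := by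
    have hq : Integrable (fun p : S × ℂ => (C * Dm F (n + 1) p.1) * |Q p.2|) (κ.prod volume) :=
      ((h.int (n + 1)).const_mul C).mul_prod (Q_int hQ hs).abs
    refine Integrable.mono' hq ?_ (Eventually.of_forall fun p => ?_)
    · have m1 : Measurable fun p : S × ℂ => F p.1 0 := (F_m hF 0).comp measurable_fst
      have m2 : Measurable fun p : S × ℂ => F p.1 (x + p.2) :=
        hF.joint.comp (measurable_fst.prodMk (measurable_snd.const_add x))
      exact ((m1.mul m2).mul (hQ.measurable.comp measurable_snd)).aestronglyMeasurable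
    · rw [norm_mul, Real.norm_eq_abs, Real.norm_eq_abs]
      by_cases hw : ‖p.2‖ ≤ 1
      · refine mul_le_mul_of_nonneg_right (hb _ _ _ (by simp) ?_) (abs_nonneg _)
        exact (norm_add_le _ _).trans (by linarith)
      · push Not at hw
        rw [hs _ hw]; simp
  have h2 := integral_integral_swap (μ := κ) (ν := (volume : Measure ℂ))
    (f := fun s w => F s 0 * F s (x + w) * Q w) hi
  have e1 : ∀ w, cv κ F (x + w) * Q w = ∫ s, F s 0 * F s (x + w) * Q w ∂κ := by
    intro w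
    unfold cv
    rw [integral_mul_const]
  simp only [e1]
  rw [← h2]
  have e2 : ∀ s, ∫ w, F s 0 * F s (x + w) * Q w = τ * (F s 0 * F s x) := by
    intro s
    have e3 : ∀ w, F s 0 * F s (x + w) * Q w = F s 0 * (F s (x + w) * Q w) := fun w => by ring
    simp only [e3]
    rw [integral_const_mul, hr s x]
    ring
  simp only [e2]
  rw [integral_const_mul]
  rfl

/-- the normalised covariance function -/
theorem cv_Psd (hF : Ps F) (h : Cs κ F) (hm : 0 < cv κ F 0) :
    Psd fun w => cv κ F w / cv κ F 0 := by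
  refine ⟨fun s w => ?_, (cv_cont hF h).div_const _, fun x => ?_, fun x => ?_, div_self hm.ne'⟩
  · have e : ∑ x ∈ s, ∑ y ∈ s, w x * w y * (cv κ F (x - y) / cv κ F 0) =
        (∑ x ∈ s, ∑ y ∈ s, w x * w y * cv κ F (x - y)) / cv κ F 0 := by
      rw [Finset.sum_div]
      refine Finset.sum_congr rfl fun x _ => ?_
      rw [Finset.sum_div]
      refine Finset.sum_congr rfl fun y _ => ?_
      ring
    rw [e]
    exact div_nonneg (cv_psd hF h s w) hm.le
  · rw [abs_div, abs_of_pos hm, div_le_one hm]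
    exact cv_le hF h x
  · rw [cv_even hF h]

end

end Pool.Agent.K3h40.EC
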