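import Pool.Agent.K3h40.EC.X5

/-! Existence of the random spectral measure of a stationary wave (helper40). -/

set_option autoImplicit false

open MeasureTheory Filter Topology Complex ProbabilityTheory
open scoped ContDiff ENNReal RealInnerProductSpace

namespace Pool.Agent.K3h40.EC

open Pool.Agent.W745.RW Pool.Agent.R989.Erg Pool.Agent.H506R3.Mag
open Pool.Agent.R989.Asm (XW XW_meas)
open Pool.Agent.Results.MP_6b977f_mp.FourPointFunctions (cov)

noncomputable section

/-- conditional expectations given the invariant sets do not change under translations -/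
theorem shift_ce {L : Measure (ℂ → ℝ)} [IsProbabilityMeasure L]
    (hL : ∀ a, MeasurePreserving (sh a) L L) {X : (ℂ → ℝ) → ℝ} (hX : Measurable X)
    (hXi : Integrable X L) (t : ℂ) :
    L[fun p => X (sh t p) | inv L] =ᵐ[L] L[X | inv L] := by
  symm
  have hle : inv L ≤ MeasurableSpace.pi := inv_le L
  have hXt : Integrable (fun p => X (sh t p)) L := (hL t).integrable_comp_of_integrable hXi
  refine ae_eq_condExp_of_forall_setIntegral_eq hle hXt ?_ ?_ ?_
  · intro A _ _
    exact integrable_condExp.integrableOn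
  · intro A hA _
    rw [setIntegral_condExp hle hXi hA]
    have hAm : MeasurableSet A := hA.1
    have e1 : ∫ p, A.indicator X p ∂L = ∫ p, A.indicator X (sh t p) ∂L := by
      conv_lhs => rw [← (hL t).map_eq]
      exact integral_map (sh_meas t).aemeasurable (hX.indicator hAm).aestronglyMeasurable
    rw [← integral_indicator hAm, ← integral_indicator hAm, e1]
    refine integral_congr_ae ?_
    filter_upwards [hA.2 t] with p hp
    have hp' : (sh t p ∈ A) = (p ∈ A) := hp
    by_cases h : p ∈ A
    · rw [Set.indicator_of_mem h, Set.indicator_of_mem (by rw [hp']; exact h)]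
    · rw [Set.indicator_of_notMem h, Set.indicator_of_notMem (by rw [hp']; exact h)]
  · exact stronglyMeasurable_condExp.aestronglyMeasurable

section
variable {S : Type*} [MeasurableSpace S] {P : Measure S} [IsProbabilityMeasure P]
  {F : S → ℂ → ℝ}

lemma Wv2.ps (H : Wv2 P F) : Ps F := ⟨H.joint, H.smooth, H.eigen⟩

lemma Wv2.sq_eq (H : Wv2 P F) (z : ℂ) : Integrable (fun s => F s z ^ 2) P ∧
    ∫ s, F s z ^ 2 ∂P = ∫ s, F s 0 ^ 2 ∂P := by
  have hFm : Measurable F := F_meas H.joint
  have hm : ∀ a : ℂ, Measurable fun p : ℂ → ℝ => p a ^ 2 := fun a =>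
    (measurable_pi_apply a).pow_const 2
  constructor
  · exact (integrable_map_measure (hm z).aestronglyMeasurable hFm.aemeasurable).1 (H.pow2 z)
  · have hsm : Measurable fun s => sh z (F s) := (sh_meas z).comp hFm
    have e1 : ∫ s, F s z ^ 2 ∂P = ∫ p, p 0 ^ 2 ∂(P.map fun s => sh z (F s)) := by
      rw [integral_map hsm.aemeasurable (hm 0).aestronglyMeasurable]
      refine integral_congr_ae (Eventually.of_forall fun s => ?_)
      simp [sh]
    have e2 : P.map (fun s => sh z (F s)) = P.map F := H.stat z
    rw [e1, e2, integral_map hFm.aemeasurable (hm 0).aestronglyMeasurable]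

lemma Wv2.dm_int (H : Wv2 P F) (n : ℕ) : Integrable (Dm F n) P := by
  have hm : Measurable fun p : S × ℂ => F p.1 p.2 ^ 2 := H.joint.pow_const 2
  have hfin : IsFiniteMeasure ((volume : Measure ℂ).restrict (Metric.closedBall (0 : ℂ) n)) :=
    ⟨by
      rw [Measure.restrict_apply_univ]
      exact (isCompact_closedBall _ _).measure_lt_top⟩
  have h1 : Integrable (fun p : S × ℂ => F p.1 p.2 ^ 2)
      (P.prod ((volume : Measure ℂ).restrict (Metric.closedBall (0 : ℂ) n))) := by
    rw [integrable_prod_iff' hm.aestronglyMeasurable]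
    constructor
    · exact Eventually.of_forall fun z => (H.sq_eq z).1
    · refine (integrable_const (∫ s, F s 0 ^ 2 ∂P)).congr (Eventually.of_forall fun z => ?_)
      simp only
      rw [← (H.sq_eq z).2]
      refine integral_congr_ae (Eventually.of_forall fun s => ?_)
      simp only
      rw [Real.norm_of_nonneg (sq_nonneg _)]
  exact h1.integral_prod_left

lemma Wv2.ff (H : Wv2 P F) (a b : ℂ) : Integrable (fun p : ℂ → ℝ => p a * p b) (P.map F) := by
  refine Integrable.mono' ((H.pow2 a).add (H.pow2 b))
    ((measurable_pi_apply a).mul (measurable_pi_apply b)).aestronglyMeasurable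
    (Eventually.of_forall fun p => ?_)
  simp only [Pi.add_apply]
  rw [Real.norm_eq_abs, abs_mul]
  rw [← sq_abs (p a), ← sq_abs (p b)]
  nlinarith [sq_nonneg (|p a| - |p b|), sq_nonneg (|p a|), sq_nonneg (|p b|)]

/-- the invariant sets -/
@[reducible] def iv (P : Measure S) (F : S → ℂ → ℝ) : MeasurableSpace S :=
  (inv (P.map F)).comap F

lemma iv_le (H : Wv2 P F) : iv P F ≤ ‹MeasurableSpace S› := by
  intro A hA
  obtain ⟨B, hB, rfl⟩ := hA
  exact F_meas H.joint (inv_le _ _ hB)

lemma ce_st (H : Wv2 P F) (a b t : ℂ) :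
    P[fun s => F s (a + t) * F s (b + t) | iv P F] =ᵐ[P] P[fun s => F s a * F s b | iv P F] := by
  have hlp : IsProbabilityMeasure (P.map F) := law_prob H.joint
  have hFm : Measurable F := F_meas H.joint
  have hX : Measurable fun p : ℂ → ℝ => p a * p b :=
    (measurable_pi_apply a).mul (measurable_pi_apply b)
  have h1 := ce_transfer (P := P) hFm (fun p => p a * p b) (H.ff a b) hX
  have h2 := ce_transfer (P := P) hFm (fun p => p (a + t) * p (b + t)) (H.ff (a + t) (b + t))
    ((measurable_pi_apply (a + t)).mul (measurable_pi_apply (b + t)))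
  have h3 := shift_ce (L := P.map F) H.mps hX (H.ff a b) t
  have h4 : (fun s => ((P.map F)[fun p => p (a + t) * p (b + t) | inv (P.map F)]) (F s)) =ᵐ[P]
      fun s => ((P.map F)[fun p => p a * p b | inv (P.map F)]) (F s) :=
    ae_of_ae_map hFm.aemeasurable h3
  exact h2.trans (h4.trans h1.symm)

variable [StandardBorelSpace S]

/-- the conditional laws have stationary second moments -/
lemma cond_Cs (H : Wv2 P F) : ∀ᵐ s ∂P, Cs (condExpKernel P (iv P F) s) F := by
  obtain ⟨T, hTc, hTd⟩ := TopologicalSpace.exists_countable_dense ℂ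
  have h1 : ∀ᵐ s ∂P, ∀ n : ℕ, Integrable (Dm F n) (condExpKernel P (iv P F) s) :=
    ae_all_iff.2 fun n => (H.dm_int n).condExpKernel_ae
  have hi : ∀ a b : ℂ, Integrable (fun s => F s a * F s b) P := fun a b =>
    (integrable_map_measure (H.ff a b).aestronglyMeasurable
      (F_meas H.joint).aemeasurable).1 (H.ff a b)
  have h2 : ∀ᵐ s ∂P, ∀ a ∈ T, ∀ b ∈ T, ∀ t ∈ T,
      ∫ o, F o (a + t) * F o (b + t) ∂(condExpKernel P (iv P F) s) =
        ∫ o, F o a * F o b ∂(condExpKernel P (iv P F) s) := by
    refine (ae_ball_iff hTc).2 fun a _ => (ae_ball_iff hTc).2 fun b _ =>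
      (ae_ball_iff hTc).2 fun t _ => ?_
    have e1 := condExp_ae_eq_integral_condExpKernel (iv_le H) (hi (a + t) (b + t))
    have e2 := condExp_ae_eq_integral_condExpKernel (iv_le H) (hi a b)
    filter_upwards [e1, e2, ce_st H a b t] with s k1 k2 k3
    rw [← k1, ← k2, k3]
  filter_upwards [h1, h2] with s k1 k2
  exact ⟨k1, T, hTd, k2⟩

end

end

end Pool.Agent.K3h40.EC
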