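import Pool.Agent.K3h40.EC.X6

/-! Existence of the random spectral measure of a stationary wave: assembly (helper40). -/

set_option autoImplicit false

open MeasureTheory Filter Topology Complex ProbabilityTheory
open scoped ContDiff ENNReal RealInnerProductSpace

namespace Pool.Agent.K3h40.EC

open Pool.Agent.W745.RW Pool.Agent.R989.Erg Pool.Agent.H506R3.Mag
open Pool.Agent.Results.MP_6b977f_mp.FourPointFunctions (cov)

noncomputable section

lemma charFun_ex (Q : Measure ℂ) (x : ℂ) : charFun Q x = ∫ ξ, ex ξ x ∂Q := by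
  rw [charFun_apply]
  refine integral_congr_ae (Eventually.of_forall fun ξ => ?_)
  simp only [ex]
  congr 2
  rw [Complex.inner]
  simp only [mul_re, conj_re, conj_im, ip]
  push_cast
  ring

lemma psd_one : Psd (fun _ : ℂ => (1 : ℝ)) := by
  refine ⟨fun s w => ?_, continuous_const, fun _ => by simp, fun _ => rfl, rfl⟩
  have e : ∑ x ∈ s, ∑ y ∈ s, w x * w y * (1 : ℝ) = (∑ x ∈ s, w x) * ∑ y ∈ s, w y := by
    rw [Finset.sum_mul_sum]
    simp
  rw [e]
  exact mul_self_nonneg _

lemma cov_of_circ {Q : Measure ℂ} [IsProbabilityMeasure Q] {f : ℂ → ℝ}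
    (hc : ∀ x, ∫ ξ, ex ξ x ∂Q = (f x : ℂ)) (h1 : ∀ᵐ ξ ∂Q, ξ.re ^ 2 + ξ.im ^ 2 = 1) (w : ℂ) :
    cov (Q.map Complex.arg) w = f w := by
  unfold cov
  have hm : AEStronglyMeasurable (fun α : ℝ => Real.cos (w.re * Real.cos α + w.im * Real.sin α))
      (Q.map Complex.arg) := by
    exact (by fun_prop : Continuous fun α : ℝ =>
      Real.cos (w.re * Real.cos α + w.im * Real.sin α)).aestronglyMeasurable
  rw [integral_map Complex.measurable_arg.aemeasurable hm]
  have hi : Integrable (fun ξ => ex ξ w) Q := by
    refine Integrable.mono' (integrable_const (1 : ℝ)) ?_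
      (Eventually.of_forall fun ξ => (ex_norm ξ w).le)
    exact (ex_cont.comp (continuous_id.prodMk continuous_const)).aestronglyMeasurable
  have h2 := integral_re hi
  simp only [RCLike.re_to_complex] at h2
  rw [hc w, Complex.ofReal_re] at h2
  rw [← h2]
  refine integral_congr_ae ?_
  filter_upwards [h1] with ξ hξ
  have hn : ‖ξ‖ = 1 := by
    have h3 : ‖ξ‖ ^ 2 = 1 := by
      rw [← Complex.normSq_eq_norm_sq, Complex.normSq_apply]
      linarith
    nlinarith [norm_nonneg ξ]
  have hne : ξ ≠ 0 := by
    intro h0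
    rw [h0, norm_zero] at hn
    exact zero_ne_one hn
  rw [ex, Complex.exp_ofReal_mul_I_re, Complex.cos_arg hne, Complex.sin_arg, hn, div_one, div_one,
    ip]
  congr 1
  ring

variable {S : Type*} [MeasurableSpace S] [StandardBorelSpace S] {P : Measure S}
  [IsProbabilityMeasure P] {F : S → ℂ → ℝ}

/-- **Existence of the random spectral measure.** -/
theorem ex_spec (H : Wv2 P F) : ∃ (m : S → ℝ) (ν : Kernel S ℝ), IsMarkovKernel ν ∧
    (∀ s, 0 ≤ m s) ∧ ∀ w : ℂ, P[fun s => F s 0 * F s w | iv P F] =ᵐ[P]
      fun s => m s * cov (ν s) w := by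
  classical
  have hF := H.ps
  let K : Kernel S S := (condExpKernel P (iv P F)).comap id (measurable_id'' (iv_le H))
  have hK : ∀ s, K s = condExpKernel P (iv P F) s := fun s => rfl
  have hKm : ∀ s, IsProbabilityMeasure (condExpKernel P (iv P F) s) := fun s => inferInstance
  have hKK : IsMarkovKernel K := ⟨fun s => by rw [hK s]; exact hKm s⟩
  -- the good set
  obtain ⟨G, hGm, hG, hG1⟩ : ∃ G : Set S, MeasurableSet G ∧
      (∀ s ∈ G, Cs (K s) F) ∧ ∀ᵐ s ∂P, s ∈ G := by
    have h1 := cond_Cs H
    rw [ae_iff] at h1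
    refine ⟨(toMeasurable P {s | ¬ Cs (condExpKernel P (iv P F) s) F})ᶜ,
      (measurableSet_toMeasurable _ _).compl, fun s hs => ?_, ?_⟩
    · by_contra hc
      exact hs (subset_toMeasurable _ _ hc)
    · rw [ae_iff]
      simp only [Set.mem_compl_iff, not_not]
      rw [← h1]
      exact measure_toMeasurable _
  -- measurability of the covariance
  have hcm : Measurable fun p : S × ℂ => cv (K p.1) F p.2 := by
    have m1 : StronglyMeasurable fun q : (S × ℂ) × S => F q.2 0 * F q.2 q.1.2 := by
      refine Measurable.stronglyMeasurable (Measurable.mul ?_ ?_)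
      · exact (F_m hF 0).comp measurable_snd
      · exact hF.joint.comp (measurable_snd.prodMk (measurable_snd.comp measurable_fst))
    have m2 := StronglyMeasurable.integral_kernel_prod_right'
      (κ := K.comap (Prod.fst : S × ℂ → S) measurable_fst) m1
    exact m2.measurable
  set m : S → ℝ := fun s => cv (K s) F 0 with hm
  have hmm : Measurable m := hcm.comp (measurable_id.prodMk measurable_const)
  let f : S → ℂ → ℝ := fun s w => if 0 < m s then cv (K s) F w / m s else 1
  have hf : Measurable fun p : S × ℂ => f p.1 p.2 := by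
    refine Measurable.ite ?_ (hcm.div (hmm.comp measurable_fst)) measurable_const
    exact measurableSet_lt measurable_const (hmm.comp measurable_fst)
  have hpsd : ∀ s ∈ G, Psd (f s) := by
    intro s hs
    by_cases h0 : 0 < m s
    · have e : f s = fun w => cv (K s) F w / cv (K s) F 0 := by
        funext w
        simp only [f, if_pos h0]
        rfl
      rw [e]
      exact cv_Psd hF (hG s hs) h0
    · have e : f s = fun _ => 1 := by
        funext w
        simp only [f, if_neg h0]
      rw [e]
      exact psd_one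
  obtain ⟨κ, hκ, hκc⟩ := kern hf hGm hpsd
  refine ⟨m, κ.map Complex.arg, Kernel.IsMarkovKernel.map κ Complex.measurable_arg,
    fun s => cv_nn, fun w => ?_⟩
  have hi : Integrable (fun s => F s 0 * F s w) P :=
    (integrable_map_measure (H.ff 0 w).aestronglyMeasurable
      (F_meas H.joint).aemeasurable).1 (H.ff 0 w)
  have e1 := condExp_ae_eq_integral_condExpKernel (iv_le H) hi
  filter_upwards [e1, hG1] with s k1 hs
  have k2 : ∫ o, F o 0 * F o w ∂(condExpKernel P (iv P F) s) = cv (K s) F w := rfl
  rw [k1, k2, Kernel.map_apply _ Complex.measurable_arg]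
  have hCs := hG s hs
  by_cases h0 : 0 < m s
  · have hc : ∀ x, ∫ ξ, ex ξ x ∂(κ s) = ((cv (K s) F x / m s : ℝ) : ℂ) := by
      intro x
      rw [← charFun_ex, hκc s hs x]
      simp only [f, if_pos h0]
    have r1 : ∀ x, ∫ w, cv (K s) F (x + w) / m s * psi w = cv (K s) F x / m s := by
      intro x
      have h3 := cv_rep (κ := K s) hF hCs psi_smooth.continuous psiSp (τ := 1)
        (fun o y => by rw [one_mul]; exact rp (hF.smooth o) (hF.eigen o) y) x
      have e : ∀ w, cv (K s) F (x + w) / m s * psi w = (cv (K s) F (x + w) * psi w) / m s :=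
        fun w => by ring
      simp only [e]
      rw [integral_div, h3, one_mul]
    have r2 : ∀ x, ∫ w, cv (K s) F (x + w) / m s * lap psi w = -(cv (K s) F x / m s) := by
      intro x
      have h3 := cv_rep (κ := K s) hF hCs lapsi_smooth.continuous lapsi_Sp (τ := -1)
        (fun o y => by rw [neg_one_mul]; exact rl (hF.smooth o) (hF.eigen o) y) x
      have e : ∀ w, cv (K s) F (x + w) / m s * lap psi w =
          (cv (K s) F (x + w) * lap psi w) / m s := fun w => by ring
      simp only [e]
      rw [integral_div, h3]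
      ring
    have hcirc := circ (P := κ s) (f := fun x => cv (K s) F x / m s) hc r1 r2
    rw [cov_of_circ hc hcirc w]
    field_simp
  · have h2 : m s = 0 := le_antisymm (not_lt.1 h0) cv_nn
    have h3 := cv_le hF hCs w
    have h4 : cv (K s) F 0 = 0 := h2
    rw [h4] at h3
    rw [h2, zero_mul]
    exact abs_nonpos_iff.1 h3

end

end Pool.Agent.K3h40.EC
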