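import Pool.Agent.K3h40.EC.X7
import Pool.Agent.K3h40.EC.Defs

/-! Existence of the random spectral measure of local limits (helper40). -/

set_option autoImplicit false

open MeasureTheory Filter Topology Complex ProbabilityTheory
open scoped ContDiff ENNReal

namespace Pool.Agent.K3h40.EC.Loc

open Pool.Agent.R989.Asm (XW XW_meas)

noncomputable section

variable [MeasurableSpace C(ℂ, ℝ)] [BorelSpace C(ℂ, ℝ)] {Ω : Set ℂ} {χ : ℝ → ℝ} {lam : ℕ → ℝ}
  {u : ℕ → ℂ → ℝ} {μ : Measure C(ℂ, ℝ)} [IsProbabilityMeasure μ]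

/-- Local limits of quantum ergodic eigenfunctions have a random spectral measure. -/
theorem exists_spectral (hχ : IsCutoff χ) (hu : IsQuantumErgodic Ω lam u)
    (hμ : IsLocalLimit Ω χ lam u μ) :
    ∃ (m : C(ℂ, ℝ) → ℝ) (ν : Kernel C(ℂ, ℝ) ℝ), IsMarkovKernel ν ∧ IsSpectral μ m ν := by
  obtain ⟨σ, hσ, hlim⟩ := hμ
  have H := qe hχ hu hσ
  have hW : WL Ω χ (fun n => lam (σ n)) (fun n => u (σ n)) μ := hlim
  have hW2 := wv2 H hW
  obtain ⟨m, ν, hν, -, h⟩ := ex_spec hW2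
  refine ⟨m, ν, hν, fun w => ?_⟩
  exact (transfer (ae_MW H hW) (XW w) (XW_meas w) (hW2.xw w)).symm.trans (h w)

end

end Pool.Agent.K3h40.EC.Loc
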