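import Pool.Agent.K3h40.EC.X8

/-! Random spectral measures: the directions only matter where the mass is not zero (helper40). -/

set_option autoImplicit false

open MeasureTheory Filter Topology Complex ProbabilityTheory
open scoped ContDiff ENNReal

namespace Pool.Agent.K3h40.EC.Loc

noncomputable section

instance : IsProbabilityMeasure uniform :=
  inferInstanceAs (IsProbabilityMeasure Pool.Agent.K3h40.EC.un)

lemma parallel_uniform : parallel uniform = 0 := by
  have hm : MeasurableSet {p : ℝ × ℝ | Real.sin (p.1 - p.2) = 0} :=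
    (isClosed_eq (by fun_prop) continuous_const).measurableSet
  unfold parallel
  rw [measureReal_def, (Measure.measure_prod_null hm).2, ENNReal.toReal_zero]
  refine Eventually.of_forall fun a => ?_
  have hc : (Prod.mk a ⁻¹' {p : ℝ × ℝ | Real.sin (p.1 - p.2) = 0}).Countable := by
    refine (Set.countable_range fun n : ℤ => a - n * Real.pi).mono ?_
    rintro b hb
    have hb' : Real.sin (a - b) = 0 := hb
    obtain ⟨n, hn⟩ := Real.sin_eq_zero_iff.1 hb'
    exact ⟨n, by simp only; linarith⟩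
  have h0 : volume (Prod.mk a ⁻¹' {p : ℝ × ℝ | Real.sin (p.1 - p.2) = 0}) = 0 :=
    hc.measure_zero _
  have h1 : (volume.restrict (Set.Ioc 0 (2 * Real.pi)))
      (Prod.mk a ⁻¹' {p : ℝ × ℝ | Real.sin (p.1 - p.2) = 0}) = 0 :=
    Measure.restrict_apply_eq_zero' measurableSet_Ioc |>.2
      (measure_mono_null Set.inter_subset_left h0)
  show uniform _ = 0
  unfold uniform
  rw [Measure.smul_apply, h1, smul_zero]

variable [MeasurableSpace C(ℂ, ℝ)] [BorelSpace C(ℂ, ℝ)] {μ : Measure C(ℂ, ℝ)}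
  [IsProbabilityMeasure μ]

lemma cov_zero (ν : Measure ℝ) [IsProbabilityMeasure ν] : cov ν 0 = 1 := by
  unfold cov
  simp

/-- a version of the spectral measure which is isotropic where the mass is zero -/
theorem normalise {m : C(ℂ, ℝ) → ℝ} {ν : Kernel C(ℂ, ℝ) ℝ} [IsMarkovKernel ν]
    (hν : IsSpectral μ m ν) (hpar : ∀ᵐ f ∂μ, m f ≠ 0 → parallel (ν f) = 0) :
    ∃ (m' : C(ℂ, ℝ) → ℝ) (ν' : Kernel C(ℂ, ℝ) ℝ), IsMarkovKernel ν' ∧ IsSpectral μ m' ν' ∧
      (∀ᵐ f ∂μ, parallel (ν' f) = 0) ∧ ∀ᵐ f ∂μ, m' f = m f ∧ (m f ≠ 0 → ν' f = ν f) := by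
  classical
  let m' : C(ℂ, ℝ) → ℝ := μ[fun f => f 0 * f 0 | invariant μ]
  have hm' : Measurable m' :=
    (stronglyMeasurable_condExp (m := invariant μ)).measurable.mono (inv_le' μ) le_rfl
  have hmm : ∀ᵐ f ∂μ, m' f = m f := by
    filter_upwards [hν 0] with f hf
    show (μ[fun f => f 0 * f 0 | invariant μ]) f = m f
    rw [hf, cov_zero, mul_one]
  have hs : MeasurableSet {f | m' f ≠ 0} := (measurableSet_eq_fun hm' measurable_const).compl
  let ν' : Kernel C(ℂ, ℝ) ℝ := Kernel.piecewise hs ν (Kernel.const _ uniform)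
  have e1 : ∀ f, m' f ≠ 0 → ν' f = ν f := fun f hf => by
    show (Kernel.piecewise hs ν (Kernel.const _ uniform)) f = _
    rw [Kernel.piecewise_apply]
    exact if_pos hf
  have e2 : ∀ f, m' f = 0 → ν' f = uniform := fun f hf => by
    show (Kernel.piecewise hs ν (Kernel.const _ uniform)) f = _
    rw [Kernel.piecewise_apply]
    exact if_neg fun h => h hf
  refine ⟨m', ν', inferInstance, fun w => ?_, ?_, ?_⟩
  · filter_upwards [hν w, hmm] with f h1 h2
    rw [h1, h2]
    by_cases h0 : m f = 0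
    · rw [h0, zero_mul, zero_mul]
    · rw [e1 f (by rw [h2]; exact h0)]
  · filter_upwards [hpar, hmm] with f h1 h2
    by_cases h0 : m f = 0
    · rw [e2 f (by rw [h2]; exact h0)]
      exact parallel_uniform
    · rw [e1 f (by rw [h2]; exact h0)]
      exact h1 h0
  · filter_upwards [hmm] with f h2
    exact ⟨h2, fun h0 => e1 f (by rw [h2]; exact h0)⟩

end

end Pool.Agent.K3h40.EC.Loc
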