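import Pool.Agent.K3h40.EC.G2
import Pool.Agent.K3h40.EC.M5

/-! Local limits of quantum ergodic sequences: assembly (helper40). -/

set_option autoImplicit false
open MeasureTheory Filter Topology Complex ProbabilityTheory
open scoped ContDiff ENNReal

namespace Pool.Agent.K3h40.EC

open Pool.Agent.W745.RW Pool.Agent.R989.Erg
open Pool.Agent.R989.Asm (XW XW_meas XA XA_meas)
open Pool.Agent.Results.MP_6b977f_mp.FourPointFunctions (cov gauss parallel)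

noncomputable section

/-- the path of a continuous function -/
def pa (f : C(ℂ, ℝ)) : ℂ → ℝ := fun y => f y

open Classical in
/-- the path of a solution, zero if the function is not a solution -/
def Fw (f : C(ℂ, ℝ)) : ℂ → ℝ := if f ∈ MW then pa f else fun _ => 0

lemma Fw_of {f : C(ℂ, ℝ)} (h : f ∈ MW) : Fw f = pa f := if_pos h

lemma lap_zero' (z : ℂ) : lap (fun _ : ℂ => (0 : ℝ)) z = 0 := by
  unfold lap dx dy
  simp

variable [MeasurableSpace C(ℂ, ℝ)] [BorelSpace C(ℂ, ℝ)]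
variable {Ω : Set ℂ} {χ : ℝ → ℝ} {lam : ℕ → ℝ} {u : ℕ → ℂ → ℝ} {μ : Measure C(ℂ, ℝ)}
  [IsProbabilityMeasure μ]

lemma pa_meas : Measurable pa := path_meas

omit [BorelSpace C(ℂ, ℝ)] [IsProbabilityMeasure μ] in
lemma Fw_ae (hM : ∀ᵐ f ∂μ, f ∈ MW) : Fw =ᵐ[μ] pa := by
  filter_upwards [hM] with f hf using Fw_of hf

lemma Fw_meas : Measurable Fw := by
  unfold Fw
  exact Measurable.ite MW_closed.measurableSet pa_meas measurable_const

lemma wv2 (H : Qe Ω χ lam u) (hμ : WL Ω χ lam u μ) : Wv2 μ Fw := by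
  have hM := ae_MW H hμ
  have hF := Fw_ae hM
  refine ⟨fun y => (measurable_pi_apply y).comp Fw_meas, fun f => ?_, fun f y => ?_, fun x => ?_,
    ?_⟩
  · by_cases hf : f ∈ MW
    · rw [Fw_of hf]
      exact (MW_reg hf).1
    · have : Fw f = fun _ => 0 := if_neg hf
      rw [this]
      exact contDiff_const
  · by_cases hf : f ∈ MW
    · rw [Fw_of hf]
      exact (MW_reg hf).2 y
    · have : Fw f = fun _ => 0 := if_neg hf
      rw [this, lap_zero', add_zero]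
  · have h1 : (fun (f : C(ℂ, ℝ)) (y : ℂ) => Fw f (y + x)) =ᵐ[μ]
        fun (f : C(ℂ, ℝ)) (y : ℂ) => f (y + x) := by
      filter_upwards [hF] with f hf
      rw [hf]
      rfl
    rw [Measure.map_congr h1, Measure.map_congr hF]
    exact stat H.toLoc hμ x
  · have h1 := sq_le H hμ
    have h2 : Integrable (fun f : C(ℂ, ℝ) => f 0 ^ 2) μ := by
      refine ⟨((continuous_eval_const (0 : ℂ)).pow 2).measurable.aestronglyMeasurable, ?_⟩
      rw [hasFiniteIntegral_iff_ofReal (ae_of_all _ fun f => sq_nonneg _)]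
      exact lt_of_le_of_lt h1 ENNReal.one_lt_top
    refine h2.congr ?_
    filter_upwards [hF] with f hf
    rw [hf]
    rfl

lemma transfer (hM : ∀ᵐ f ∂μ, f ∈ MW) (X : (ℂ → ℝ) → ℝ) (hX : Measurable X)
    (hXi : Integrable X (μ.map Fw)) :
    μ[fun f => X (Fw f) | (inv (μ.map Fw)).comap Fw] =ᵐ[μ]
      μ[fun f => X (pa f) | (inv (μ.map pa)).comap pa] := by
  have hF := Fw_ae hM
  have h1 := ce_transfer (P := μ) Fw_meas X hXi hX
  have hL : μ.map Fw = μ.map pa := Measure.map_congr hF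
  have h2 := ce_transfer (P := μ) pa_meas X (by rw [← hL]; exact hXi) hX
  have h3 : (fun f => ((μ.map Fw)[X | inv (μ.map Fw)]) (Fw f)) =ᵐ[μ]
      fun f => ((μ.map pa)[X | inv (μ.map pa)]) (pa f) := by
    filter_upwards [hF] with f hf
    rw [hf, hL]
  exact (h1.trans h3).trans h2.symm

lemma hcov_w (H : Qe Ω χ lam u) (hμ : WL Ω χ lam u μ) {m : C(ℂ, ℝ) → ℝ} {ν : Kernel C(ℂ, ℝ) ℝ}
    (hcov : ∀ w : ℂ, μ[fun f => pa f 0 * pa f w | (inv (μ.map pa)).comap pa] =ᵐ[μ]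
      fun f => m f * cov (ν f) w) (w : ℂ) :
    μ[fun f => Fw f 0 * Fw f w | (inv (μ.map Fw)).comap Fw] =ᵐ[μ] fun f => m f * cov (ν f) w := by
  have hW := wv2 H hμ
  exact (transfer (ae_MW H hμ) (XW w) (XW_meas w) (hW.xw w)).trans (hcov w)

lemma hQ_w (H : Qe Ω χ lam u) (hμ : WL Ω χ lam u μ) (b : ℕ → ℝ) (M : ℕ)
    (hb : ∑ i ∈ Finset.range M, b i = 0) (hG : 0 ≤ Gm b M) (x : ℂ) :
    ∫⁻ f, ENNReal.ofReal (QQ b M (Fw f) x) ∂μ ≤ ENNReal.ofReal (Gm b M) := by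
  refine le_trans (le_of_eq (lintegral_congr_ae ?_)) (QQ_le H hμ b M hb hG x)
  filter_upwards [Fw_ae (ae_MW H hμ)] with f hf
  rw [hf]
  rfl

/-- **Domination of the law of the angle.** -/
theorem part_dom (H : Qe Ω χ lam u) (hμ : WL Ω χ lam u μ) {m : C(ℂ, ℝ) → ℝ}
    {ν : Kernel C(ℂ, ℝ) ℝ} [IsMarkovKernel ν]
    (hcov : ∀ w : ℂ, μ[fun f => pa f 0 * pa f w | (inv (μ.map pa)).comap pa] =ᵐ[μ]
      fun f => m f * cov (ν f) w) {B : Set ℝ} (hB : MeasurableSet B) (h1 : (1 : ℝ) ∉ B) :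
    ∫⁻ f, ENNReal.ofReal (m f ^ 2) * ((ν f).prod (ν f)) {p | Real.cos (ang p) ∈ B} ∂μ ≤
      (un.prod un) {p | Real.cos (ang p) ∈ B} := by
  have hW := wv2 H hμ
  have hc := hcov_w H hμ hcov
  exact dom (m_aem hW m ν hc) (fun a K hK => gen hW m ν hc (hQ_w H hμ) a hK) hB h1

/-- **The covariance of the components.** -/
theorem part_bes (H : Qe Ω χ lam u) (hμ : WL Ω χ lam u μ) {m : C(ℂ, ℝ) → ℝ}
    {ν : Kernel C(ℂ, ℝ) ℝ} [IsMarkovKernel ν]
    (hcov : ∀ w : ℂ, μ[fun f => pa f 0 * pa f w | (inv (μ.map pa)).comap pa] =ᵐ[μ]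
      fun f => m f * cov (ν f) w) (h1 : ∫ f, pa f 0 ^ 2 ∂μ = 1)
    (hp : ∀ᵐ f ∂μ, parallel (ν f) = 0) :
    ∀ᵐ f ∂μ, m f = 1 ∧ ∀ w : ℂ, cov (ν f) w = bes ‖w‖ := by
  have hW := wv2 H hμ
  have hc := hcov_w H hμ hcov
  refine bessel hW m ν hc (hQ_w H hμ) ?_ hp
  rw [← h1]
  refine integral_congr_ae ?_
  filter_upwards [Fw_ae (ae_MW H hμ)] with f hf
  rw [hf]

/-- **The four point functions of the components.** -/
theorem part_four (H : Qe Ω χ lam u) (hμ : WL Ω χ lam u μ) {m : C(ℂ, ℝ) → ℝ}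
    {ν : Kernel C(ℂ, ℝ) ℝ} [IsMarkovKernel ν]
    (hcov : ∀ w : ℂ, μ[fun f => pa f 0 * pa f w | (inv (μ.map pa)).comap pa] =ᵐ[μ]
      fun f => m f * cov (ν f) w)
    (hp : ∀ᵐ f ∂μ, parallel (ν f) = 0) (h4 : Integrable (fun f => pa f 0 ^ 4) μ)
    (w : Fin 4 → ℂ) :
    μ[fun f => ∏ i, pa f (w i) | (inv (μ.map pa)).comap pa] =ᵐ[μ]
      fun f => m f ^ 2 * gauss (ν f) w := by
  have hW := wv2 H hμ
  have hc := hcov_w H hμ hcov
  have hF := Fw_ae (ae_MW H hμ)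
  have hW4 : Pool.Agent.R989.Asm.Wv μ Fw := ⟨hW.meas, hW.smooth, hW.eigen, hW.stat, by
    refine h4.congr ?_
    filter_upwards [hF] with f hf
    rw [hf]⟩
  have h5 := (Pool.Agent.R989.Asm.main hW4 m ν hc w).2 hp
  exact (transfer (ae_MW H hμ) (XA w) (XA_meas w) (hW4.xa w)).symm.trans h5

end

end Pool.Agent.K3h40.EC
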