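import Pool.Agent.K3h40.EC.Z

/-! Local limits of quantum ergodic sequences: averages of the mass over large discs, mixtures of
Gaussian waves (helper40). -/

set_option autoImplicit false
open MeasureTheory Filter Topology Complex ProbabilityTheory
open scoped ContDiff ENNReal Pointwise

namespace Pool.Agent.K3h40.EC

open Pool.Agent.W745.RW Pool.Agent.R989.Erg
open Pool.Agent.R989.Asm (XW XW_meas XA XA_meas ind ind_meas ind_int V_ind)
open Pool.Agent.Results.MP_6b977f_mp.FourPointFunctions (cov gauss parallel)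

noncomputable section

/-- dilation of the integral over a disc -/
lemma ball_dil (g : ℂ → ℝ) {t : ℝ} (ht : 0 < t) :
    ∫ z in Metric.closedBall (0 : ℂ) 1, g ((t : ℂ) * z) =
      (t ^ 2)⁻¹ * ∫ z in Metric.closedBall (0 : ℂ) t, g z := by
  have h1 := Measure.setIntegral_comp_smul_of_pos (volume : Measure ℂ) g
    (Metric.closedBall (0 : ℂ) 1) ht
  rw [Complex.finrank_real_complex] at h1
  have h2 : t • Metric.closedBall (0 : ℂ) 1 = Metric.closedBall (0 : ℂ) t := by
    rw [smul_closedBall t 0 zero_le_one, smul_zero, Real.norm_eq_abs, abs_of_pos ht, mul_one]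
  rw [h2, smul_eq_mul] at h1
  rw [← h1]
  refine setIntegral_congr_fun measurableSet_closedBall fun z _ => ?_
  simp only [Complex.real_smul]

lemma ind_one : ∫ z, ind 1 z = Real.pi := by
  unfold ind
  rw [integral_indicator measurableSet_closedBall, setIntegral_const, smul_eq_mul, mul_one,
    measureReal_def, Complex.volume_closedBall]
  simp

variable {S : Type*} [MeasurableSpace S] {P : Measure S} [IsProbabilityMeasure P]
  {F : S → ℂ → ℝ}

/-- mean ergodic theorem for the mass -/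
lemma mass_lim (H : Wv2 P F) {m : S → ℝ} {ν : Kernel S ℝ} [IsMarkovKernel ν]
    (hcov : ∀ w : ℂ, P[fun s => F s 0 * F s w | (inv (P.map F)).comap F] =ᵐ[P]
      fun s => m s * cov (ν s) w) (hm : ∀ᵐ s ∂P, m s = 1) :
    Tendsto (fun R : ℝ => ∫ s, |(Real.pi * R ^ 2)⁻¹ *
      (∫ z in Metric.closedBall (0 : ℂ) R, F s z ^ 2) - 1| ∂P) atTop (𝓝 0) := by
  have hlp : IsProbabilityMeasure (P.map F) := law_prob H.joint
  have hFm : Measurable F := F_meas H.joint
  set x : (ℂ → ℝ) → ℝ := XW 0 with hx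
  have hxi := H.xw 0
  have hc : ∀ᵐ s ∂P, ((P.map F)[x | inv (P.map F)]) (F s) = 1 := by
    have h1 := ce_transfer (P := P) hFm x hxi (XW_meas 0)
    have h2 := h1.symm.trans (hcov 0)
    filter_upwards [h2, hm] with s hs hs2
    rw [hs, hs2, cov0, mul_one]
  have hpi := Real.pi_pos
  rw [Metric.tendsto_nhds]
  intro ε hε
  have hL := L1 (S := S) (P := P) H.mps (ind 1) (ind_meas 1) (ind_int 1) x (XW_meas 0) hxi
    (ENNReal.ofReal (Real.pi * ε / 2)) (ENNReal.ofReal_pos.2 (by positivity))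
  filter_upwards [hL, eventually_gt_atTop 0] with t ht ht0
  have h3 := ht F H.fld
  have e1 : ∀ s, V F (ind 1) t x s = (t ^ 2)⁻¹ *
      ∫ z in Metric.closedBall (0 : ℂ) t, F s z ^ 2 := by
    intro s
    rw [V_ind, ← ball_dil _ ht0, Nat.cast_one]
    refine setIntegral_congr_fun measurableSet_closedBall fun z _ => ?_
    simp only [hx, XW, sh, zero_add]
    ring
  have hVm := V_meas H.joint (ind 1) (ind_meas 1) t x (XW_meas 0)
  have e2 : ∫⁻ s, ‖V F (ind 1) t x s - Real.pi‖ₑ ∂P ≤ ENNReal.ofReal (Real.pi * ε / 2) := by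
    rw [eLpNorm_one_eq_lintegral_enorm] at h3
    refine le_trans (le_of_eq (lintegral_congr_ae ?_)) h3
    filter_upwards [hc] with s hs
    rw [ind_one, hs, mul_one]
  have e3 : ∫ s, |V F (ind 1) t x s - Real.pi| ∂P ≤ Real.pi * ε / 2 := by
    have h4 := integral_norm_eq_lintegral_enorm (μ := P)
      (f := fun s => V F (ind 1) t x s - Real.pi) (hVm.sub_const _).aestronglyMeasurable
    simp only [Real.norm_eq_abs] at h4
    rw [h4]
    exact ENNReal.toReal_le_of_le_ofReal (by positivity) e2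
  have e4 : ∀ s, |(Real.pi * t ^ 2)⁻¹ * (∫ z in Metric.closedBall (0 : ℂ) t, F s z ^ 2) - 1| =
      Real.pi⁻¹ * |V F (ind 1) t x s - Real.pi| := by
    intro s
    rw [e1 s]
    have h8 : Real.pi⁻¹ * |(t ^ 2)⁻¹ * (∫ z in Metric.closedBall (0 : ℂ) t, F s z ^ 2) -
        Real.pi| = |Real.pi⁻¹ * ((t ^ 2)⁻¹ * (∫ z in Metric.closedBall (0 : ℂ) t, F s z ^ 2) -
        Real.pi)| := by
      rw [abs_mul, abs_of_pos (inv_pos.2 hpi)]
    rw [h8]
    congr 1
    field_simp
  simp only [e4]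
  rw [integral_const_mul, Real.dist_eq, sub_zero, abs_of_nonneg (by positivity)]
  have h5 : Real.pi⁻¹ * (∫ s, |V F (ind 1) t x s - Real.pi| ∂P) ≤ Real.pi⁻¹ * (Real.pi * ε / 2) :=
    mul_le_mul_of_nonneg_left e3 (inv_pos.2 hpi).le
  have h6 : Real.pi⁻¹ * (Real.pi * ε / 2) = ε / 2 := by field_simp
  linarith

end

noncomputable section

variable [MeasurableSpace C(ℂ, ℝ)] [BorelSpace C(ℂ, ℝ)]
variable {Ω : Set ℂ} {χ : ℝ → ℝ} {lam : ℕ → ℝ} {u : ℕ → ℂ → ℝ} {μ : Measure C(ℂ, ℝ)}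
  [IsProbabilityMeasure μ]

/-- **The mass over large discs.** -/
theorem part_mass (H : Qe Ω χ lam u) (hμ : WL Ω χ lam u μ) {m : C(ℂ, ℝ) → ℝ}
    {ν : Kernel C(ℂ, ℝ) ℝ} [IsMarkovKernel ν]
    (hcov : ∀ w : ℂ, μ[fun f => pa f 0 * pa f w | (inv (μ.map pa)).comap pa] =ᵐ[μ]
      fun f => m f * cov (ν f) w) (hm : ∀ᵐ f ∂μ, m f = 1) :
    Tendsto (fun R : ℝ => ∫ f, |(Real.pi * R ^ 2)⁻¹ *
      (∫ z in Metric.closedBall (0 : ℂ) R, pa f z ^ 2) - 1| ∂μ) atTop (𝓝 0) := by
  have hW := wv2 H hμ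
  have hc := hcov_w H hμ hcov
  refine (mass_lim hW hc hm).congr fun R => ?_
  refine integral_congr_ae ?_
  filter_upwards [Fw_ae (ae_MW H hμ)] with f hf
  rw [hf]

omit [BorelSpace C(ℂ, ℝ)] in
/-- integration of a conditional expectation with constant value -/
lemma int_of_cond (hle : (inv (μ.map pa)).comap pa ≤ ‹MeasurableSpace C(ℂ, ℝ)›)
    {X : C(ℂ, ℝ) → ℂ} {c : ℂ}
    (h : μ[X | (inv (μ.map pa)).comap pa] =ᵐ[μ] fun _ => c) : ∫ f, X f ∂μ = c := by
  rw [← integral_condExp hle, integral_congr_ae h]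
  simp

lemma comap_le : (inv (μ.map pa)).comap pa ≤ ‹MeasurableSpace C(ℂ, ℝ)› := by
  intro A hA
  obtain ⟨B, hB, rfl⟩ := hA
  exact pa_meas (inv_le _ _ hB)

end

end Pool.Agent.K3h40.EC
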